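import Pool.Agent.X208.SP.Zero

/-!
# Conjecture D in one codimension implies the conjecture A in one codimension
-/

open CategoryTheory AlgebraicGeometry

universe u v

namespace Pool.Agent.X208.SP

open Module
open Pool.Agent.H914 Pool.Agent.H914.VarClass Pool.Agent.H914.VarClass.Obj
  Pool.Agent.H914.WeilCohomology Pool.Agent.Y133.Half Pool.Agent.Y133.Half.Sys
  Pool.Agent.X208.SQ Pool.Agent.H447

variable {k : Type u} [Field k] {𝒱 : VarClass k} {ops : CycleOps 𝒱}
  {W : WeilCohomology.{u, v} ops} {X Y Z : 𝒱.Obj}

lemma Cg_alg (X : 𝒱.Obj) (c : ℕ) : Cg (algSys W) X c = spanCycles W X c := by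
  apply le_antisymm
  · rintro x ⟨h1, h2⟩
    exact spanCycles_of_algSpan h1 h2
  · intro x hx
    exact ⟨Pool.Agent.Y129.span_le_algSpan c hx, H447.span_gr hx⟩

lemma homog_alg : Homog (algSys W) := by
  intro Z c hc j
  refine Pool.Agent.W536.RR.algSpan_induction (p := fun c =>
    H914.proj (W.isInternal Z) (2 * j) c ∈ (algSys W).C Z) ?_ ?_ ?_ ?_ hc
  · rw [map_zero]; exact Submodule.zero_mem _
  · intro a b ha hb; rw [map_add]; exact Submodule.add_mem _ ha hb
  · intro t a ha; rw [map_smul]; exact Submodule.smul_mem _ _ ha
  · intro l w hw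
    by_cases hl : l = j
    · subst hl
      rw [proj_same _ (W.cl_mem hw)]
      exact Pool.Agent.Y129.span_le_algSpan l (mem_span_cl hw)
    · rw [proj_ne _ (W.cl_mem hw) (by omega)]
      exact Submodule.zero_mem _

/-- A class of the system of degree `2 c` orthogonal to the classes of complementary degree is
numerically trivial. -/
lemma mem_Num_of_compl {S : Sys W} (hS : Homog S) {c c' : ℕ} (hc : c + c' = X.dim) {z : W.H X}
    (hz : z ∈ S.C X) (hzc : z ∈ W.gr X (2 * c))
    (h : ∀ s ∈ Cg S X c', W.tr X (z * s) = 0) : z ∈ S.Num X := by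
  refine ⟨hz, fun s hs => ?_⟩
  have h1 := h _ ⟨hS _ s hs c', proj_mem _ _ _⟩
  rw [W.even_comm hzc, tr_proj (by omega) hzc] at h1
  rw [W.even_comm hzc]
  exact h1

/-- If there are no numerically trivial classes of codimension `dim X - p` then the conjecture A
holds in the codimension `p`. -/
theorem lefschetzAIn_of_no_num {D : X.Cycles} (hD : X.IsCyc 1 D) (hHL : HardLefschetz W X D)
    {p : ℕ} (hp : 2 * p ≤ X.dim)
    (h0 : ∀ z ∈ (algSys W).Num X, z ∈ W.gr X (2 * (X.dim - p)) → z = 0) :
    LefschetzAIn W X D p := by
  set L := LinearMap.mulLeft W.K (W.cl X D) with hL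
  set q := X.dim - p with hq
  have hLspan : ∀ a ∈ spanCycles W X p, (L ^ (X.dim - 2 * p)) a ∈ spanCycles W X q := by
    intro a ha
    rw [spanCycles] at ha
    induction ha using Submodule.span_induction with
    | mem x hx =>
      obtain ⟨r, hr, w, hw, rfl⟩ := hx
      obtain rfl : r = p := by exact_mod_cast hr
      rw [← cl_divPow]
      have h1 := divPow_mem (ops := ops) hD (X.dim - 2 * r) hw
      rw [show r + (X.dim - 2 * r) = q by omega] at h1
      exact mem_span_cl h1
    | zero => rw [map_zero]; exact Submodule.zero_mem _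
    | add x y _ _ h1 h2 => rw [map_add]; exact Submodule.add_mem _ h1 h2
    | smul t x _ h1 => rw [map_smul]; exact Submodule.smul_mem _ _ h1
  have hLinj : ∀ a ∈ spanCycles W X p, (L ^ (X.dim - 2 * p)) a = 0 → a = 0 := by
    intro a ha h
    exact (hHL (2 * p) hp).1 a (H447.span_gr ha) h
  -- the dimensions
  have hdim : finrank W.K (spanCycles W X q) ≤ finrank W.K (spanCycles W X p) := by
    rw [← Cg_alg, ← Cg_alg]
    have hinj : Function.Injective (Bg (algSys W) (algSys W) X q p) := by
      rw [injective_iff_map_eq_zero]
      intro t ht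
      apply Subtype.ext
      refine h0 t.1 (mem_Num_of_compl homog_alg (c := q) (c' := p) (by omega) t.2.1 t.2.2
        fun s hs => ?_) t.2.2
      exact congrArg (fun f => f ⟨s, hs⟩) ht
    have h2 := LinearMap.finrank_le_finrank_of_injective hinj
    rwa [Subspace.dual_finrank_eq] at h2
  have hsurj : (spanCycles W X p).map (L ^ (X.dim - 2 * p)) = spanCycles W X q := by
    apply Submodule.eq_of_le_of_finrank_le
    · rintro _ ⟨a, ha, rfl⟩
      exact hLspan a ha
    · have h1 : finrank W.K ((spanCycles W X p).map (L ^ (X.dim - 2 * p))) =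
          finrank W.K (spanCycles W X p) := by
        have h2 : Function.Injective ((L ^ (X.dim - 2 * p)).domRestrict (spanCycles W X p)) := by
          rw [injective_iff_map_eq_zero]
          intro a ha
          exact Subtype.ext (hLinj a.1 a.2 ha)
        rw [← LinearMap.range_domRestrict]
        exact LinearMap.finrank_range_of_inj h2
      rw [h1]
      exact hdim
  -- a rational solution
  intro z hz
  have hz1 : W.cl X z ∈ (spanCycles W X p).map (L ^ (X.dim - 2 * p)) := by
    rw [hsurj]
    exact mem_span_cl hz
  obtain ⟨a, ha, haz⟩ := hz1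
  rw [SetLike.mem_coe, spanCycles, Submodule.mem_span_set'] at ha
  obtain ⟨m, c, g, hg⟩ := ha
  choose r hr w hw hw' using fun i => (g i).2
  obtain ⟨ret, hret⟩ := exists_retract W.K
  set z' : X.Cycles := ∑ i, ret (c i) • w i with hz'
  have hwp : ∀ i, X.IsCyc p (w i) := by
    intro i
    have : r i = p := by exact_mod_cast hr i
    rw [← this]; exact hw i
  have hz'p : X.IsCyc p z' := by
    rw [hz']
    exact Finset.sum_induction _ (fun u => X.IsCyc p u) (fun a b => SmVar.IsCyc.add)
      (SmVar.IsCyc.zero _ _) (fun i _ => (hwp i).smul _)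
  refine ⟨z', hz'p, ?_⟩
  have hDz' : X.IsCyc q (divPow ops D (X.dim - 2 * p) z') := by
    have h1 := divPow_mem (ops := ops) hD (X.dim - 2 * p) hz'p
    rwa [show p + (X.dim - 2 * p) = q by omega] at h1
  have h1 : W.cl X (divPow ops D (X.dim - 2 * p) z') - W.cl X z = 0 := by
    apply h0
    · refine mem_Num_of_compl homog_alg (c := q) (c' := p) (by omega) ?_ ?_ fun s hs => ?_
      · exact Submodule.sub_mem _ (Pool.Agent.Y129.span_le_algSpan q (mem_span_cl hDz'))
          (Pool.Agent.Y129.span_le_algSpan q (mem_span_cl hz))
      · exact Submodule.sub_mem _ (W.cl_mem hDz') (W.cl_mem hz)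
      · rw [Cg_alg] at hs
        rw [spanCycles] at hs
        induction hs using Submodule.span_induction with
        | mem x hx =>
          obtain ⟨r', hr', v, hv, rfl⟩ := hx
          obtain rfl : r' = p := by exact_mod_cast hr'
          rw [sub_mul, map_sub, tr_mul_cl hDz' hv (by omega), tr_mul_cl hz hv (by omega),
            sub_eq_zero]
          -- the intersection numbers
          have h2 : ∀ i, W.tr X ((L ^ (X.dim - 2 * r')) (W.cl X (w i)) * W.cl X v) =
              (X.V.degCycle (ops.mul (divPow ops D (X.dim - 2 * r') (w i)) v) : W.K) := by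
            intro i
            rw [← cl_divPow]
            have h3 := divPow_mem (ops := ops) hD (X.dim - 2 * r') (hwp i)
            rw [show r' + (X.dim - 2 * r') = q by omega] at h3
            exact tr_mul_cl h3 hv (by omega)
          have h4 : (X.V.degCycle (ops.mul (divPow ops D (X.dim - 2 * r') z') v) : W.K) =
              ∑ i, (ret (c i) : W.K) *
                (X.V.degCycle (ops.mul (divPow ops D (X.dim - 2 * r') (w i)) v) : W.K) := by
            rw [← tr_mul_cl hDz' hv (by omega), cl_divPow, hz', map_sum, map_sum,
              Finset.sum_mul, map_sum]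
            refine Finset.sum_congr rfl fun i _ => ?_
            rw [cl_smul, map_smul, smul_mul_assoc, map_smul, smul_eq_mul, h2]
          have h5 : (X.V.degCycle (ops.mul z v) : W.K) =
              ∑ i, c i *
                (X.V.degCycle (ops.mul (divPow ops D (X.dim - 2 * r') (w i)) v) : W.K) := by
            rw [← tr_mul_cl hz hv (by omega), ← haz, ← hg, map_sum, Finset.sum_mul, map_sum]
            refine Finset.sum_congr rfl fun i _ => ?_
            rw [map_smul, smul_mul_assoc, map_smul, smul_eq_mul, ← hw' i, h2]
          have h6 := congrArg ret h5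
          rw [h4]
          have h7 : ∀ (x : W.K) (s : ℚ), ret (x * (s : W.K)) = ret x * s := by
            intro x s
            have : x * (s : W.K) = s • x := by
              rw [Rat.smul_def, mul_comm]
            rw [this, map_smul, smul_eq_mul, mul_comm]
          have h8 : ret ((X.V.degCycle (ops.mul z v) : W.K)) = X.V.degCycle (ops.mul z v) := by
            have := h7 1 (X.V.degCycle (ops.mul z v))
            rwa [one_mul, hret, one_mul] at this
          rw [h8, map_sum] at h6
          rw [h6]
          push_cast
          refine Finset.sum_congr rfl fun i _ => ?_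
          rw [h7]
          push_cast
          rfl
        | zero => rw [mul_zero, map_zero]
        | add x y _ _ hx hy => rw [mul_add, map_add, hx, hy, add_zero]
        | smul t x _ hx => rw [mul_smul_comm, map_smul, hx, smul_zero]
    · exact Submodule.sub_mem _ (W.cl_mem hDz') (W.cl_mem hz)
  exact sub_eq_zero.1 h1

end Pool.Agent.X208.SP
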