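import Pool.Agent.X208.SP.SDefs

/-!
# A positive proportion of numerically nontrivial classes: definition
-/

open CategoryTheory AlgebraicGeometry

universe u v

namespace Pool.Agent.X208.SP

open Pool.Agent.H914 Pool.Agent.H914.VarClass Pool.Agent.H914.VarClass.Obj
  Pool.Agent.H914.WeilCohomology

variable {k : Type u} [Field k] {𝒱 : VarClass k} {ops : CycleOps 𝒱}

/-- For some `ε > 0` and all large `n`: the rank of the group of the cycles on `Y × Sym ^ n X` (of
all codimensions) modulo numerical equivalence is at least `ε` times the dimension of the space of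
the algebraic classes on `Y × Sym ^ n X`. -/
def PosProp (W : WeilCohomology.{u, v} ops) (Y X : 𝒱.Obj) : Prop :=
  ∃ ε : ℝ, 0 < ε ∧ ∃ n₀ : ℕ, ∀ n, n₀ ≤ n →
    ε * ∑ j ∈ Finset.range ((yp Y X n).dim + 1), (symDim W Y X n j : ℝ) ≤
      ∑ j ∈ Finset.range ((yp Y X n).dim + 1), (symRank ops Y X n j : ℝ)

end Pool.Agent.X208.SP
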