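import Pool.Agent.X208.SP.AInst
import Pool.Agent.X208.SP.PDefs

/-!
# The conjecture A and symmetric powers
-/

open CategoryTheory AlgebraicGeometry

universe u v

namespace Pool.Agent.X208.SP

open Module
open Pool.Agent.H914 Pool.Agent.H914.VarClass Pool.Agent.H914.VarClass.Obj
  Pool.Agent.H914.WeilCohomology Pool.Agent.Y133.Half Pool.Agent.Y133.Half.Sys
  Pool.Agent.X208.SQ Pool.Agent.H447

variable {k : Type u} [Field k] {𝒱 : VarClass k} {ops : CycleOps 𝒱}
  {W : WeilCohomology.{u, v} ops} {X Y Z : 𝒱.Obj}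

lemma cast_tot (W : WeilCohomology.{u, v} ops) (Y X : 𝒱.Obj) (n : ℕ) :
    ∑ j ∈ Finset.range ((yp Y X n).dim + 1), (symDim W Y X n j : ℝ) =
      (tot (algSys W) Y X n : ℝ) := by
  rw [tot]
  push_cast
  exact Finset.sum_congr rfl fun j _ => by rw [symDim_eq]

lemma cast_totr (W : WeilCohomology.{u, v} ops) (Y X : 𝒱.Obj) (n : ℕ) :
    ∑ j ∈ Finset.range ((yp Y X n).dim + 1), (symRank ops Y X n j : ℝ) =
      (totr (algSys W) Y X n : ℝ) := by
  rw [totr]
  push_cast
  exact Finset.sum_congr rfl fun j _ => by rw [symRank_eq W]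

/-- The law for a numerically trivial class. -/
theorem law_alg (W : WeilCohomology.{u, v} ops) {z : W.H X} (hz : z ∈ (algSys W).Num X)
    (hz0 : z ≠ 0) {c : ℕ} (hzc : z ∈ W.gr X (2 * c)) (Y : 𝒱.Obj) (n j : ℕ) :
    ∑ i ∈ (Finset.range (n + 1)).filter (fun i => i * c ≤ j), symRank ops Y X (n - i) (j - i * c) ≤
      symDim W Y X n j := by
  rw [symDim_eq]
  simp only [symRank_eq W]
  exact sum_rs_le hz hz0 hzc Y n j

theorem no_num_of_posProp (hY : (1 : W.H Y) ≠ 0) (h : PosProp W Y X) {z : W.H X}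
    (hz : z ∈ (algSys W).Num X) {c : ℕ} (hzc : z ∈ W.gr X (2 * c)) : z = 0 := by
  obtain ⟨ε, hε, n₀, h⟩ := h
  by_contra hz0
  refine zero_law hz hz0 hzc hY hε (n₀ := n₀) fun n hn => ?_
  have h1 := h n hn
  rwa [cast_tot, cast_totr] at h1

/-- **The conjecture A and symmetric powers.** -/
theorem a_law (W : WeilCohomology.{u, v} ops) {X : 𝒱.Obj} {D : X.Cycles} (hD : X.IsCyc 1 D)
    (hHL : HardLefschetz W X D) :
    (∀ p, 2 * p ≤ X.dim → ¬ LefschetzAIn W X D p → ∀ (Y : 𝒱.Obj) (n j : ℕ),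
      ∑ i ∈ (Finset.range (n + 1)).filter (fun i => i * (X.dim - p) ≤ j),
        symRank ops Y X (n - i) (j - i * (X.dim - p)) ≤ symDim W Y X n j) ∧
    ∀ Y : 𝒱.Obj, (1 : W.H Y) ≠ 0 → PosProp W Y X → LefschetzA W X D := by
  constructor
  · intro p hp hA Y n j
    by_contra hcon
    apply hA
    apply lefschetzAIn_of_no_num hD hHL hp
    intro z hz hzc
    by_contra hz0
    exact hcon (law_alg W hz hz0 hzc Y n j)
  · intro Y hY h p hp
    exact lefschetzAIn_of_no_num hD hHL hp fun z hz hzc => no_num_of_posProp hY h hz hzc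

end Pool.Agent.X208.SP
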