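import Pool.Agent.X208.SP.Defs
import Pool.Agent.Y133.Half.HalfDefs

/-!
# Symmetric cycles: definitions
-/

open CategoryTheory AlgebraicGeometry

universe u v

namespace Pool.Agent.X208.SP

open Pool.Agent.H914 Pool.Agent.H914.VarClass Pool.Agent.H914.VarClass.Obj
  Pool.Agent.H914.WeilCohomology Pool.Agent.Y133.Half

variable {k : Type u} [Field k] {𝒱 : VarClass k} {ops : CycleOps 𝒱}

/-- The intersection numbers of the symmetrization `∑ σ^* z` of a cycle `z` of codimension `j` on
`Y × X ^ n` with the cycles `w` of the complementary codimension. -/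
noncomputable def symInter (ops : CycleOps 𝒱) (Y X : 𝒱.Obj) (n j : ℕ)
    (z : {z : (yp Y X n).Cycles // (yp Y X n).IsCyc j z})
    (w : {w : (yp Y X n).Cycles // ∃ l, j + l = (yp Y X n).dim ∧ (yp Y X n).IsCyc l w}) : ℚ :=
  ∑ σ : Equiv.Perm (Fin n), (yp Y X n).V.degCycle (ops.mul (ops.pull (perm Y X n σ) z.1) w.1)

/-- The rank of a matrix of rational numbers: the dimension of the span of its rows. -/
noncomputable def ratRank {A B : Type u} (F : A → B → ℚ) : ℕ :=
  Module.finrank ℚ (Submodule.span ℚ (Set.range F))

/-- The rank of the group of the symmetric cycles of codimension `j` on `Y × X ^ n` modulo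
numerical equivalence: the dimension of the space of the symmetrizations `∑ σ^* z`, with rational
coefficients, modulo numerical equivalence. -/
noncomputable def symRank (ops : CycleOps 𝒱) (Y X : 𝒱.Obj) (n j : ℕ) : ℕ :=
  ratRank (symInter ops Y X n j)

/-- The class of the symmetrization `∑ σ^* z` of the cycle `z` on `Y × X ^ n`. -/
noncomputable def symCl (W : WeilCohomology.{u, v} ops) (Y X : 𝒱.Obj) (n : ℕ)
    (z : (yp Y X n).Cycles) : W.H (yp Y X n) :=
  ∑ σ : Equiv.Perm (Fin n), W.map (perm Y X n σ) (W.cl (yp Y X n) z)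

/-- The classes of the symmetrizations of the cycles of codimension `j` on `Y × X ^ n`. -/
def symSet (W : WeilCohomology.{u, v} ops) (Y X : 𝒱.Obj) (n j : ℕ) : Set (W.H (yp Y X n)) :=
  {c | ∃ z, (yp Y X n).IsCyc j z ∧ symCl W Y X n z = c}

/-- The dimension of the space of the symmetric algebraic classes of codimension `j` on `Y × X ^ n`:
the span of the classes of the symmetrizations `∑ σ^* z` of the cycles `z` of codimension `j`. -/
noncomputable def symDim (W : WeilCohomology.{u, v} ops) (Y X : 𝒱.Obj) (n j : ℕ) : ℕ :=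
  dimOf W (symSet W Y X n j)

end Pool.Agent.X208.SP
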