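import Pool.Agent.X208.SP.Main
import Pool.Agent.X208.SP.SDefs

/-!
# Symmetric algebraic classes
-/

open CategoryTheory AlgebraicGeometry

universe u v

namespace Pool.Agent.X208.SP

open Module
open Pool.Agent.H914 Pool.Agent.H914.VarClass Pool.Agent.H914.VarClass.Obj
  Pool.Agent.H914.WeilCohomology Pool.Agent.Y133.Half Pool.Agent.Y133.Half.Sys
  Pool.Agent.X208.SQ Pool.Agent.H281R3.HT Pool.Agent.H447

variable {k : Type u} [Field k] {𝒱 : VarClass k} {ops : CycleOps 𝒱}
  {W : WeilCohomology.{u, v} ops} {X Y Z : 𝒱.Obj}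

/-- The symmetrization of a class. -/
noncomputable def sy (W : WeilCohomology.{u, v} ops) (Y X : 𝒱.Obj) (n : ℕ) :
    W.H (yp Y X n) →ₗ[W.K] W.H (yp Y X n) :=
  ∑ σ : Equiv.Perm (Fin n), (W.map (perm Y X n σ)).toLinearMap

lemma sy_apply (n : ℕ) (c : W.H (yp Y X n)) :
    sy W Y X n c = ∑ σ : Equiv.Perm (Fin n), W.map (perm Y X n σ) c := by
  rw [sy, LinearMap.sum_apply]
  rfl

lemma sy_inv (n : ℕ) (c : W.H (yp Y X n)) (σ : Equiv.Perm (Fin n)) :
    W.map (perm Y X n σ) (sy W Y X n c) = sy W Y X n c := by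
  rw [sy_apply, map_sum, ← Equiv.sum_comp (Equiv.mulLeft σ) (fun τ => W.map (perm Y X n τ) c)]
  refine Finset.sum_congr rfl fun τ _ => ?_
  rw [← W.map_comp, ← perm_mul]
  rfl

lemma sy_of_inv (n : ℕ) {c : W.H (yp Y X n)} (hc : ∀ σ, W.map (perm Y X n σ) c = c) :
    sy W Y X n c = (n.factorial : W.K) • c := by
  rw [sy_apply, Finset.sum_congr rfl (fun σ _ => hc σ), Finset.sum_const, Finset.card_univ,
    Fintype.card_perm, Fintype.card_fin, Nat.cast_smul_eq_nsmul]

/-- The invariant algebraic classes are the combinations of the symmetrizations of the cycles. -/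
lemma span_eq_Cs (W : WeilCohomology.{u, v} ops) (Y X : 𝒱.Obj) (n j : ℕ) :
    Submodule.span W.K (symSet W Y X n j) = Cs (algSys W) Y X n j := by
  apply le_antisymm
  · rw [Submodule.span_le]
    rintro _ ⟨z, hz, rfl⟩
    have h1 : W.cl (yp Y X n) z ∈ (algSys W).C (yp Y X n) :=
      Pool.Agent.Y129.span_le_algSpan j (mem_span_cl hz)
    rw [symCl, ← sy_apply]
    refine ⟨?_, ?_, sy_inv n _⟩
    · rw [sy_apply]
      exact Submodule.sum_mem _ fun σ _ => (algSys W).map _ h1
    · rw [sy_apply]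
      exact Submodule.sum_mem _ fun σ _ => W.map_mem _ (W.cl_mem hz)
  · intro c hc
    have h1 : c ∈ spanCycles W (yp Y X n) j := spanCycles_of_algSpan hc.1 hc.2.1
    have h2 : (n.factorial : W.K) ≠ 0 := Nat.cast_ne_zero.2 (Nat.factorial_ne_zero n)
    have h3 : c = (n.factorial : W.K)⁻¹ • sy W Y X n c := by
      rw [sy_of_inv n hc.2.2, smul_smul, inv_mul_cancel₀ h2, one_smul]
    rw [h3]
    apply Submodule.smul_mem
    have h4 : ∀ a ∈ spanCycles W (yp Y X n) j, sy W Y X n a ∈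
        Submodule.span W.K (symSet W Y X n j) := by
      intro a ha
      rw [spanCycles] at ha
      induction ha using Submodule.span_induction with
      | mem x hx =>
        obtain ⟨r, hr, w, hw, rfl⟩ := hx
        obtain rfl : r = j := by exact_mod_cast hr
        exact Submodule.subset_span ⟨w, hw, (sy_apply _ _).symm⟩
      | zero => rw [map_zero]; exact Submodule.zero_mem _
      | add x y _ _ h1 h2 => rw [map_add]; exact Submodule.add_mem _ h1 h2
      | smul t x _ h1 => rw [map_smul]; exact Submodule.smul_mem _ _ h1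
    exact h4 c h1

lemma symDim_eq (W : WeilCohomology.{u, v} ops) (Y X : 𝒱.Obj) (n j : ℕ) :
    symDim W Y X n j = finrank W.K (Cs (algSys W) Y X n j) := by
  rw [symDim, dimOf, Set.finrank, span_eq_Cs]

/-- The values of the intersection form on the cycles of complementary codimension. -/
noncomputable def Psi (W : WeilCohomology.{u, v} ops) (Z : 𝒱.Obj) (j : ℕ) : W.H Z →ₗ[W.K]
    ({w : Z.Cycles // ∃ l, j + l = Z.dim ∧ Z.IsCyc l w} → W.K) :=
  LinearMap.pi fun w => W.tr Z ∘ₗ LinearMap.mulRight W.K (W.cl Z w.1)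

lemma Psi_apply (j : ℕ) (a : W.H Z) (w : {w : Z.Cycles // ∃ l, j + l = Z.dim ∧ Z.IsCyc l w}) :
    Psi W Z j a w = W.tr Z (a * W.cl Z w.1) := rfl

lemma mem_Num_iff {j : ℕ} {a : W.H Z} (ha : a ∈ (algSys W).C Z) (haj : a ∈ W.gr Z (2 * j)) :
    a ∈ (algSys W).Num Z ↔ Psi W Z j a = 0 := by
  constructor
  · intro h
    funext w
    obtain ⟨l, _, hw⟩ := w.2
    rw [Psi_apply]
    exact h.2 _ (Pool.Agent.Y129.span_le_algSpan l (mem_span_cl hw))
  · intro h
    refine ⟨ha, fun d hd => ?_⟩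
    refine Pool.Agent.W536.RR.algSpan_induction (p := fun d => W.tr Z (a * d) = 0) ?_ ?_ ?_ ?_ hd
    · rw [mul_zero, map_zero]
    · intro a b ha hb; rw [mul_add, map_add, ha, hb, add_zero]
    · intro t a ha; rw [mul_smul_comm, map_smul, ha, smul_zero]
    · intro l w hw
      by_cases hl : j + l = Z.dim
      · exact congrFun h ⟨w, l, hl, hw⟩
      · exact W.tr_eq_zero (W.mul_mem haj (W.cl_mem hw)) (by omega)

lemma symRank_eq (W : WeilCohomology.{u, v} ops) (Y X : 𝒱.Obj) (n j : ℕ) :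
    symRank ops Y X n j = rs (algSys W) Y X n j := by
  set Z := yp Y X n with hZ
  -- the values
  have hval : ∀ (z : {z : Z.Cycles // Z.IsCyc j z})
      (w : {w : Z.Cycles // ∃ l, j + l = Z.dim ∧ Z.IsCyc l w}),
      (symInter ops Y X n j z w : W.K) = Psi W Z j (sy W Y X n (W.cl Z z.1)) w := by
    intro z w
    obtain ⟨l, hl, hw⟩ := w.2
    rw [symInter, Psi_apply, sy_apply, Finset.sum_mul, map_sum, Rat.cast_sum]
    refine Finset.sum_congr rfl fun σ _ => ?_
    rw [← W.cl_pull]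
    exact (tr_mul_cl (ops.pull_mem _ z.2) hw hl).symm
  have hspan : Submodule.span W.K (Set.range fun (z : {z : Z.Cycles // Z.IsCyc j z})
      (w : {w : Z.Cycles // ∃ l, j + l = Z.dim ∧ Z.IsCyc l w}) =>
        (symInter ops Y X n j z w : W.K)) = (Cs (algSys W) Y X n j).map (Psi W Z j) := by
    rw [← span_eq_Cs, Submodule.map_span]
    congr 1
    ext F
    constructor
    · rintro ⟨z, rfl⟩
      refine ⟨_, ⟨z.1, z.2, rfl⟩, ?_⟩
      funext w
      rw [symCl, ← sy_apply]
      exact (hval z w).symm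
    · rintro ⟨_, ⟨z, hz, rfl⟩, rfl⟩
      refine ⟨⟨z, hz⟩, ?_⟩
      funext w
      rw [symCl, ← sy_apply]
      exact hval ⟨z, hz⟩ w
  have hfin : Module.Finite W.K (Submodule.span W.K (Set.range
      fun (z : {z : Z.Cycles // Z.IsCyc j z})
        (w : {w : Z.Cycles // ∃ l, j + l = Z.dim ∧ Z.IsCyc l w}) =>
        (symInter ops Y X n j z w : W.K))) := by
    rw [hspan]
    infer_instance
  rw [symRank, ratRank, rank_ext (K := W.K) (symInter ops Y X n j), hspan, rs]
  have h1 := LinearMap.finrank_range_add_finrank_ker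
    ((Psi W Z j).domRestrict (Cs (algSys W) Y X n j))
  rw [LinearMap.range_domRestrict] at h1
  have h2 : Module.finrank W.K
      (LinearMap.ker ((Psi W Z j).domRestrict (Cs (algSys W) Y X n j))) =
      Module.finrank W.K (Cs (algSys W) Y X n j ⊓ (algSys W).Num (yp Y X n) :
        Submodule W.K (W.H (yp Y X n))) := by
    have h3 : (LinearMap.ker ((Psi W Z j).domRestrict (Cs (algSys W) Y X n j))).map
        (Cs (algSys W) Y X n j).subtype =
          Cs (algSys W) Y X n j ⊓ (algSys W).Num (yp Y X n) := by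
      ext x
      constructor
      · rintro ⟨⟨c, hc⟩, hc', rfl⟩
        refine ⟨hc, ?_⟩
        rw [SetLike.mem_coe, LinearMap.mem_ker, LinearMap.domRestrict_apply] at hc'
        exact (mem_Num_iff hc.1 hc.2.1).2 hc'
      · rintro ⟨hx, hx'⟩
        refine ⟨⟨x, hx⟩, ?_, rfl⟩
        rw [SetLike.mem_coe, LinearMap.mem_ker, LinearMap.domRestrict_apply]
        exact (mem_Num_iff hx.1 hx.2.1).1 hx'
    rw [← h3]
    exact (Submodule.equivMapOfInjective _ (Submodule.subtype_injective _) _).finrank_eq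
  rw [h2] at h1
  exact Nat.eq_sub_of_add_eq h1

/-- **The law for symmetric cycles.** -/
theorem sym_law (W : WeilCohomology.{u, v} ops) {X : 𝒱.Obj} {c : ℕ} {z : X.Cycles}
    (hz : X.IsCyc c z)
    (hnum : ∀ l w, c + l = X.dim → X.IsCyc l w → X.V.degCycle (ops.mul z w) = 0)
    (hcl : W.cl X z ≠ 0) (Y : 𝒱.Obj) (n j : ℕ) :
    ∑ i ∈ (Finset.range (n + 1)).filter (fun i => i * c ≤ j), symRank ops Y X (n - i) (j - i * c) ≤
      symDim W Y X n j := by
  have h1 : W.cl X z ∈ (algSys W).C X := Pool.Agent.Y129.span_le_algSpan c (mem_span_cl hz)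
  have h2 : W.cl X z ∈ (algSys W).Num X := by
    rw [mem_Num_iff h1 (W.cl_mem hz)]
    funext w
    obtain ⟨l, hl, hw⟩ := w.2
    rw [Psi_apply, tr_mul_cl hz hw hl, hnum l w.1 hl hw, Rat.cast_zero]
    rfl
  rw [symDim_eq]
  simp only [symRank_eq W]
  exact sum_rs_le h2 hcl (W.cl_mem hz) Y n j

end Pool.Agent.X208.SP
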