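import Pool.Agent.W534.PoleA

/-!
# The insertion operator on functions on words, and ranks of rational matrices
-/

namespace Pool.Agent.X208.SP

section Words

variable {K : Type*} [Field K] [CharZero K] {ι : Type*} [DecidableEq ι]

/-- The sum over all places of the insertions of the letter `o`, on functions on words. -/
def T (o : ι) {n : ℕ} (φ : (Fin n → ι) → K) (y : Fin (n + 1) → ι) : K :=
  ∑ i : Fin (n + 1), if y i = o then φ (fun j => y (i.succAbove j)) else 0

omit [CharZero K] in
lemma T_zero (o : ι) {n : ℕ} : T o (0 : (Fin n → ι) → K) = 0 := by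
  funext y
  simp [T]

omit [CharZero K] in
lemma T_cons (o : ι) {n : ℕ} (φ : (Fin (n + 1) → ι) → K) (u : Fin (n + 1) → ι) :
    T o φ (Fin.cons (α := fun _ => ι) o u) =
      φ u + T o (fun v : Fin n → ι => φ (Fin.cons (α := fun _ => ι) o v)) u := by
  rw [T, Fin.sum_univ_succ, T]
  have e0 : (if (Fin.cons (α := fun _ => ι) o u : Fin (n + 1 + 1) → ι) 0 = o then
      φ (fun j => (Fin.cons (α := fun _ => ι) o u : Fin (n + 1 + 1) → ι)
        ((0 : Fin (n + 1 + 1)).succAbove j)) else 0) = φ u := by
    rw [if_pos (Fin.cons_zero _ _)]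
    congr 1
  rw [e0]
  congr 1
  apply Finset.sum_congr rfl
  intro i _
  have e1 : (Fin.cons (α := fun _ => ι) o u : Fin (n + 1 + 1) → ι) i.succ = u i := Fin.cons_succ _ _ _
  rw [e1]
  have e2 : (fun j => (Fin.cons (α := fun _ => ι) o u : Fin (n + 1 + 1) → ι) (i.succ.succAbove j)) =
      Fin.cons (α := fun _ => ι) o (fun j => u (i.succAbove j)) := by
    funext j
    refine Fin.cases ?_ (fun j => ?_) j
    · rw [Fin.succ_succAbove_zero, Fin.cons_zero, Fin.cons_zero]
    · rw [Fin.succ_succAbove_succ, Fin.cons_succ, Fin.cons_succ]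
  rw [e2]

omit [CharZero K] in
lemma T_cons_zero (o : ι) (φ : (Fin 0 → ι) → K) (u : Fin 0 → ι) :
    T o φ (Fin.cons (α := fun _ => ι) o u) = φ u := by
  rw [T, Fin.sum_univ_succ]
  simp

lemma T_aux (o : ι) : ∀ (n k : ℕ) (φ : (Fin (n + 1) → ι) → K),
    (∀ u, ((k : K) + 1) * φ u +
      T o (fun v : Fin n → ι => φ (Fin.cons (α := fun _ => ι) o v)) u = 0) → φ = 0
  | 0, k, φ, h => by
    have hk : (k : K) + 1 ≠ 0 := by exact_mod_cast Nat.succ_ne_zero k
    have hk2 : (k : K) + 2 ≠ 0 := by
      have := (Nat.cast_ne_zero (R := K)).2 (Nat.succ_ne_zero (k + 1))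
      push_cast at this
      rwa [add_assoc, one_add_one_eq_two] at this
    have h1 : (fun v : Fin 0 → ι => φ (Fin.cons (α := fun _ => ι) o v)) = 0 := by
      funext v
      have h2 := h (Fin.cons (α := fun _ => ι) o v)
      rw [T_cons_zero] at h2
      have h3 : ((k : K) + 2) * φ (Fin.cons (α := fun _ => ι) o v) = 0 := by
        rw [← h2]; ring
      exact (mul_eq_zero.1 h3).resolve_left hk2
    funext u
    have h2 := h u
    rw [h1, T_zero, Pi.zero_apply, add_zero] at h2
    exact (mul_eq_zero.1 h2).resolve_left hk
  | n + 1, k, φ, h => by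
    have hk : (k : K) + 1 ≠ 0 := by exact_mod_cast Nat.succ_ne_zero k
    have h1 : (fun v : Fin (n + 1) → ι => φ (Fin.cons (α := fun _ => ι) o v)) = 0 := by
      apply T_aux o n (k + 1)
      intro u
      have h2 := h (Fin.cons (α := fun _ => ι) o u)
      rw [T_cons] at h2
      rw [← h2]
      push_cast
      ring
    funext u
    have h2 := h u
    rw [h1, T_zero, Pi.zero_apply, add_zero] at h2
    exact (mul_eq_zero.1 h2).resolve_left hk

/-- The insertion operator is injective. -/
lemma T_injective (o : ι) : ∀ (n : ℕ) (φ : (Fin n → ι) → K), T o φ = 0 → φ = 0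
  | 0, φ, h => by
    funext u
    have h1 := congrFun h (Fin.cons (α := fun _ => ι) o u)
    rwa [T_cons_zero] at h1
  | n + 1, φ, h => by
    apply T_aux o n 0
    intro u
    have h1 := congrFun h (Fin.cons (α := fun _ => ι) o u)
    rw [T_cons] at h1
    rw [Nat.cast_zero, zero_add, one_mul]
    exact h1

end Words

section Rank

variable {K : Type*} [Field K] [CharZero K]

/-- The rank of a rational matrix does not change under field extensions. -/
lemma rank_ext {A B : Type*} (F : A → B → ℚ)
    [Module.Finite K (Submodule.span K (Set.range fun x (y : B) => (F x y : K)))] :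
    Module.finrank ℚ (Submodule.span ℚ (Set.range F)) =
      Module.finrank K (Submodule.span K (Set.range fun x (y : B) => (F x y : K))) := by
  classical
  let j : (B → ℚ) → (B → K) := fun f y => (f y : K)
  obtain ⟨b, hb, hspan, hlin⟩ := exists_linearIndependent ℚ (Set.range F)
  have hlinK : LinearIndependent K (fun x : b => j x) := by
    rw [linearIndependent_iff']
    intro s g hg i hi
    have h1 : LinearIndependent ℚ (fun x : s => ((x : b) : B → ℚ)) :=
      hlin.comp (fun x : s => (x : b)) Subtype.val_injective
    have h2 := Pool.Agent.W534.lin_ext (K := K) h1 (c := fun x : s => g x) (fun w => by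
      have h3 := congrFun hg w
      rw [Finset.sum_apply, Pi.zero_apply] at h3
      rw [← h3]
      exact (Finset.sum_coe_sort s fun x : b => g x * (((x : B → ℚ) w : ℚ) : K)))
    exact congrFun h2 ⟨i, hi⟩
  have hsp : Submodule.span K (Set.range fun x : b => j x) =
      Submodule.span K (Set.range fun x (y : B) => (F x y : K)) := by
    apply le_antisymm
    · rw [Submodule.span_le]
      rintro _ ⟨x, rfl⟩
      obtain ⟨a, ha⟩ := hb x.2
      apply Submodule.subset_span
      refine ⟨a, ?_⟩
      change (fun y => (F a y : K)) = fun y => (((x : B → ℚ) y : ℚ) : K)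
      rw [← ha]
    · rw [Submodule.span_le]
      rintro _ ⟨a, rfl⟩
      have h1 : F a ∈ Submodule.span ℚ b := by
        rw [hspan]; exact Submodule.subset_span ⟨a, rfl⟩
      have h2 : ∀ f ∈ Submodule.span ℚ b, j f ∈ Submodule.span K (Set.range fun x : b => j x) := by
        intro f hf
        induction hf using Submodule.span_induction with
        | mem x hx => exact Submodule.subset_span ⟨⟨x, hx⟩, rfl⟩
        | zero =>
          have : j 0 = 0 := by funext y; simp [j]
          rw [this]; exact Submodule.zero_mem _
        | add x y _ _ h1 h2 =>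
          have : j (x + y) = j x + j y := by funext z; simp [j]
          rw [this]; exact Submodule.add_mem _ h1 h2
        | smul q x _ h1 =>
          have : j (q • x) = (q : K) • j x := by funext z; simp [j]
          rw [this]; exact Submodule.smul_mem _ _ h1
      exact h2 _ h1
  have hfin : Finite b := by
    have hlin' : LinearIndependent K (fun x : b =>
        (⟨j x, by rw [← hsp]; exact Submodule.subset_span ⟨x, rfl⟩⟩ :
          Submodule.span K (Set.range fun x (y : B) => (F x y : K)))) := by
      apply LinearIndependent.of_comp (Submodule.subtype _)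
      exact hlinK
    exact hlin'.finite
  have : Fintype b := Fintype.ofFinite b
  rw [← hsp, finrank_span_eq_card hlinK, ← hspan, finrank_span_set_eq_card hlin,
    Set.toFinset_card]

end Rank

end Pool.Agent.X208.SP
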