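import Pool.Agent.Y133.Half.Growth

/-!
# The varieties `Y × X ^ n` and their permutations
-/

open CategoryTheory AlgebraicGeometry

universe u v

namespace Pool.Agent.X208.SP

open Pool.Agent.H914 Pool.Agent.H914.VarClass Pool.Agent.H914.VarClass.Obj
  Pool.Agent.H914.WeilCohomology Pool.Agent.Y133.Half

variable {k : Type u} [Field k] {𝒱 : VarClass k}

/-- The variety `Y × X ^ n`. -/
noncomputable def yp (Y X : 𝒱.Obj) : ℕ → 𝒱.Obj
  | 0 => Y
  | n + 1 => Y.prod (pw X n)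

/-- The projection of `Y × X ^ n` to `Y`. -/
noncomputable def pY (Y X : 𝒱.Obj) : ∀ n, yp Y X n ⟶ Y
  | 0 => 𝟙 Y
  | n + 1 => fst Y (pw X n)

/-- The projection of `Y × X ^ n` to the factor `X` with the index `i`. -/
noncomputable def pX (Y X : 𝒱.Obj) : ∀ n, Fin n → (yp Y X n ⟶ X)
  | 0, i => i.elim0
  | n + 1, i => snd Y (pw X n) ≫ prj X n i

/-- The morphism to `Y × X ^ n` with given components. -/
noncomputable def ylift (Y X : 𝒱.Obj) {Z : 𝒱.Obj} : ∀ n, (Z ⟶ Y) → (Fin n → (Z ⟶ X)) → (Z ⟶ yp Y X n)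
  | 0, f, _ => f
  | n + 1, f, g => Obj.lift f (liftN X n g)

/-- The permutation of the factors `X` of `Y × X ^ n`. -/
noncomputable def perm (Y X : 𝒱.Obj) (n : ℕ) (σ : Equiv.Perm (Fin n)) : yp Y X n ⟶ yp Y X n :=
  ylift Y X n (pY Y X n) (fun i => pX Y X n (σ i))

end Pool.Agent.X208.SP
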