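import Pool.Agent.X208.SP.AMain
import Pool.Agent.X310.OneTh

/-!
# Conjecture D for the square in one codimension and the inverse Lefschetz operator in one degree
-/

open CategoryTheory AlgebraicGeometry

universe u₁ v₁ u v

namespace Pool.Agent.X208.SP

open Module
open Pool.Agent.H914 Pool.Agent.H914.VarClass Pool.Agent.H914.VarClass.Obj
  Pool.Agent.H914.WeilCohomology Pool.Agent.Y133.Half Pool.Agent.Y133.Half.Sys
  Pool.Agent.X208.SQ Pool.Agent.H447

variable {k : Type u} [Field k] {𝒱 : VarClass k} {ops : CycleOps 𝒱}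
  {W : WeilCohomology.{u, v} ops} {X Y Z : 𝒱.Obj}

/-- The supertrace. -/
noncomputable def st (W : WeilCohomology.{u, v} ops) (X : 𝒱.Obj) (u : Module.End W.K (W.H X)) :
    W.K := LinearMap.trace W.K (W.H X) (par (W.isInternal X) * u)

lemma st_comm {u w : Module.End W.K (W.H X)} (hw : Ev W w) : st W X (u * w) = st W X (w * u) := by
  rw [st, st, ← mul_assoc, LinearMap.trace_mul_comm, ← mul_assoc]
  have h1 : par (W.isInternal X) * w = w * par (W.isInternal X) := hw.par_comm
  rw [← h1, mul_assoc]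

lemma st_nil {u : Module.End W.K (W.H X)} (hu : Ev W u) (h : IsNilpotent u) : st W X u = 0 := by
  have h1 : Commute (par (W.isInternal X)) u := hu.par_comm
  have h2 : IsNilpotent (par (W.isInternal X) * u) := h1.isNilpotent_mul_left h
  exact (LinearMap.isNilpotent_trace_of_isNilpotent h2).eq_zero

lemma st_corr (c d : W.H (X.prod X)) : st W X (W.corr c * W.corr d) =
    W.tr (X.prod X) (c * W.map (swap X X) d) := trace_corr_corr c d

lemma ev_of_span {p : ℤ} {c : W.H (X.prod X)} (hc : c ∈ spanCycles W (X.prod X) p) :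
    Ev W (W.corr c) := by
  apply Ev.corr
  rw [spanCycles] at hc
  induction hc using Submodule.span_induction with
  | mem x hx =>
    obtain ⟨q, _, z, hz, rfl⟩ := hx
    exact PH.of' (by omega) (W.cl_mem hz)
  | zero => exact Submodule.zero_mem _
  | add x y _ _ hx hy => exact Submodule.add_mem _ hx hy
  | smul r x _ hx => exact Submodule.smul_mem _ _ hx

/-- If there are no numerically trivial classes of codimension `dim X + m` on `X × X` then every
operator `L` of degree `2 m` has a quasi-inverse of the opposite degree: `L x L = L`. -/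
theorem exists_quasi_inverse {m : ℕ} (hm : m ≤ X.dim)
    (h0 : ∀ z ∈ (algSys W).Num (X.prod X), z ∈ W.gr (X.prod X) (2 * (X.dim + m)) → z = 0)
    {L : Module.End W.K (W.H X)} (hL : L ∈ KOp W X X (m : ℤ)) :
    ∃ x ∈ KOp W X X (-(m : ℤ)), L * x * L = L := by
  have hOA := (rop_opAlg (W := W) (X := X)).kspan
  have e1 : (X.dim : ℤ) + (m : ℤ) = ((X.dim + m : ℕ) : ℤ) := by push_cast; rfl
  have e2 : (X.dim : ℤ) + -(m : ℤ) = ((X.dim - m : ℕ) : ℤ) := by omega
  -- the products `L s L`
  have hprod : ∀ s ∈ KOp W X X (-(m : ℤ)), L * s * L ∈ KOp W X X (m : ℤ) := by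
    intro s hs
    rw [← mem_KS_iff] at hs hL ⊢
    exact hOA.cast (hOA.mul (hOA.mul hL hs) hL) (by ring)
  let P : Submodule W.K (Module.End W.K (W.H X)) :=
    (KOp W X X (-(m : ℤ))).map (LinearMap.mulLeft W.K L ∘ₗ LinearMap.mulRight W.K L)
  have hgoal : L ∈ P → ∃ x ∈ KOp W X X (-(m : ℤ)), L * x * L = L := by
    rintro ⟨x, hx, hxL⟩
    refine ⟨x, hx, ?_⟩
    rw [LinearMap.comp_apply, LinearMap.mulRight_apply, LinearMap.mulLeft_apply] at hxL
    rw [mul_assoc]
    exact hxL
  apply hgoal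
  by_contra hcon
  obtain ⟨f, hf1, hf2⟩ := Submodule.exists_le_ker_of_notMem hcon
  -- the functional is given by an operator
  obtain ⟨w, hw, hwf⟩ := exists_rep_of_orth (bil W (X.prod X))
    (spanCycles W (X.prod X) ((X.dim - m : ℕ) : ℤ)) (spanCycles W (X.prod X) ((X.dim + m : ℕ) : ℤ))
    (f ∘ₗ corrLin W X X) (by
      intro γ hγ horth
      have h1 : γ ∈ Cg (algSys W) (X.prod X) (X.dim + m) := by rw [Cg_alg]; exact hγ
      have h2 : γ = 0 := by
        refine h0 γ (mem_Num_of_compl homog_alg (c := X.dim + m) (c' := X.dim - m)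
          (by rw [dim_prod]; omega) h1.1 h1.2 fun s hs => ?_) h1.2
        rw [Cg_alg] at hs
        have h3 := horth s hs
        rw [bil_apply] at h3
        rw [W.even_comm h1.2]
        exact h3
      rw [h2, map_zero])
  set a := W.corr (W.map (swap X X) w) with ha
  have hsw : W.map (swap X X) w ∈ spanCycles W (X.prod X) ((X.dim - m : ℕ) : ℤ) := swap_span hw
  have haK : a ∈ KOp W X X (-(m : ℤ)) := by
    rw [mem_KOp_iff, e2]
    exact ⟨_, hsw, rfl⟩
  have haE : Ev W a := ev_of_span hsw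
  have hval : ∀ T ∈ KOp W X X (m : ℤ), f T = st W X (T * a) := by
    intro T hT
    rw [mem_KOp_iff, e1] at hT
    obtain ⟨γ, hγ, rfl⟩ := hT
    have h1 := hwf γ hγ
    rw [bil_apply] at h1
    rw [st_corr, swap_swap]
    have h2 : γ ∈ W.gr (X.prod X) (2 * (X.dim + m)) := H447.span_gr hγ
    rw [W.even_comm h2]
    exact h1.symm
  have hLE : Ev W L := by
    have h1 := hL
    rw [mem_KOp_iff] at h1
    obtain ⟨γ, hγ, h2⟩ := h1
    rw [← h2]
    exact ev_of_span hγ
  -- `L a L = 0`
  have hzero : L * a * L = 0 := by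
    have h1 := hprod a haK
    rw [mem_KOp_iff, e1] at h1
    obtain ⟨γ, hγ, hγL⟩ := h1
    rw [← hγL]
    have h2 : γ ∈ Cg (algSys W) (X.prod X) (X.dim + m) := by rw [Cg_alg]; exact hγ
    have h3 : γ = 0 := by
      refine h0 γ (mem_Num_of_compl homog_alg (c := X.dim + m) (c' := X.dim - m)
        (by rw [dim_prod]; omega) h2.1 h2.2 fun s hs => ?_) h2.2
      rw [Cg_alg] at hs
      have hs' : W.map (swap X X) s ∈ spanCycles W (X.prod X) ((X.dim - m : ℕ) : ℤ) :=
        swap_span hs
      have h4 : W.corr (W.map (swap X X) s) ∈ KOp W X X (-(m : ℤ)) := by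
        rw [mem_KOp_iff, e2]
        exact ⟨_, hs', rfl⟩
      have h5 := st_corr γ (W.map (swap X X) s)
      rw [swap_swap, hγL] at h5
      rw [← h5]
      set s' := W.corr (W.map (swap X X) s) with hs'
      have h6 : f (L * s' * L) = 0 := by
        apply hf2
        exact ⟨s', h4, by
          rw [LinearMap.comp_apply, LinearMap.mulRight_apply, LinearMap.mulLeft_apply, mul_assoc]⟩
      rw [hval _ (hprod s' h4)] at h6
      -- cyclicity
      have h7 : st W X (L * s' * L * a) = st W X (L * a * L * s') := by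
        have e3 : L * s' * L * a = (L * s') * (L * a) := by simp only [mul_assoc]
        have e4 : L * a * L * s' = (L * a) * (L * s') := by simp only [mul_assoc]
        rw [e3, e4]
        apply st_comm
        exact Ev.comp hLE haE
      rw [h7] at h6
      exact h6
    rw [h3, corr_zero]
  apply hf1
  rw [hval L hL]
  apply st_nil (Ev.comp hLE haE)
  refine ⟨2, ?_⟩
  rw [pow_two]
  have e5 : L * a * (L * a) = L * a * L * a := by simp only [mul_assoc]
  change L * a * (L * a) = 0
  rw [e5, hzero, zero_mul]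

open Pool.Agent.W537 Pool.Agent.Y106.One Pool.Agent.X310

/-- Conjecture D for the square in the codimension `2 dim X - i` gives the inverse of the Lefschetz
operator in the degree `i`. -/
theorem orbits_of_no_num {D : X.Cycles} (hD : X.IsCyc 1 D) {i : ℕ} (hi : i ≤ X.dim)
    (hinj : InjectsOn (W.gr X i) (lefPow W X D (X.dim - i)))
    (h0 : ∀ z ∈ (algSys W).Num (X.prod X), z ∈ W.gr (X.prod X) (2 * (2 * X.dim - i)) → z = 0) :
    LiesInOrbits W X D i := by
  have hOA := rop_opAlg (W := W) (X := X)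
  obtain ⟨m, hm⟩ : ∃ m, X.dim = i + m := ⟨X.dim - i, by omega⟩
  have hmi : X.dim - i = m := by omega
  rw [hmi] at hinj
  have hL : ROp W X m (LL D W ^ m) := by
    obtain ⟨Y, hY, hYW⟩ := LL_rop (W := W) hD
    exact ⟨_, (hY.pow m).cast (by ring), by rw [hYW]⟩
  have hLK : LL D W ^ m ∈ KOp W X X (m : ℤ) := mem_KS_iff.1 (Submodule.subset_span hL)
  obtain ⟨x, hx, hxL⟩ := exists_quasi_inverse (by omega)
    (by rwa [show X.dim + m = 2 * X.dim - i by omega]) hLK
  have hx' := mem_KOp_iff.1 hx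
  obtain ⟨γ, hγ, rfl⟩ := hx'
  intro a ha
  refine ⟨γ, ?_, ?_⟩
  · rwa [show (X.dim : ℤ) + -(m : ℤ) = (i : ℤ) by omega] at hγ
  · rw [corrLef, hmi, LinearMap.comp_apply]
    have hLL : (LL D W ^ m : Module.End W.K (W.H X)) = lefPow W X D m := by
      rw [lefPow, ← LinearMap.pow_mulLeft]
    rw [← sub_eq_zero]
    apply hinj
    · apply Submodule.sub_mem _ _ ha
      have h1 : (W.corr γ * LL D W ^ m : Module.End W.K (W.H X)) ∈ KS (ROp W X) 0 :=
        hOA.kspan.cast (hOA.kspan.mul (mem_KS_iff.2 hx) (mem_KS_iff.2 hLK)) (by ring)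
      have h2 := hOA.kspan.hom h1 i a (by rw [grZ_natCast]; exact ha)
      rw [mul_zero, add_zero, grZ_natCast, Module.End.mul_apply, hLL] at h2
      exact h2
    · rw [map_sub, sub_eq_zero]
      have h3 := congrArg (fun F : Module.End W.K (W.H X) => F a) hxL
      simp only [Module.End.mul_apply, hLL] at h3
      exact h3

variable {k₀ : Type u₁} [Field k₀] {𝒱₀ : VarClass k₀}

/-- **One cycle for all primes, or the law for every prime.** -/
theorem deg_law {i : ℕ} (hi : i ≤ X.dim) (ops₀ : CycleOps 𝒱₀) (R : Reduction X 𝒱₀)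
    {D : X.Cycles} (hD : X.IsCyc 1 D) (W : WeilCohomology.{u, v} ops)
    (hW : Reduction.Pure.{u₁, v₁} R ops₀ W)
    (hinj : InjectsOn (W.gr X i) (lefPow W X D (X.dim - i))) :
    (OneCycleForAll.{u, v} (ops := ops) (Reduction.Pure.{u₁, v₁} R ops₀) X D i ∨
      ∀ (Y : 𝒱.Obj) (n j : ℕ),
        ∑ l ∈ (Finset.range (n + 1)).filter (fun l => l * (2 * X.dim - i) ≤ j),
          symRank ops Y (X.prod X) (n - l) (j - l * (2 * X.dim - i)) ≤
            symDim W Y (X.prod X) n j) ∧
    ((∃ Y : 𝒱.Obj, (1 : W.H Y) ≠ 0 ∧ PosProp W Y (X.prod X)) →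
      OneCycleForAll.{u, v} (ops := ops) (Reduction.Pure.{u₁, v₁} R ops₀) X D i) := by
  have key : (∀ z ∈ (algSys W).Num (X.prod X), z ∈ W.gr (X.prod X) (2 * (2 * X.dim - i)) →
      z = 0) → OneCycleForAll.{u, v} (ops := ops) (Reduction.Pure.{u₁, v₁} R ops₀) X D i := by
    intro h0
    exact oneCycle_of_one R hi ⟨W, D, hW, hD, injectsLefschetz_of_orbits W hD hi
      (orbits_of_no_num hD hi hinj h0)⟩ hD ⟨W, hW, hinj⟩
  constructor
  · by_cases h : ∀ z ∈ (algSys W).Num (X.prod X),
        z ∈ W.gr (X.prod X) (2 * (2 * X.dim - i)) → z = 0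
    · exact Or.inl (key h)
    · right
      push Not at h
      obtain ⟨z, hz, hzc, hz0⟩ := h
      intro Y n j
      exact law_alg W hz hz0 hzc Y n j
  · rintro ⟨Y, hY, h⟩
    exact key fun z hz hzc => no_num_of_posProp hY h hz hzc

end Pool.Agent.X208.SP
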