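import Pool.Agent.X208.SP.Zero

/-!
# Polynomials in a class of even degree with symmetric coefficients
-/

open CategoryTheory AlgebraicGeometry

universe u v

namespace Pool.Agent.X208.SP

open Module
open Pool.Agent.H914 Pool.Agent.H914.VarClass Pool.Agent.H914.VarClass.Obj
  Pool.Agent.H914.WeilCohomology Pool.Agent.Y133.Half Pool.Agent.Y133.Half.Sys
  Pool.Agent.X208.SQ

variable {k : Type u} [Field k] {𝒱 : VarClass k} {ops : CycleOps 𝒱}
  {W : WeilCohomology.{u, v} ops} {X Y Z : 𝒱.Obj}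

lemma TZ_add_left (z u : W.H X) (n : ℕ) (c : W.H (yp Y X n)) :
    TZ W Y (z + u) n c = TZ W Y z n c + TZ W Y u n c := by
  rw [TZ_apply, TZ_apply, TZ_apply, ← Finset.sum_add_distrib]
  exact Finset.sum_congr rfl fun i _ => by rw [map_add, mul_add]

lemma TZ_smul_left (r : W.K) (z : W.H X) (n : ℕ) (c : W.H (yp Y X n)) :
    TZ W Y (r • z) n c = r • TZ W Y z n c := by
  rw [TZ_apply, TZ_apply, Finset.smul_sum]
  exact Finset.sum_congr rfl fun i _ => by rw [map_smul, mul_smul_comm]

lemma TZ_sub_left (z u : W.H X) (n : ℕ) (c : W.H (yp Y X n)) :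
    TZ W Y (z - u) n c = TZ W Y z n c - TZ W Y u n c := by
  rw [eq_sub_iff_add_eq, ← TZ_add_left, sub_add_cancel]

/-- The interchange of two holes. -/
def swapHoles (n : ℕ) (p : Fin (n + 2) × Fin (n + 1)) : Fin (n + 2) × Fin (n + 1) :=
  (p.1.succAbove p.2, p.2.predAbove p.1)

lemma swapHoles_invol (n : ℕ) : Function.Involutive (swapHoles n) := by
  rintro ⟨i, j⟩
  exact Prod.ext (Fin.succAbove_succAbove_predAbove i j) (Fin.predAbove_predAbove_succAbove i j)

/-- The insertions commute. -/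
lemma TZ_comm {z u : W.H X} (hz : z ∈ PH W X 0) (n : ℕ) (c : W.H (yp Y X n)) :
    TZ W Y z (n + 1) (TZ W Y u n c) = TZ W Y u (n + 1) (TZ W Y z n c) := by
  have h1 : ∀ a b : W.H X, TZ W Y a (n + 1) (TZ W Y b n c) =
      ∑ p : Fin (n + 2) × Fin (n + 1), W.map (D Y X (p.1.succAbove ∘ p.2.succAbove)) c *
        W.map (pX Y X (n + 2) (p.1.succAbove p.2)) b * W.map (pX Y X (n + 2) p.1) a := by
    intro a b
    rw [TZ_apply, Fintype.sum_prod_type]
    refine Finset.sum_congr rfl fun i _ => ?_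
    rw [TZ_apply, map_sum, Finset.sum_mul]
    refine Finset.sum_congr rfl fun j _ => ?_
    rw [map_mul, ← W.map_comp, ← W.map_comp, D_comp, D_pX]
  rw [h1, h1, ← Equiv.sum_comp ((swapHoles_invol n).toPerm)]
  refine Finset.sum_congr rfl fun p _ => ?_
  obtain ⟨i, j⟩ := p
  change W.map (D Y X ((i.succAbove j).succAbove ∘ (j.predAbove i).succAbove)) c *
    W.map (pX Y X (n + 2) ((i.succAbove j).succAbove (j.predAbove i))) u *
      W.map (pX Y X (n + 2) (i.succAbove j)) z = _
  have h2 : (i.succAbove j).succAbove ∘ (j.predAbove i).succAbove =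
      i.succAbove ∘ j.succAbove :=
    funext fun l => Fin.succAbove_succAbove_succAbove_predAbove i j l
  rw [h2, Fin.succAbove_succAbove_predAbove, mul_assoc, mul_assoc,
    PH.even_comm (PH.map _ hz)]

/-- The value of the polynomial `∑ m, z ^ (n - m) a m`. -/
noncomputable def Ev (z : W.H X) (a : ∀ n, W.H (yp Y X n)) : ∀ n, W.H (yp Y X n)
  | 0 => a 0
  | n + 1 => a (n + 1) + TZ W Y z n (Ev z a n)

lemma Ev_succ (z : W.H X) (a : ∀ n, W.H (yp Y X n)) (n : ℕ) :
    Ev z a (n + 1) = a (n + 1) + TZ W Y z n (Ev z a n) := rfl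

/-- The difference of two values. -/
lemma Ev_sub {z w : W.H X} (hz : z ∈ PH W X 0) (a : ∀ n, W.H (yp Y X n)) :
    ∀ n, Ev z a (n + 1) - Ev w a (n + 1) = TZ W Y (z - w) n (Ev z (Ev w a) n)
  | 0 => by
    rw [TZ_sub_left, Ev_succ, Ev_succ]
    change a 1 + TZ W Y z 0 (a 0) - (a 1 + TZ W Y w 0 (a 0)) =
      TZ W Y z 0 (a 0) - TZ W Y w 0 (a 0)
    abel
  | n + 1 => by
    have ih := Ev_sub (w := w) hz a n
    have h1 : Ev z a (n + 1) = Ev w a (n + 1) + TZ W Y (z - w) n (Ev z (Ev w a) n) := by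
      rw [← ih]; abel
    rw [Ev_succ z a (n + 1), Ev_succ w a (n + 1), Ev_succ z (Ev w a) n, h1, map_add, map_add,
      TZ_comm hz, TZ_sub_left z w (n + 1) (Ev w a (n + 1))]
    abel

/-- **A polynomial with infinitely many roots is zero.** -/
theorem Ev_infinite : ∀ (n : ℕ) (a : ∀ n, W.H (yp Y X n)) (s : Set (W.H X)), s.Infinite →
    (∀ z ∈ s, z ∈ PH W X 0) → (∀ z ∈ s, Ev z a n = 0) → ∀ m ≤ n, a m = 0
  | 0, a, s, hs, _, h => by
    intro m hm
    obtain rfl : m = 0 := by omega
    obtain ⟨z, hz⟩ := hs.nonempty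
    exact h z hz
  | n + 1, a, s, hs, hp, h => by
    obtain ⟨w, hw⟩ := hs.nonempty
    have h1 : ∀ z ∈ s \ {w}, Ev z (Ev w a) n = 0 := by
      rintro z ⟨hz, hzw⟩
      have h2 := Ev_sub (w := w) (hp z hz) a n
      rw [h z hz, h w hw, sub_self] at h2
      exact TZ_injective (Submodule.sub_mem _ (hp z hz) (hp w hw))
        (sub_ne_zero.2 hzw) n (by rw [← h2, map_zero])
    have h2 := Ev_infinite n (Ev w a) (s \ {w}) (hs.sdiff (Set.finite_singleton w))
      (fun z hz => hp z hz.1) h1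
    intro m hm
    rcases m with _ | m
    · exact h2 0 (by omega)
    · have h3 : Ev w a (m + 1) = 0 := by
        rcases Nat.lt_or_ge m n with h4 | h4
        · exact h2 (m + 1) (by omega)
        · obtain rfl : m = n := by omega
          exact h w hw
      rw [Ev_succ, h2 m (by omega), map_zero, add_zero] at h3
      exact h3

lemma Ev_add (z : W.H X) (a b : ∀ n, W.H (yp Y X n)) :
    ∀ n, Ev z (fun m => a m + b m) n = Ev z a n + Ev z b n
  | 0 => rfl
  | n + 1 => by
    rw [Ev_succ, Ev_succ, Ev_succ, Ev_add z a b n, map_add]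
    abel

lemma Ev_smul (z : W.H X) (r : W.K) (a : ∀ n, W.H (yp Y X n)) :
    ∀ n, Ev z (fun m => r • a m) n = r • Ev z a n
  | 0 => rfl
  | n + 1 => by
    rw [Ev_succ, Ev_succ, Ev_smul z r a n, map_smul, smul_add]

/-- The family of vectors which is zero above `n`. -/
noncomputable def ext0 (M : ∀ n, Submodule W.K (W.H (yp Y X n))) (n : ℕ)
    (f : ∀ m : Fin (n + 1), M m) : ∀ m, W.H (yp Y X m) :=
  fun m => if h : m < n + 1 then (f ⟨m, h⟩ : W.H (yp Y X m)) else 0

/-- The dimension of a space of polynomials. -/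
theorem free_dim (M : ∀ n, Submodule W.K (W.H (yp Y X n))) (z : W.H X) (n : ℕ)
    (B : Submodule W.K (W.H (yp Y X n)))
    (hB : ∀ a : ∀ m, W.H (yp Y X m), (∀ m, a m ∈ M m) → Ev z a n ∈ B)
    (hfree : ∀ a : ∀ m, W.H (yp Y X m), (∀ m, a m ∈ M m) → Ev z a n = 0 → ∀ m ≤ n, a m = 0) :
    ∑ m ∈ Finset.range (n + 1), finrank W.K (M m) ≤ finrank W.K B := by
  have hmem : ∀ (f : ∀ m : Fin (n + 1), M m) (m : ℕ), ext0 M n f m ∈ M m := by
    intro f m
    rw [ext0]
    split_ifs with h
    · exact (f ⟨m, h⟩).2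
    · exact Submodule.zero_mem _
  have hadd : ∀ (f g : ∀ m : Fin (n + 1), M m), ext0 M n (f + g) =
      fun m => ext0 M n f m + ext0 M n g m := by
    intro f g
    funext m
    rw [ext0, ext0, ext0]
    split_ifs with h
    · rfl
    · rw [add_zero]
  have hsmul : ∀ (r : W.K) (f : ∀ m : Fin (n + 1), M m), ext0 M n (r • f) =
      fun m => r • ext0 M n f m := by
    intro r f
    funext m
    rw [ext0, ext0]
    split_ifs with h
    · rfl
    · rw [smul_zero]
  let F : (∀ m : Fin (n + 1), M m) →ₗ[W.K] B :=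
    { toFun := fun f => ⟨Ev z (ext0 M n f) n, hB _ (hmem f)⟩
      map_add' := fun f g => Subtype.ext (by
        change Ev z (ext0 M n (f + g)) n = Ev z (ext0 M n f) n + Ev z (ext0 M n g) n
        rw [hadd, Ev_add])
      map_smul' := fun r f => Subtype.ext (by
        change Ev z (ext0 M n (r • f)) n = r • Ev z (ext0 M n f) n
        rw [hsmul, Ev_smul]) }
  have hinj : Function.Injective F := by
    rw [injective_iff_map_eq_zero]
    intro f hf
    have h1 := hfree _ (hmem f) (congrArg Subtype.val hf)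
    funext m
    apply Subtype.ext
    have h2 := h1 m (by omega)
    rw [ext0, dif_pos m.2] at h2
    exact h2
  have h1 := LinearMap.finrank_le_finrank_of_injective hinj
  rw [Module.finrank_pi_fintype] at h1
  rw [Finset.sum_range]
  exact h1

/-- The spaces of the coefficients of the polynomials of degree `2 j`. -/
noncomputable def shiftM (N : ∀ n, ℕ → Submodule W.K (W.H (yp Y X n))) (n j c : ℕ) (m : ℕ) :
    Submodule W.K (W.H (yp Y X m)) :=
  if (n - m) * c ≤ j then N m (j - (n - m) * c) else ⊥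

lemma sum_shiftM (N : ∀ n, ℕ → Submodule W.K (W.H (yp Y X n))) (n j c : ℕ) :
    ∑ m ∈ Finset.range (n + 1), finrank W.K (shiftM N n j c m) =
      ∑ i ∈ (Finset.range (n + 1)).filter (fun i => i * c ≤ j),
        finrank W.K (N (n - i) (j - i * c)) := by
  rw [Finset.sum_filter, ← Finset.sum_range_reflect]
  refine Finset.sum_congr rfl fun i hi => ?_
  have h1 : i < n + 1 := Finset.mem_range.1 hi
  have h2 : n + 1 - 1 - i = n - i := by omega
  have h3 : n - (n - i) = i := by omega
  rw [h2, shiftM, h3]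
  by_cases h : i * c ≤ j
  · rw [if_pos h, if_pos h]
  · rw [if_neg h, if_neg h]
    exact finrank_bot _ _

/-- **The law for the classes over which a class is transcendental.** -/
theorem free_law {T : Sys W} {z : W.H X} (hz : z ∈ T.C X) {c : ℕ} (hzc : z ∈ W.gr X (2 * c))
    (N : ∀ n, ℕ → Submodule W.K (W.H (yp Y X n))) (hN : ∀ n j, N n j ≤ Cs T Y X n j) (n j : ℕ)
    (hfree : ∀ a : ∀ m, W.H (yp Y X m), (∀ m, a m ∈ shiftM N n j c m) → Ev z a n = 0 →
      ∀ m ≤ n, a m = 0) :
    ∑ i ∈ (Finset.range (n + 1)).filter (fun i => i * c ≤ j),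
      finrank W.K (N (n - i) (j - i * c)) ≤ finrank W.K (Cs T Y X n j) := by
  rw [← sum_shiftM]
  refine free_dim (shiftM N n j c) z n _ (fun a ha => ?_) hfree
  have h1 : ∀ m ≤ n, Ev z a m ∈ shiftM (fun m l => Cs T Y X m l) n j c m := by
    intro m
    induction m with
    | zero =>
      intro _
      have h2 := ha 0
      rw [shiftM] at h2 ⊢
      change a 0 ∈ _
      split_ifs at h2 ⊢ with h3
      · exact hN _ _ h2
      · exact h2
    | succ m ih =>
      intro hm
      have h2 := ha (m + 1)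
      have h3 := ih (by omega)
      rw [Ev_succ]
      have h4 : (n - m) * c = (n - (m + 1)) * c + c := by
        have h5 : n - m = (n - (m + 1)) + 1 := by omega
        rw [h5, add_mul, one_mul]
      rw [shiftM] at h2 h3 ⊢
      by_cases h5 : (n - m) * c ≤ j
      · rw [if_pos h5] at h3
        rw [if_pos (by omega)] at h2 ⊢
        refine Submodule.add_mem _ (hN _ _ h2) ?_
        have h6 : j - (n - (m + 1)) * c = j - (n - m) * c + c := by omega
        rw [h6]
        refine ⟨?_, ?_, fun σ => TZ_inv z m h3.2.2 σ⟩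
        · rw [TZ_apply]
          exact Submodule.sum_mem _ fun i _ => T.mul (T.map _ h3.1) (T.map _ hz)
        · rw [TZ_apply, mul_add]
          exact Submodule.sum_mem _ fun i _ => W.mul_mem (W.map_mem _ h3.2.1) (W.map_mem _ hzc)
      · rw [if_neg h5, Submodule.mem_bot] at h3
        rw [h3, map_zero, add_zero]
        split_ifs at h2 ⊢ with h6
        · exact hN _ _ h2
        · exact h2
  have h2 := h1 n le_rfl
  rw [shiftM, if_pos (by rw [Nat.sub_self, zero_mul]; exact Nat.zero_le _), Nat.sub_self,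
    zero_mul, Nat.sub_zero] at h2
  exact h2

/-- The total number for a family of subspaces. -/
noncomputable def totN (N : ∀ n, ℕ → Submodule W.K (W.H (yp Y X n))) (n : ℕ) : ℕ :=
  ∑ j ∈ Finset.range ((yp Y X n).dim + 1), finrank W.K (N n j)

lemma sum_all_degrees (Y X : 𝒱.Obj) (f : ℕ → ℕ → ℕ) {c : ℕ} (hc : c ≤ X.dim) (n : ℕ) :
    ∑ m ∈ Finset.range (n + 1), ∑ j ∈ Finset.range ((yp Y X m).dim + 1), f m j ≤
      ∑ j ∈ Finset.range ((yp Y X n).dim + 1),
        ∑ i ∈ (Finset.range (n + 1)).filter (fun i => i * c ≤ j), f (n - i) (j - i * c) := by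
  have h1 : ∑ j ∈ Finset.range ((yp Y X n).dim + 1),
      ∑ i ∈ (Finset.range (n + 1)).filter (fun i => i * c ≤ j), f (n - i) (j - i * c) =
      ∑ i ∈ Finset.range (n + 1), ∑ j ∈ Finset.range ((yp Y X n).dim + 1),
        if i * c ≤ j then f (n - i) (j - i * c) else 0 := by
    rw [Finset.sum_comm]
    exact Finset.sum_congr rfl fun j _ => Finset.sum_filter _ _
  rw [h1, ← Finset.sum_range_reflect]
  refine Finset.sum_le_sum fun i hi => ?_
  have h2 : i < n + 1 := Finset.mem_range.1 hi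
  have h3 : n + 1 - 1 - i = n - i := by omega
  rw [h3]
  have h4 : (yp Y X (n - i)).dim + i * c ≤ (yp Y X n).dim := by
    rw [dim_yp, dim_yp]
    have h5 : n = (n - i) + i := by omega
    have h6 : n * X.dim = (n - i) * X.dim + i * X.dim := by
      rw [← add_mul, ← h5]
    have h7 : i * c ≤ i * X.dim := Nat.mul_le_mul_left i hc
    omega
  obtain ⟨e, he⟩ : ∃ e, (yp Y X n).dim + 1 = i * c + ((yp Y X (n - i)).dim + 1) + e :=
    ⟨(yp Y X n).dim - ((yp Y X (n - i)).dim + i * c), by omega⟩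
  rw [he, Finset.sum_range_add _ (i * c + ((yp Y X (n - i)).dim + 1)) e,
    Finset.sum_range_add _ (i * c) ((yp Y X (n - i)).dim + 1)]
  have h5 : ∑ j ∈ Finset.range ((yp Y X (n - i)).dim + 1), f (n - i) j =
      ∑ j ∈ Finset.range ((yp Y X (n - i)).dim + 1),
        if i * c ≤ i * c + j then f (n - i) (i * c + j - i * c) else 0 := by
    refine Finset.sum_congr rfl fun j _ => ?_
    rw [if_pos (Nat.le_add_right _ _), Nat.add_sub_cancel_left]
  rw [h5]
  omega

/-- **Zero per cent.** A family of subspaces which satisfies the law is not a positive proportion. -/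
theorem free_zero {T : Sys W} {c : ℕ} (hc : c ≤ X.dim) (hX : (1 : W.H X) ≠ 0)
    (hY : (1 : W.H Y) ≠ 0)
    (N : ∀ n, ℕ → Submodule W.K (W.H (yp Y X n)))
    (hlaw : ∀ n j, ∑ i ∈ (Finset.range (n + 1)).filter (fun i => i * c ≤ j),
      finrank W.K (N (n - i) (j - i * c)) ≤ finrank W.K (Cs T Y X n j))
    {ε : ℝ} (hε : 0 < ε) {n₀ : ℕ}
    (h : ∀ n, n₀ ≤ n → ε * (tot T Y X n : ℝ) ≤ totN N n) : False := by
  have hsum : ∀ n, ∑ m ∈ Finset.range (n + 1), totN N m ≤ tot T Y X n := by
    intro n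
    refine (sum_all_degrees Y X (fun m j => finrank W.K (N m j)) hc n).trans ?_
    exact Finset.sum_le_sum fun j _ => hlaw n j
  have hpos : ∀ n, (0 : ℝ) < tot T Y X n := fun n => by exact_mod_cast tot_pos T hY hX n
  have hsum' : ∀ n, ((∑ m ∈ Finset.range (n + 1), totN N m : ℕ) : ℝ) ≤ tot T Y X n := fun n => by
    exact_mod_cast hsum n
  have hup : ∀ n, (0 : ℝ) < totN N (n₀ + n) := fun n =>
    lt_of_lt_of_le (mul_pos hε (hpos _)) (h _ (by omega))
  -- `ε < 1`
  have hε2 : ε < 1 := by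
    by_contra h1
    push Not at h1
    have h2 := h (n₀ + 1) (by omega)
    have h3 := hsum' (n₀ + 1)
    rw [Finset.sum_range_succ] at h3
    push_cast at h3
    have h4 : (totN N (n₀ + 0) : ℝ) ≤ ∑ m ∈ Finset.range (n₀ + 1), (totN N m : ℝ) :=
      Finset.single_le_sum (f := fun m => (totN N m : ℝ)) (fun m _ => Nat.cast_nonneg _)
        (Finset.mem_range.2 (by omega))
    have h5 := hup 0
    have h6 := hpos (n₀ + 1)
    nlinarith
  refine no_exp (a := fun n => ((∑ m ∈ Finset.range (n + 1), totN N m : ℕ) : ℝ))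
    (q := 1 / (1 - ε)) ?_ (finrank W.K (W.H X) + 1) (n₀ := n₀) ?_ (fun n hn => ?_)
    (fun n => (hsum' n).trans (tot_le_poly T Y X n))
  · rw [one_lt_div (by linarith)]
    linarith
  · have h1 : totN N n₀ ≤ ∑ m ∈ Finset.range (n₀ + 1), totN N m :=
      Finset.single_le_sum (f := fun m => totN N m) (fun m _ => Nat.zero_le _)
        (Finset.mem_range.2 (by omega))
    have h2 := hup 0
    have h3 : (totN N n₀ : ℝ) ≤ ((∑ m ∈ Finset.range (n₀ + 1), totN N m : ℕ) : ℝ) := by
      exact_mod_cast h1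
    exact lt_of_lt_of_le h2 h3
  · have h1 := h (n + 1) (by omega)
    have h2 := hsum' (n + 1)
    have h3 : ((∑ m ∈ Finset.range (n + 1 + 1), totN N m : ℕ) : ℝ) =
        ((∑ m ∈ Finset.range (n + 1), totN N m : ℕ) : ℝ) + totN N (n + 1) := by
      rw [Finset.sum_range_succ]
      push_cast
      ring
    rw [h3] at h2 ⊢
    rw [div_mul_eq_mul_div, div_le_iff₀ (by linarith)]
    nlinarith

end Pool.Agent.X208.SP
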