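import Pool.Agent.X208.SP.Defs
import Pool.Agent.X227.MM.Defs

/-!
# Motivated, Hodge and Tate classes on the varieties `Y × Sym ^ n X`: definitions
-/

open CategoryTheory AlgebraicGeometry

universe u

namespace Pool.Agent.X208.SP

open Pool.Agent.H914 Pool.Agent.H914.VarClass Pool.Agent.H914.VarClass.Obj
  Pool.Agent.H914.WeilCohomology Pool.Agent.Y132.AH Pool.Agent.X227.MM

variable {k : Type u} [Field k] {𝒱 : VarClass k} {ops : CycleOps 𝒱}

/-- The dimension of the span of the classes in `P` which are invariant under the permutations of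
the factors `X` of `Y × X ^ n`: the classes on `Y × Sym ^ n X`. -/
noncomputable def symNum (W : WeilCohomology.{u, 0} ops) (Y X : 𝒱.Obj) (n : ℕ)
    (P : Set (W.H (yp Y X n))) : ℕ :=
  Set.finrank W.K {c | c ∈ P ∧ ∀ σ, W.map (perm Y X n σ) c = c}

/-- The dimension of the space spanned by the Hodge classes of degree `2 j` on `Y × Sym ^ n X`. -/
noncomputable def hodgeNum {W : WeilCohomology.{u, 0} ops} (Ψ : HodgeData W) (Y X : 𝒱.Obj)
    (n j : ℕ) : ℕ :=
  symNum W Y X n {c | IsHodge Ψ (yp Y X n) j c}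

/-- The dimension of the space of the Tate classes of degree `2 j` on `Y × Sym ^ n X`. -/
noncomputable def tateNum {W : WeilCohomology.{u, 0} ops} {Γ : Type} [Group Γ]
    (G : GaloisData W Γ) (Y X : 𝒱.Obj) (n j : ℕ) : ℕ :=
  symNum W Y X n {c | IsTate G (yp Y X n) j c}

/-- The dimension of the space of the motivated classes of degree `2 j` on `Y × Sym ^ n X`. -/
noncomputable def motNum (W : WeilCohomology.{u, 0} ops) (Y X : 𝒱.Obj) (n j : ℕ) : ℕ :=
  symNum W Y X n {c | c ∈ W.gr (yp Y X n) (2 * j) ∧ IsMotivated W (yp Y X n) c}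

/-- The dimension of the space of the motivated classes of degree `2 j` on `Y × Sym ^ n X` modulo
the classes whose products with all motivated classes have degree zero. -/
noncomputable def motRank (W : WeilCohomology.{u, 0} ops) (Y X : 𝒱.Obj) (n j : ℕ) : ℕ :=
  motNum W Y X n j - symNum W Y X n {c | (c ∈ W.gr (yp Y X n) (2 * j) ∧
    IsMotivated W (yp Y X n) c) ∧ ∀ d, IsMotivated W (yp Y X n) d → W.tr (yp Y X n) (c * d) = 0}

/-- The sum of the numbers `f j`, `j ≤ dim (Y × Sym ^ n X)`. -/
noncomputable def sumDeg (Y X : 𝒱.Obj) (n : ℕ) (f : ℕ → ℕ) : ℕ :=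
  ∑ j ∈ Finset.range ((yp Y X n).dim + 1), f j

end Pool.Agent.X208.SP
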