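import Pool.Agent.X208.SP.Gap
import Pool.Agent.X208.SP.MotDefs
import Pool.Agent.X227.MM.Mot

/-!
# Motivated, Hodge and Tate classes on the varieties `Y × Sym ^ n X`
-/

open CategoryTheory AlgebraicGeometry

set_option linter.unusedSectionVars false

universe u v

namespace Pool.Agent.X208.SP

open Module
open Pool.Agent.H914 Pool.Agent.H914.VarClass Pool.Agent.H914.VarClass.Obj
  Pool.Agent.H914.WeilCohomology Pool.Agent.Y133.Half Pool.Agent.Y133.Half.Sys
  Pool.Agent.X208.SQ Pool.Agent.Y132.AF Pool.Agent.Y132.AH Pool.Agent.X227.MM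

variable {k : Type u} [Field k] {𝒱 : VarClass k} {ops : CycleOps 𝒱}
  {W : WeilCohomology.{u, 0} ops} {X Y Z : 𝒱.Obj}

/-- A class system whose classes are even. -/
def ofCS (𝒞 : ClassSystem W) (hev : ∀ X, 𝒞.C X ≤ PH W X 0) : Sys W where
  C := 𝒞.C
  even {X} {_} hc := hev X hc
  one X := by
    refine 𝒞.alg_le X ?_
    rw [← W.cl_fund X]
    exact Submodule.subset_span (Set.mem_iUnion.2 ⟨0, _, X.V.fundCycle_mem, rfl⟩)
  mul ha hb := 𝒞.mul_mem ha hb
  map {_ _} f {_} hc := 𝒞.map_mem f hc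
  push {_ _} f {_} hc := 𝒞.push_mem f hc

lemma proj_eq (Z : 𝒱.Obj) (i : ℕ) (x : W.H Z) :
    H914.proj (W.isInternal Z) i x = prj (W.isInternal Z) i x := by
  refine gr_induction (W.isInternal Z) (p := fun x =>
    H914.proj (W.isInternal Z) i x = prj (W.isInternal Z) i x) ?_ ?_ x
  · intro j a ha
    by_cases hij : j = i
    · subst hij
      rw [H914.proj_same _ ha, prj_same _ ha]
    · rw [H914.proj_ne _ ha hij, prj_ne _ hij ha]
  · intro a b ha hb
    rw [map_add, map_add, ha, hb]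

lemma even_of_span {P : ℕ → W.H X → Prop} (hP : ∀ j c, P j c → c ∈ W.gr X (2 * j)) :
    Submodule.span W.K {c | ∃ j, P j c} ≤ PH W X 0 := by
  rw [Submodule.span_le]
  rintro c ⟨j, hc⟩
  exact PH.of' (by omega) (hP j c hc)

lemma homog_of_span {P : ℕ → W.H X → Prop} (hP : ∀ j c, P j c → c ∈ W.gr X (2 * j)) {c : W.H X}
    (hc : c ∈ Submodule.span W.K {c | ∃ j, P j c}) (j : ℕ) :
    H914.proj (W.isInternal X) (2 * j) c ∈ Submodule.span W.K {c | ∃ j, P j c} := by
  induction hc using Submodule.span_induction with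
  | mem a ha =>
    obtain ⟨i, ha⟩ := ha
    by_cases hij : i = j
    · subst hij
      rw [H914.proj_same _ (hP _ _ ha)]
      exact Submodule.subset_span ⟨i, ha⟩
    · rw [H914.proj_ne _ (hP _ _ ha) (by omega)]
      exact Submodule.zero_mem _
  | zero => rw [map_zero]; exact Submodule.zero_mem _
  | add x y _ _ hx hy => rw [map_add]; exact Submodule.add_mem _ hx hy
  | smul r x _ hx => rw [map_smul]; exact Submodule.smul_mem _ _ hx

/-- The number of the invariant classes of degree `2 j` in a span. -/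
lemma symNum_eq {S : Sys W} {P : ∀ Z : 𝒱.Obj, ℕ → W.H Z → Prop}
    (hP : ∀ Z j c, P Z j c → c ∈ W.gr Z (2 * j))
    (hadd : ∀ Z j a b, P Z j a → P Z j b → P Z j (a + b)) (hzero : ∀ Z j, P Z j 0)
    (hmap : ∀ {Z Z' : 𝒱.Obj} (f : Z ⟶ Z') j b, P Z' j b → P Z j (W.map f b))
    (hS : ∀ Z, S.C Z = Submodule.span W.K {c | ∃ j, P Z j c}) (Y X : 𝒱.Obj) (n j : ℕ) :
    symNum W Y X n {c | P (yp Y X n) j c} = finrank W.K (Cs S Y X n j) := by
  rw [symNum, Set.finrank]
  suffices h : Submodule.span W.K {c | c ∈ {c | P (yp Y X n) j c} ∧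
      ∀ σ, W.map (perm Y X n σ) c = c} = Cs S Y X n j by rw [h]
  apply le_antisymm
  · rw [Submodule.span_le]
    rintro c ⟨hc, hσ⟩
    refine ⟨?_, hP _ _ _ hc, hσ⟩
    rw [hS]
    exact Submodule.subset_span ⟨j, hc⟩
  · intro c hc
    have h1 := hc.1
    rw [hS] at h1
    have h2 := span_graded (hP _) hc.2.1 h1
    have h3 : (n.factorial : W.K) ≠ 0 := Nat.cast_ne_zero.2 (Nat.factorial_ne_zero n)
    have h4 : c = (n.factorial : W.K)⁻¹ • sy W Y X n c := by
      rw [sy_of_inv n hc.2.2, smul_smul, inv_mul_cancel₀ h3, one_smul]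
    rw [h4]
    apply Submodule.smul_mem
    clear h4 h1 hc
    induction h2 using Submodule.span_induction with
    | mem a ha =>
      refine Submodule.subset_span ⟨?_, sy_inv n a⟩
      rw [sy_apply]
      have h5 : ∀ s : Finset (Equiv.Perm (Fin n)),
          P (yp Y X n) j (∑ σ ∈ s, W.map (perm Y X n σ) a) := by
        intro s
        induction s using Finset.induction_on with
        | empty => rw [Finset.sum_empty]; exact hzero _ _
        | insert σ s hσ ih =>
          rw [Finset.sum_insert hσ]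
          exact hadd _ _ _ _ (hmap _ _ _ ha) ih
      exact h5 _
    | zero => rw [map_zero]; exact Submodule.zero_mem _
    | add x y _ _ hx hy => rw [map_add]; exact Submodule.add_mem _ hx hy
    | smul r x _ hx => rw [map_smul]; exact Submodule.smul_mem _ _ hx

section

variable {Γ : Type} [Group Γ] (Ψ : HodgeData W) (G : GaloisData W Γ)

/-- The system of the linear combinations of Hodge classes. -/
def hSys : Sys W := ofCS (hodgeSys Ψ) fun X => even_of_span (P := IsHodge Ψ X)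
  fun _ _ hc => hodge_gr Ψ hc

/-- The system of the linear combinations of Tate classes. -/
def tSys : Sys W := ofCS (tateSys G) fun X => even_of_span (P := IsTate G X) fun _ _ hc => hc.1

theorem hSys_homog : Homog (hSys Ψ) := fun Z _ hc j =>
  homog_of_span (P := IsHodge Ψ Z) (fun _ _ hc => hodge_gr Ψ hc) hc j

theorem tSys_homog : Homog (tSys G) := fun Z _ hc j =>
  homog_of_span (P := IsTate G Z) (fun _ _ hc => hc.1) hc j

theorem hodgeNum_eq (Y X : 𝒱.Obj) (n j : ℕ) :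
    hodgeNum Ψ Y X n j = finrank W.K (Cs (hSys Ψ) Y X n j) := by
  refine symNum_eq (S := hSys Ψ) (P := IsHodge Ψ) (fun _ _ _ hc => hodge_gr Ψ hc) ?_ ?_ ?_
    (fun _ => rfl) Y X n j
  · rintro Z j a b ⟨h1, h2⟩ ⟨h3, h4⟩
    exact ⟨Submodule.add_mem _ h1 h3, fun σ => by rw [map_add, h2, h4]⟩
  · exact fun Z j => ⟨Submodule.zero_mem _, fun σ => map_zero _⟩
  · exact fun f j b hb => isHodge_map Ψ f hb

theorem tateNum_eq (Y X : 𝒱.Obj) (n j : ℕ) :
    tateNum G Y X n j = finrank W.K (Cs (tSys G) Y X n j) :=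
  symNum_eq (S := tSys G) (P := IsTate G) (fun _ _ _ hc => hc.1)
    (fun _ _ _ _ ha hb => isTate_add G ha hb) (fun Z j => isTate_zero G Z j)
    (fun f _ _ hb => isTate_map G f hb) (fun _ => rfl) Y X n j

end

/-- The classes all of whose homogeneous components are motivated. -/
def homSys (W : WeilCohomology.{u, 0} ops) : ClassSystem W where
  C X :=
    { carrier := {c | ∀ i, prj (W.isInternal X) i c ∈ (motivatedSys W).C X}
      add_mem' := fun ha hb i => by rw [map_add]; exact Submodule.add_mem _ (ha i) (hb i)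
      zero_mem' := fun i => by rw [map_zero]; exact Submodule.zero_mem _
      smul_mem' := fun r a ha i => by rw [map_smul]; exact Submodule.smul_mem _ _ (ha i) }
  alg_le X := by
    refine Submodule.span_le.2 fun c hc => ?_
    obtain ⟨j, z, hz, rfl⟩ := Set.mem_iUnion.1 hc
    intro i
    by_cases hij : 2 * j = i
    · subst hij
      rw [prj_same _ (W.cl_mem hz)]
      exact (motivatedSys W).alg_le X (Submodule.subset_span hc)
    · rw [prj_ne _ hij (W.cl_mem hz)]
      exact Submodule.zero_mem _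
  mul_mem {X a b} ha hb := by
    intro i
    have h1 : ∀ (Z : 𝒱.Obj) (x : W.H Z), ∑ i ∈ Finset.range (2 * Z.dim + 1),
        prj (W.isInternal Z) i x = x := by
      intro Z x
      have h2 := sum_proj (W.isInternal Z) (N := 2 * Z.dim + 1)
        (fun i hi => W.gr_eq_bot Z i (by omega))
      have h3 := congrArg (fun f => f x) h2
      simp only [LinearMap.sum_apply, Module.End.one_apply, proj_eq] at h3
      exact h3
    rw [← h1 X a, ← h1 X b, Finset.sum_mul_sum, map_sum]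
    refine Submodule.sum_mem _ fun p _ => ?_
    rw [map_sum]
    refine Submodule.sum_mem _ fun q _ => ?_
    have h2 : prj (W.isInternal X) p a * prj (W.isInternal X) q b ∈ W.gr X (p + q) :=
      W.mul_mem (prj_mem _ _ _) (prj_mem _ _ _)
    by_cases hi : p + q = i
    · subst hi
      rw [prj_same _ h2]
      exact (motivatedSys W).mul_mem (ha p) (hb q)
    · rw [prj_ne _ hi h2]
      exact Submodule.zero_mem _
  map_mem {X Y} f {b} hb := by
    intro i
    have h1 : prj (W.isInternal X) i (W.map f b) = W.map f (prj (W.isInternal Y) i b) := by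
      refine gr_induction (W.isInternal Y) (p := fun b =>
        prj (W.isInternal X) i (W.map f b) = W.map f (prj (W.isInternal Y) i b)) ?_ ?_ b
      · intro j a ha
        by_cases hij : j = i
        · subst hij
          rw [prj_same _ ha, prj_same _ (W.map_mem f ha)]
        · rw [prj_ne _ hij ha, prj_ne _ hij (W.map_mem f ha), map_zero]
      · intro a b ha hb
        rw [map_add, map_add, ha, hb, map_add, map_add]
    rw [h1]
    exact (motivatedSys W).map_mem f (hb i)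
  push_mem {X Y} f {a} ha := by
    intro m
    have h1 : ∀ (Z : 𝒱.Obj) (x : W.H Z), ∑ i ∈ Finset.range (2 * Z.dim + 1),
        prj (W.isInternal Z) i x = x := by
      intro Z x
      have h2 := sum_proj (W.isInternal Z) (N := 2 * Z.dim + 1)
        (fun i hi => W.gr_eq_bot Z i (by omega))
      have h3 := congrArg (fun f => f x) h2
      simp only [LinearMap.sum_apply, Module.End.one_apply, proj_eq] at h3
      exact h3
    rw [← h1 X a, map_sum, map_sum]
    refine Submodule.sum_mem _ fun p _ => ?_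
    by_cases hm : m + 2 * X.dim = p + 2 * Y.dim
    · have h2 : W.push f (prj (W.isInternal X) p a) ∈ W.gr Y m :=
        mem_of_prj (W.isInternal Y) fun m' hm' =>
          gr_push f (prj_mem (W.isInternal X) p a) (by omega)
      rw [prj_same _ h2]
      exact (motivatedSys W).push_mem f (ha p)
    · rw [gr_push f (prj_mem (W.isInternal X) p a) hm]
      exact Submodule.zero_mem _

theorem homSys_lef (W : WeilCohomology.{u, 0} ops) : LefschetzClosed (homSys W) := by
  intro X D hD hL i hi x hx h m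
  by_cases hm : i = m
  · subst hm
    rw [prj_same _ hx]
    refine motivated_lef W X D hD hL i hi x hx ?_
    have h1 := W.mul_mem (cl_pow_gr hD (X.dim - i)) hx
    have h2 := h (2 * (X.dim - i) + i)
    rwa [prj_same _ h1] at h2
  · rw [prj_ne _ hm hx]
    exact Submodule.zero_mem _

/-- The system of the motivated classes, given a Hodge structure. -/
noncomputable def mSys (Ψ : HodgeData W) : Sys W :=
  ofCS (motivatedSys W) fun X => (motivated_le (hodge_lef Ψ) X).trans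
    (even_of_span (P := IsHodge Ψ X) fun _ _ hc => hodge_gr Ψ hc)

theorem mSys_homog (Ψ : HodgeData W) : Homog (mSys Ψ) := fun Z c hc j => by
  rw [proj_eq]
  exact motivated_le (homSys_lef W) Z hc (2 * j)

theorem mSys_le (Ψ : HodgeData W) (Z : 𝒱.Obj) : (mSys Ψ).C Z ≤ (hSys Ψ).C Z :=
  motivated_le (hodge_lef Ψ) Z

theorem mSys_le' (Ψ : HodgeData W) {Γ : Type} [Group Γ] (G : GaloisData W Γ) (Z : 𝒱.Obj) :
    (mSys Ψ).C Z ≤ (tSys G).C Z := motivated_le (tate_lef G) Z

lemma mem_mSys (Ψ : HodgeData W) {c : W.H Z} : IsMotivated W Z c ↔ c ∈ (mSys Ψ).C Z :=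
  (motivated_eq Z c).symm

theorem motNum_eq (Ψ : HodgeData W) (Y X : 𝒱.Obj) (n j : ℕ) :
    motNum W Y X n j = finrank W.K (Cs (mSys Ψ) Y X n j) := by
  rw [motNum, symNum, Set.finrank]
  have h1 : {c | c ∈ {c | c ∈ W.gr (yp Y X n) (2 * j) ∧ IsMotivated W (yp Y X n) c} ∧
      ∀ σ, W.map (perm Y X n σ) c = c} = (Cs (mSys Ψ) Y X n j : Set (W.H (yp Y X n))) := by
    ext c
    constructor
    · rintro ⟨⟨h1, h2⟩, h3⟩
      exact ⟨(mem_mSys Ψ).1 h2, h1, h3⟩
    · rintro ⟨h1, h2, h3⟩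
      exact ⟨⟨h2, (mem_mSys Ψ).2 h1⟩, h3⟩
  rw [h1, Submodule.span_eq]

theorem motRank_eq (Ψ : HodgeData W) (Y X : 𝒱.Obj) (n j : ℕ) :
    motRank W Y X n j = rs (mSys Ψ) Y X n j := by
  rw [motRank, motNum_eq Ψ, rs]
  congr 1
  rw [symNum, Set.finrank]
  have h1 : {c | c ∈ {c | (c ∈ W.gr (yp Y X n) (2 * j) ∧ IsMotivated W (yp Y X n) c) ∧
      ∀ d, IsMotivated W (yp Y X n) d → W.tr (yp Y X n) (c * d) = 0} ∧
      ∀ σ, W.map (perm Y X n σ) c = c} =
      (Cs (mSys Ψ) Y X n j ⊓ (mSys Ψ).Num (yp Y X n) : Submodule W.K (W.H (yp Y X n))) := by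
    ext c
    constructor
    · rintro ⟨⟨⟨h1, h2⟩, h3⟩, h4⟩
      exact ⟨⟨(mem_mSys Ψ).1 h2, h1, h4⟩, (mem_mSys Ψ).1 h2,
        fun d hd => h3 d ((mem_mSys Ψ).2 hd)⟩
    · rintro ⟨⟨h1, h2, h3⟩, _, h4⟩
      exact ⟨⟨⟨h2, (mem_mSys Ψ).2 h1⟩, fun d hd => h4 d ((mem_mSys Ψ).1 hd)⟩, h3⟩
  rw [h1, Submodule.span_eq]

theorem sumDeg_tot (T : Sys W) (Y X : 𝒱.Obj) (n : ℕ) :
    sumDeg Y X n (fun j => finrank W.K (Cs T Y X n j)) = tot T Y X n := rfl

/-- The law of the two numbers, for an arbitrary larger system. -/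
theorem law_of {S T : Sys W} (hST : ∀ Z, S.C Z ≤ T.C Z) (hS : Homog S) (hT : Homog T)
    (h : ¬ T.C X ≤ S.C X) : ∃ c ≤ X.dim, ∀ (Y : 𝒱.Obj) (n j : ℕ),
      rs S Y X (n + 1) (j + c) + finrank W.K (Cs S Y X n j) ≤
        finrank W.K (Cs T Y X (n + 1) (j + c)) := by
  by_contra hcon
  apply h
  refine (eq_of_no_class hST hS hT fun c z hz hzc hzS => ?_).1
  by_contra hz0
  apply hcon
  refine ⟨c, ?_, fun Y n j => gap_law hST hz hz0 hzS hzc Y n j⟩
  by_contra hc
  rw [W.gr_eq_bot X (2 * c) (by omega)] at hzc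
  exact hz0 hzc

section

variable {Γ : Type} [Group Γ] (Ψ : HodgeData W) (G : GaloisData W Γ)

lemma hodge_mem_iff {S : Sys W} (X : 𝒱.Obj) :
    (hSys Ψ).C X ≤ S.C X ↔ ∀ i c, IsHodge Ψ X i c → c ∈ S.C X := by
  constructor
  · exact fun h i c hc => h (Submodule.subset_span ⟨i, hc⟩)
  · exact fun h => Submodule.span_le.2 fun c ⟨i, hc⟩ => h i c hc

lemma tate_mem_iff {S : Sys W} (X : 𝒱.Obj) :
    (tSys G).C X ≤ S.C X ↔ ∀ i c, IsTate G X i c → c ∈ S.C X := by
  constructor
  · exact fun h i c hc => h (Submodule.subset_span ⟨i, hc⟩)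
  · exact fun h => Submodule.span_le.2 fun c ⟨i, hc⟩ => h i c hc

theorem motivatedMT_iff' (X : 𝒱.Obj) : MotivatedMT Ψ G X ↔
    (∀ i c, IsHodge Ψ X i c → IsMotivated W X c) ∧ ∀ i c, IsTate G X i c → IsMotivated W X c := by
  have hmh : ∀ {j : ℕ} {c : W.H X}, c ∈ W.gr X (2 * j) → c ∈ (motivatedSys W).C X →
      c ∈ Submodule.span W.K {c | IsHodge Ψ X j c} := fun {j c} hc h =>
    span_graded (P := IsHodge Ψ X) (fun j c hc => hodge_gr Ψ hc) hc
      (motivated_le (hodge_lef Ψ) X h)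
  have hmt : ∀ {j : ℕ} {c : W.H X}, c ∈ W.gr X (2 * j) → c ∈ (motivatedSys W).C X →
      IsTate G X j c := by
    intro j c hc h
    have h1 := span_graded (P := IsTate G X) (fun j c hc => hc.1) hc
      (motivated_le (tate_lef G) X h)
    clear hc h
    induction h1 using Submodule.span_induction with
    | mem x hx => exact hx
    | zero => exact isTate_zero G X j
    | add x y _ _ hx hy => exact isTate_add G hx hy
    | smul r x _ hx => exact isTate_smul G r hx
  have e : IsMotivated W X = fun c => c ∈ (motivatedSys W).C X :=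
    funext fun c => propext (motivated_eq X c).symm
  rw [MotivatedMT, e]
  constructor
  · intro h
    exact ⟨fun j c hc => ((h j c (hodge_gr Ψ hc)).1).2 (Submodule.subset_span hc),
      fun j c hc => ((h j c hc.1).2).2 hc⟩
  · rintro ⟨h1, h2⟩ j c hc
    refine ⟨⟨hmh hc, fun h => ?_⟩, ⟨hmt hc, fun h => h2 j c h⟩⟩
    exact Submodule.span_le.2 (fun x hx => h1 j x hx) h

/-- The results for motivated classes. -/
theorem mot_fifty (X : 𝒱.Obj) :
    ((∃ i c, IsHodge Ψ X i c ∧ ¬ IsMotivated W X c) →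
      ∃ c ≤ X.dim, ∀ (Y : 𝒱.Obj) (n j : ℕ),
        motRank W Y X (n + 1) (j + c) + motNum W Y X n j ≤ hodgeNum Ψ Y X (n + 1) (j + c)) ∧
    ((∃ i c, IsTate G X i c ∧ ¬ IsMotivated W X c) →
      ∃ c ≤ X.dim, ∀ (Y : 𝒱.Obj) (n j : ℕ),
        motRank W Y X (n + 1) (j + c) + motNum W Y X n j ≤ tateNum G Y X (n + 1) (j + c)) ∧
    ∀ Y : 𝒱.Obj, (1 : W.H Y) ≠ 0 → ∀ ε : ℝ, 0 < ε → ∀ n₀ : ℕ,
      ((∀ n, n₀ ≤ n → (1 / 2 + ε) * (sumDeg Y X n (hodgeNum Ψ Y X n) : ℝ) ≤
        sumDeg Y X n (motRank W Y X n)) → ∀ i c, IsHodge Ψ X i c → IsMotivated W X c) ∧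
      ((∀ n, n₀ ≤ n → (1 / 2 + ε) * (sumDeg Y X n (tateNum G Y X n) : ℝ) ≤
        sumDeg Y X n (motRank W Y X n)) → ∀ i c, IsTate G X i c → IsMotivated W X c) ∧
      ((∀ n, n₀ ≤ n → (1 / 2 + ε) * (sumDeg Y X n (hodgeNum Ψ Y X n) : ℝ) ≤
          sumDeg Y X n (motRank W Y X n) ∧
        (1 / 2 + ε) * (sumDeg Y X n (tateNum G Y X n) : ℝ) ≤
          sumDeg Y X n (motRank W Y X n)) → MotivatedMT Ψ G X) := by
  have hHn : ∀ Y n, hodgeNum Ψ Y X n = fun j => finrank W.K (Cs (hSys Ψ) Y X n j) :=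
    fun Y n => funext (hodgeNum_eq Ψ Y X n)
  have hTn : ∀ Y n, tateNum G Y X n = fun j => finrank W.K (Cs (tSys G) Y X n j) :=
    fun Y n => funext (tateNum_eq G Y X n)
  have hRn : ∀ Y n, motRank W Y X n = fun j => rs (mSys Ψ) Y X n j :=
    fun Y n => funext (motRank_eq Ψ Y X n)
  have h1 : (∃ i c, IsHodge Ψ X i c ∧ ¬ IsMotivated W X c) →
      ∃ c ≤ X.dim, ∀ (Y : 𝒱.Obj) (n j : ℕ),
        motRank W Y X (n + 1) (j + c) + motNum W Y X n j ≤ hodgeNum Ψ Y X (n + 1) (j + c) := by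
    rintro ⟨i, c, hc, hm⟩
    simp only [hodgeNum_eq, motRank_eq Ψ, motNum_eq Ψ]
    refine law_of (mSys_le Ψ) (mSys_homog Ψ) (hSys_homog Ψ) fun h => hm ?_
    exact (mem_mSys Ψ).2 ((hodge_mem_iff Ψ X).1 h i c hc)
  have h2 : (∃ i c, IsTate G X i c ∧ ¬ IsMotivated W X c) →
      ∃ c ≤ X.dim, ∀ (Y : 𝒱.Obj) (n j : ℕ),
        motRank W Y X (n + 1) (j + c) + motNum W Y X n j ≤ tateNum G Y X (n + 1) (j + c) := by
    rintro ⟨i, c, hc, hm⟩
    simp only [tateNum_eq, motRank_eq Ψ, motNum_eq Ψ]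
    refine law_of (mSys_le' Ψ G) (mSys_homog Ψ) (tSys_homog G) fun h => hm ?_
    exact (mem_mSys Ψ).2 ((tate_mem_iff G X).1 h i c hc)
  refine ⟨h1, h2, fun Y hY ε hε n₀ => ?_⟩
  have h3 : (∀ n, n₀ ≤ n → (1 / 2 + ε) * (sumDeg Y X n (hodgeNum Ψ Y X n) : ℝ) ≤
      sumDeg Y X n (motRank W Y X n)) → ∀ i c, IsHodge Ψ X i c → IsMotivated W X c := by
    intro h i c hc
    refine (mem_mSys Ψ).2 ((hodge_mem_iff Ψ X).1 (fifty' (mSys_le Ψ) (mSys_homog Ψ) (hSys_homog Ψ)
      hY hε (n₀ := n₀) fun n hn => ?_).1 i c hc)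
    have h4 := h n hn
    rw [hHn, hRn] at h4
    exact h4
  have h4 : (∀ n, n₀ ≤ n → (1 / 2 + ε) * (sumDeg Y X n (tateNum G Y X n) : ℝ) ≤
      sumDeg Y X n (motRank W Y X n)) → ∀ i c, IsTate G X i c → IsMotivated W X c := by
    intro h i c hc
    refine (mem_mSys Ψ).2 ((tate_mem_iff G X).1 (fifty' (mSys_le' Ψ G) (mSys_homog Ψ)
      (tSys_homog G) hY hε (n₀ := n₀) fun n hn => ?_).1 i c hc)
    have h4 := h n hn
    rw [hTn, hRn] at h4
    exact h4
  refine ⟨h3, h4, fun h => ?_⟩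
  have h5 := h3 fun n hn => (h n hn).1
  have h6 := h4 fun n hn => (h n hn).2
  rw [motivatedMT_iff']
  exact ⟨h5, h6⟩

end

end Pool.Agent.X208.SP
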