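import Pool.Agent.X208.SP.Free
import Pool.Agent.X208.SP.Mot

/-!
# Tate classes and the other classes of a system
-/

open CategoryTheory AlgebraicGeometry

set_option linter.unusedSectionVars false

universe u v

namespace Pool.Agent.X208.SP

open Module
open Pool.Agent.H914 Pool.Agent.H914.VarClass Pool.Agent.H914.VarClass.Obj
  Pool.Agent.H914.WeilCohomology Pool.Agent.Y133.Half Pool.Agent.Y133.Half.Sys
  Pool.Agent.X208.SQ Pool.Agent.Y132.AF Pool.Agent.Y132.AH

variable {k : Type u} [Field k] {𝒱 : VarClass k} {ops : CycleOps 𝒱}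
  {W : WeilCohomology.{u, 0} ops} {X Y Z : 𝒱.Obj} {Γ : Type} [Group Γ] (G : GaloisData W Γ)

lemma act_TZ (g : Γ) (z : W.H X) (n : ℕ) (c : W.H (yp Y X n)) :
    G.act _ g (TZ W Y z n c) = TZ W Y (G.act X g z) n (G.act _ g c) := by
  rw [TZ_apply, TZ_apply, map_sum]
  refine Finset.sum_congr rfl fun i _ => ?_
  rw [map_mul, G.map, G.map]

/-- The twisted action on the classes of degree `2 c`. -/
noncomputable def twist (c : ℕ) (g : Γ) (z : W.H X) : W.H X :=
  ((G.χ g⁻¹ : W.Kˣ) : W.K) ^ c • G.act X g z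

lemma chi_inv (c : ℕ) (g : Γ) : ((G.χ g : W.Kˣ) : W.K) ^ c * ((G.χ g⁻¹ : W.Kˣ) : W.K) ^ c = 1 := by
  rw [← mul_pow, ← Units.val_mul, ← map_mul, mul_inv_cancel, map_one, Units.val_one, one_pow]

lemma act_eq_twist (c : ℕ) (g : Γ) (z : W.H X) :
    G.act X g z = ((G.χ g : W.Kˣ) : W.K) ^ c • twist G c g z := by
  rw [twist, smul_smul, chi_inv, one_smul]

lemma twist_one (c : ℕ) (z : W.H X) : twist G c 1 z = z := by
  rw [twist, inv_one, map_one, map_one, Units.val_one, one_pow, one_smul, AlgEquiv.one_apply]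

lemma twist_mul (c : ℕ) (g h : Γ) (z : W.H X) :
    twist G c (g * h) z = twist G c g (twist G c h z) := by
  rw [twist, twist, twist, map_smul, smul_smul, mul_inv_rev, map_mul, map_mul, Units.val_mul,
    mul_pow, AlgEquiv.mul_apply, mul_comm (((G.χ h⁻¹ : W.Kˣ) : W.K) ^ c)]

/-- The twisted action. -/
@[reducible] noncomputable def twMul (X : 𝒱.Obj) (c : ℕ) : MulAction Γ (W.H X) where
  smul g z := twist G c g z
  one_smul z := twist_one G c z
  mul_smul g h z := twist_mul G c g h z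

lemma twist_fix {c : ℕ} {g : Γ} {z : W.H X} (h : twist G c g z = z) :
    G.act X g z = ((G.χ g : W.Kˣ) : W.K) ^ c • z := by
  rw [act_eq_twist G c, h]

/-- The orbit of a class which is not a Tate class is infinite. -/
theorem infinite_twist {z : W.H X} {c : ℕ} (hz : z ∈ W.gr X (2 * c)) (h : ¬ IsTate G X c z)
    (Δ : Subgroup Γ) (hΔ : Δ.FiniteIndex) : ((fun g => twist G c g z) '' (Δ : Set Γ)).Infinite := by
  intro hfin
  apply h
  let _ : MulAction Γ (W.H X) := twMul G X c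
  have h1 : MulAction.orbit Δ z = (fun g => twist G c g z) '' (Δ : Set Γ) := by
    ext x
    constructor
    · rintro ⟨g, rfl⟩
      exact ⟨g.1, g.2, rfl⟩
    · rintro ⟨g, hg, rfl⟩
      exact ⟨⟨g, hg⟩, rfl⟩
  have h2 := MulAction.index_stabilizer Δ z
  rw [h1] at h2
  have h3 : ((fun g => twist G c g z) '' (Δ : Set Γ)).ncard ≠ 0 := by
    rw [Ne, Set.ncard_eq_zero hfin]
    exact Set.Nonempty.ne_empty ⟨_, 1, Δ.one_mem, rfl⟩
  have h4 : MulAction.stabilizer Δ z = (MulAction.stabilizer Γ z).subgroupOf Δ := by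
    ext g
    rfl
  have h5 : (MulAction.stabilizer Γ z).relIndex Δ ≠ 0 := by
    rw [Subgroup.relIndex, ← h4, h2]
    exact h3
  have h6 : (MulAction.stabilizer Γ z ⊓ Δ).index ≠ 0 := by
    rw [← Subgroup.relIndex_mul_index (inf_le_right : MulAction.stabilizer Γ z ⊓ Δ ≤ Δ),
      Subgroup.inf_relIndex_right]
    exact mul_ne_zero h5 hΔ.index_ne_zero
  exact ⟨hz, MulAction.stabilizer Γ z ⊓ Δ, ⟨h6⟩, fun g hg => twist_fix G hg.1⟩

lemma tate_of_mem {j : ℕ} {c : W.H X} (hc : c ∈ W.gr X (2 * j)) (h : c ∈ (tSys G).C X) :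
    IsTate G X j c := by
  have h1 := span_graded (P := IsTate G X) (fun j c hc => hc.1) hc h
  clear hc h
  induction h1 using Submodule.span_induction with
  | mem x hx => exact hx
  | zero => exact isTate_zero G X j
  | add x y _ _ hx hy => exact isTate_add G hx hy
  | smul r x _ hx => exact isTate_smul G r hx

/-- The value of a polynomial with Tate coefficients at a conjugate. -/
lemma act_Ev (g : Γ) {c : ℕ} (z : W.H X) (n j : ℕ) (a : ∀ n, W.H (yp Y X n))
    (ha : ∀ m ≤ n, (n - m) * c ≤ j →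
      G.act _ g (a m) = ((G.χ g : W.Kˣ) : W.K) ^ (j - (n - m) * c) • a m)
    (ha0 : ∀ m ≤ n, ¬ (n - m) * c ≤ j → a m = 0) : ∀ m ≤ n,
    ((n - m) * c ≤ j → G.act _ g (Ev z a m) =
      ((G.χ g : W.Kˣ) : W.K) ^ (j - (n - m) * c) • Ev (twist G c g z) a m) ∧
    (¬ (n - m) * c ≤ j → Ev z a m = 0 ∧ Ev (twist G c g z) a m = 0)
  | 0 => fun hm => ⟨fun h => ha 0 hm h, fun h => ⟨ha0 0 hm h, ha0 0 hm h⟩⟩
  | m + 1 => by
    intro hm
    obtain ⟨ih1, ih2⟩ := act_Ev g z n j a ha ha0 m (by omega)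
    have h4 : (n - m) * c = (n - (m + 1)) * c + c := by
      have h5 : n - m = (n - (m + 1)) + 1 := by omega
      rw [h5, add_mul, one_mul]
    by_cases h5 : (n - m) * c ≤ j
    · have h6 : (n - (m + 1)) * c ≤ j := by omega
      refine ⟨fun _ => ?_, fun h => absurd h6 h⟩
      rw [Ev_succ, Ev_succ, map_add, ha (m + 1) hm h6, act_TZ, ih1 h5, act_eq_twist G c g z,
        TZ_smul_left, map_smul, smul_smul, smul_add, ← pow_add]
      have h7 : c + (j - (n - m) * c) = j - (n - (m + 1)) * c := by omega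
      rw [h7]
    · obtain ⟨h6, h7⟩ := ih2 h5
      rw [Ev_succ, Ev_succ, h6, h7, map_zero, map_zero, add_zero]
      exact ⟨fun h => ha (m + 1) hm h, fun h => ⟨ha0 (m + 1) hm h, ha0 (m + 1) hm h⟩⟩

/-- **Independence.** A class of degree `2 c` which is not a Tate class satisfies no polynomial
equation whose coefficients are symmetric Tate classes. -/
theorem gal_free {z : W.H X} {c : ℕ} (hzc : z ∈ W.gr X (2 * c)) (hz : ¬ IsTate G X c z)
    (n j : ℕ) (a : ∀ n, W.H (yp Y X n))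
    (ha : ∀ m, a m ∈ shiftM (fun m l => Cs (tSys G) Y X m l) n j c m) (h0 : Ev z a n = 0) :
    ∀ m ≤ n, a m = 0 := by
  have h1 : ∀ m, ∃ Δ : Subgroup Γ, Δ.FiniteIndex ∧ ∀ g ∈ Δ, (n - m) * c ≤ j →
      G.act _ g (a m) = ((G.χ g : W.Kˣ) : W.K) ^ (j - (n - m) * c) • a m := by
    intro m
    by_cases h : (n - m) * c ≤ j
    · have h2 := ha m
      rw [shiftM, if_pos h] at h2
      obtain ⟨_, Δ, hΔ, h3⟩ := tate_of_mem G h2.2.1 h2.1
      exact ⟨Δ, hΔ, fun g hg _ => h3 g hg⟩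
    · exact ⟨⊤, inferInstance, fun g _ h' => absurd h' h⟩
  have h2 : ∀ m, ¬ (n - m) * c ≤ j → a m = 0 := by
    intro m h
    have h3 := ha m
    rw [shiftM, if_neg h] at h3
    exact h3
  choose Δ hΔ h3 using h1
  have h4 : ∃ Δ' : Subgroup Γ, Δ'.FiniteIndex ∧ ∀ m ≤ n, Δ' ≤ Δ m := by
    have h5 : ∀ l, ∃ Δ' : Subgroup Γ, Δ'.FiniteIndex ∧ ∀ m ≤ l, Δ' ≤ Δ m := by
      intro l
      induction l with
      | zero =>
        refine ⟨Δ 0, hΔ 0, fun m hm => ?_⟩
        obtain rfl : m = 0 := by omega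
        exact le_rfl
      | succ l ih =>
        obtain ⟨Δ', h6, h7⟩ := ih
        have := hΔ (l + 1)
        refine ⟨Δ' ⊓ Δ (l + 1), inferInstance, fun m hm => ?_⟩
        rcases Nat.lt_or_ge m (l + 1) with h8 | h8
        · exact inf_le_left.trans (h7 m (by omega))
        · obtain rfl : m = l + 1 := by omega
          exact inf_le_right
    exact h5 n
  obtain ⟨Δ', hΔ', h5⟩ := h4
  refine Ev_infinite n a _ (infinite_twist G hzc hz Δ' hΔ') ?_ ?_
  · rintro _ ⟨g, _, rfl⟩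
    exact PH.of' (i := 2 * c) (by omega)
      (Submodule.smul_mem _ _ ((G.galois X).gr_mem g _ _ hzc))
  · rintro _ ⟨g, hg, rfl⟩
    have h6 := (act_Ev G g z n j a (fun m hm h => h3 m g (h5 m hm hg) h)
      (fun m _ h => h2 m h) n le_rfl).1 (by rw [Nat.sub_self, zero_mul]; exact Nat.zero_le _)
    rw [h0, map_zero] at h6
    exact (smul_eq_zero.1 h6.symm).resolve_left (pow_ne_zero _ (Units.ne_zero _))

/-- The symmetric classes which are in the system and are Tate classes. -/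
noncomputable def Ns (T : Sys W) (Y X : 𝒱.Obj) (n j : ℕ) : Submodule W.K (W.H (yp Y X n)) :=
  Cs T Y X n j ⊓ Cs (tSys G) Y X n j

/-- **The law for a system and the Tate classes.** -/
theorem gal_law {T : Sys W} {z : W.H X} (hz : z ∈ T.C X) {c : ℕ} (hzc : z ∈ W.gr X (2 * c))
    (hn : ¬ IsTate G X c z) (Y : 𝒱.Obj) (n j : ℕ) :
    ∑ i ∈ (Finset.range (n + 1)).filter (fun i => i * c ≤ j),
      finrank W.K (Ns G T Y X (n - i) (j - i * c)) ≤ finrank W.K (Cs T Y X n j) := by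
  refine free_law hz hzc (fun n j => Ns G T Y X n j) (fun n j => inf_le_left) n j
    fun a ha h0 => gal_free G hzc hn n j a (fun m => ?_) h0
  have h1 := ha m
  rw [shiftM] at h1 ⊢
  split_ifs at h1 ⊢ with h
  · exact h1.2
  · exact h1

lemma exists_not_tate {T : Sys W} (hT : Homog T) (h : ¬ T.C X ≤ (tSys G).C X) :
    ∃ c ≤ X.dim, ∃ z ∈ T.C X, z ∈ W.gr X (2 * c) ∧ ¬ IsTate G X c z := by
  by_contra hcon
  apply h
  refine mem_of_Cg hT fun c => ?_
  rintro z ⟨h1, h2⟩
  refine ⟨?_, h2⟩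
  by_cases hc : c ≤ X.dim
  · by_contra h3
    exact hcon ⟨c, hc, z, h1, h2, fun h4 => h3 (Submodule.subset_span ⟨c, h4⟩)⟩
  · rw [W.gr_eq_bot X (2 * c) (by omega)] at h2
    rw [(Submodule.mem_bot W.K).1 h2]
    exact Submodule.zero_mem _

/-- **The law**, second form. -/
theorem gal_exists {T : Sys W} (hT : Homog T) (h : ¬ T.C X ≤ (tSys G).C X) :
    ∃ c ≤ X.dim, ∀ (Y : 𝒱.Obj) (n j : ℕ),
      ∑ i ∈ (Finset.range (n + 1)).filter (fun i => i * c ≤ j),
        finrank W.K (Ns G T Y X (n - i) (j - i * c)) ≤ finrank W.K (Cs T Y X n j) := by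
  obtain ⟨c, hc, z, h1, h2, h3⟩ := exists_not_tate G hT h
  exact ⟨c, hc, fun Y n j => gal_law G h1 h2 h3 Y n j⟩

/-- **Positive proportion.** -/
theorem gal_pos {T : Sys W} (hT : Homog T) (hY : (1 : W.H Y) ≠ 0) {ε : ℝ} (hε : 0 < ε) {n₀ : ℕ}
    (h : ∀ n, n₀ ≤ n → ε * (tot T Y X n : ℝ) ≤
      ∑ j ∈ Finset.range ((yp Y X n).dim + 1), (finrank W.K (Ns G T Y X n j) : ℝ)) :
    T.C X ≤ (tSys G).C X := by
  by_contra hcon
  obtain ⟨c, hc, z, h1, h2, h3⟩ := exists_not_tate G hT hcon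
  have hX : (1 : W.H X) ≠ 0 := by
    intro h4
    apply h3
    rw [← mul_one z, h4, mul_zero]
    exact isTate_zero G X c
  refine free_zero (T := T) hc hX hY (fun n j => Ns G T Y X n j)
    (fun n j => gal_law G h1 h2 h3 Y n j) hε (n₀ := n₀) fun n hn => ?_
  have h4 := h n hn
  rw [totN]
  push_cast
  exact h4

section hodge

variable (Ψ : HodgeData W)

/-- The action of the free group generated by the tori of the conjugate Hodge structures. -/
noncomputable def hGal : GaloisData W (FreeGroup (RingAut W.K × W.Kˣ)) where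
  χ := hchar W.K
  on X := ⟨ract Ψ X, actv_galois Ψ X⟩
  isGalMap f g b := hact_map Ψ f g b

theorem isTate_hGal [IsAlgClosed W.K] {j : ℕ} {c : W.H X} :
    IsTate (hGal Ψ) X j c ↔ c ∈ Submodule.span W.K {c | IsHodge Ψ X j c} := by
  constructor
  · rintro ⟨h1, Δ, hΔ, h2⟩
    exact mem_span_hodge Ψ h1 hΔ h2
  · intro h
    induction h using Submodule.span_induction with
    | mem x hx =>
      exact ⟨hodge_gr Ψ hx, ⊤, inferInstance, fun g _ => hodge_act Ψ hx g⟩
    | zero => exact isTate_zero _ X j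
    | add x y _ _ hx hy => exact isTate_add _ hx hy
    | smul r x _ hx => exact isTate_smul _ r hx

theorem tSys_hGal [IsAlgClosed W.K] (X : 𝒱.Obj) : (tSys (hGal Ψ)).C X = (hSys Ψ).C X := by
  apply le_antisymm
  · refine Submodule.span_le.2 ?_
    rintro c ⟨j, hc⟩
    have h1 := (isTate_hGal Ψ).1 hc
    have h2 : {c | IsHodge Ψ X j c} ⊆ {c | ∃ j, IsHodge Ψ X j c} := fun c hc => ⟨j, hc⟩
    exact Submodule.span_mono h2 h1
  · refine Submodule.span_le.2 ?_
    rintro c ⟨j, hc⟩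
    exact Submodule.subset_span ⟨j, (isTate_hGal Ψ).2 (Submodule.subset_span hc)⟩

end hodge

end Pool.Agent.X208.SP
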