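import Pool.Agent.X208.SP.Poly

/-!
# The fifty per cent law
-/

open CategoryTheory AlgebraicGeometry

universe u v

namespace Pool.Agent.X208.SP

open Module
open Pool.Agent.H914 Pool.Agent.H914.VarClass Pool.Agent.H914.VarClass.Obj
  Pool.Agent.H914.WeilCohomology Pool.Agent.Y133.Half Pool.Agent.Y133.Half.Sys
  Pool.Agent.X208.SQ

variable {k : Type u} [Field k] {𝒱 : VarClass k} {ops : CycleOps 𝒱}
  {W : WeilCohomology.{u, v} ops} {X Y Z : 𝒱.Obj}

lemma Cs_mono {S T : Sys W} (hST : ∀ Z, S.C Z ≤ T.C Z) (n j : ℕ) :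
    Cs S Y X n j ≤ Cs T Y X n j := fun _ hc => ⟨hST _ hc.1, hc.2⟩

/-- **The law for two systems of classes**, without hypotheses on the larger system. -/
theorem gap_law {S T : Sys W} (hST : ∀ Z, S.C Z ≤ T.C Z)
    {z : W.H X} (hz : z ∈ T.C X) (hz0 : z ≠ 0) (hzS : ∀ s ∈ S.C X, W.tr X (z * s) = 0) {c : ℕ}
    (hzc : z ∈ W.gr X (2 * c)) (Y : 𝒱.Obj) (n j : ℕ) :
    rs S Y X (n + 1) (j + c) + finrank W.K (Cs S Y X n j) ≤
      finrank W.K (Cs T Y X (n + 1) (j + c)) := by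
  have h1 : (Cs S Y X n j).map (TZ W Y z n) ≤ Os S T Y X (n + 1) (j + c) := by
    rintro _ ⟨a, ha, rfl⟩
    exact TZ_orth hST hz hzS hzc ha
  have h2 := Submodule.finrank_mono h1
  rw [← (Submodule.equivMapOfInjective _ (TZ_injective (T.even hz) hz0 n)
    (Cs S Y X n j)).finrank_eq] at h2
  have h3 : Cs S Y X (n + 1) (j + c) ⊔ Os S T Y X (n + 1) (j + c) ≤ Cs T Y X (n + 1) (j + c) :=
    sup_le (Cs_mono hST _ _) fun _ ht => ht.1
  have h4 : Cs S Y X (n + 1) (j + c) ⊓ Os S T Y X (n + 1) (j + c) ≤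
      Cs S Y X (n + 1) (j + c) ⊓ S.Num (yp Y X (n + 1)) :=
    fun _ ht => ⟨ht.1, ht.1.1, ht.2.2⟩
  have h5 := Submodule.finrank_mono h3
  have h6 := Submodule.finrank_mono h4
  have h7 := Submodule.finrank_sup_add_finrank_inf_eq (Cs S Y X (n + 1) (j + c))
    (Os S T Y X (n + 1) (j + c))
  have h8 : rs S Y X (n + 1) (j + c) = finrank W.K (Cs S Y X (n + 1) (j + c)) -
    finrank W.K (Cs S Y X (n + 1) (j + c) ⊓ S.Num (yp Y X (n + 1)) :
      Submodule W.K (W.H (yp Y X (n + 1)))) := rfl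
  have h9 : finrank W.K (Cs S Y X (n + 1) (j + c) ⊓ S.Num (yp Y X (n + 1)) :
      Submodule W.K (W.H (yp Y X (n + 1)))) ≤ finrank W.K (Cs S Y X (n + 1) (j + c)) :=
    Submodule.finrank_mono inf_le_left
  omega

/-- The number of the symmetric classes of all degrees. -/
noncomputable def tot (T : Sys W) (Y X : 𝒱.Obj) (n : ℕ) : ℕ :=
  ∑ j ∈ Finset.range ((yp Y X n).dim + 1), finrank W.K (Cs T Y X n j)

/-- The number of the symmetric classes of all degrees modulo the numerically trivial ones. -/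
noncomputable def totr (S : Sys W) (Y X : 𝒱.Obj) (n : ℕ) : ℕ :=
  ∑ j ∈ Finset.range ((yp Y X n).dim + 1), rs S Y X n j

lemma rs_le (S : Sys W) (Y X : 𝒱.Obj) (n j : ℕ) : rs S Y X n j ≤ finrank W.K (Cs S Y X n j) :=
  Nat.sub_le _ _

lemma totr_le (S : Sys W) (Y X : 𝒱.Obj) (n : ℕ) : totr S Y X n ≤ tot S Y X n :=
  Finset.sum_le_sum fun j _ => rs_le S Y X n j

lemma tot_mono {S T : Sys W} (hST : ∀ Z, S.C Z ≤ T.C Z) (n : ℕ) : tot S Y X n ≤ tot T Y X n :=
  Finset.sum_le_sum fun _ _ => Submodule.finrank_mono (Cs_mono hST _ _)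

lemma dim_yp (Y X : 𝒱.Obj) : ∀ n, (yp Y X n).dim = Y.dim + n * X.dim
  | 0 => by rw [zero_mul]; rfl
  | 1 => by rw [one_mul]; rfl
  | n + 2 => by
    have h1 := dim_yp Y X (n + 1)
    have h2 : (yp Y X (n + 1)).dim = Y.dim + (pw X n).dim := rfl
    have h3 : (yp Y X (n + 2)).dim = Y.dim + ((pw X n).dim + X.dim) := rfl
    rw [h3]
    rw [h2] at h1
    have h4 : (n + 2) * X.dim = (n + 1) * X.dim + X.dim := by ring
    omega

/-- The law for the total numbers. -/
theorem tot_law {S T : Sys W} (hST : ∀ Z, S.C Z ≤ T.C Z)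
    {z : W.H X} (hz : z ∈ T.C X) (hz0 : z ≠ 0) (hzS : ∀ s ∈ S.C X, W.tr X (z * s) = 0) {c : ℕ}
    (hzc : z ∈ W.gr X (2 * c)) (Y : 𝒱.Obj) (n : ℕ) :
    totr S Y X (n + 1) + tot S Y X n ≤ tot T Y X (n + 1) := by
  have hc : c ≤ X.dim := by
    by_contra h
    rw [W.gr_eq_bot X (2 * c) (by omega)] at hzc
    exact hz0 hzc
  have hd : (yp Y X (n + 1)).dim = (yp Y X n).dim + X.dim := by
    rw [dim_yp, dim_yp]; ring
  obtain ⟨e, he⟩ : ∃ e, (yp Y X (n + 1)).dim + 1 = c + ((yp Y X n).dim + 1) + e :=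
    ⟨X.dim - c, by omega⟩
  have h1 : ∀ f : ℕ → ℕ, ∑ j ∈ Finset.range ((yp Y X (n + 1)).dim + 1), f j =
      ∑ j ∈ Finset.range c, f j + ∑ j ∈ Finset.range ((yp Y X n).dim + 1), f (c + j) +
        ∑ j ∈ Finset.range e, f (c + ((yp Y X n).dim + 1) + j) := by
    intro f
    rw [he, Finset.sum_range_add, Finset.sum_range_add]
  have h2 : ∀ j, rs S Y X (n + 1) j ≤ finrank W.K (Cs T Y X (n + 1) j) := fun j =>
    (rs_le S Y X (n + 1) j).trans (Submodule.finrank_mono (Cs_mono hST _ _))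
  have h3 : ∑ j ∈ Finset.range ((yp Y X n).dim + 1), rs S Y X (n + 1) (c + j) +
      ∑ j ∈ Finset.range ((yp Y X n).dim + 1), finrank W.K (Cs S Y X n j) ≤
      ∑ j ∈ Finset.range ((yp Y X n).dim + 1), finrank W.K (Cs T Y X (n + 1) (c + j)) := by
    rw [← Finset.sum_add_distrib]
    refine Finset.sum_le_sum fun j _ => ?_
    rw [add_comm c j]
    exact gap_law hST hz hz0 hzS hzc Y n j
  rw [totr, tot, tot, h1, h1]
  have h4 : ∑ j ∈ Finset.range c, rs S Y X (n + 1) j ≤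
    ∑ j ∈ Finset.range c, finrank W.K (Cs T Y X (n + 1) j) := Finset.sum_le_sum fun j _ => h2 j
  have h5 : ∑ j ∈ Finset.range e, rs S Y X (n + 1) (c + ((yp Y X n).dim + 1) + j) ≤
    ∑ j ∈ Finset.range e, finrank W.K (Cs T Y X (n + 1) (c + ((yp Y X n).dim + 1) + j)) :=
    Finset.sum_le_sum fun j _ => h2 _
  omega

/-- A sequence with polynomial growth does not grow exponentially. -/
lemma no_exp {a : ℕ → ℝ} {q C : ℝ} (hq : 1 < q) (d : ℕ) {n₀ : ℕ} (h0 : 0 < a n₀)
    (h1 : ∀ n, n₀ ≤ n → q * a n ≤ a (n + 1)) (h2 : ∀ n : ℕ, a n ≤ C * ((n : ℝ) + 1) ^ d) : False := by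
  have hq0 : 0 < q := by linarith
  have h3 : ∀ n, n₀ ≤ n → q ^ n * (a n₀ / q ^ n₀) ≤ a n := by
    intro n hn
    induction n, hn using Nat.le_induction with
    | base => rw [mul_div_cancel₀ _ (pow_ne_zero _ hq0.ne')]
    | succ n hn ih =>
      refine le_trans ?_ (h1 n hn)
      rw [pow_succ, mul_comm (q ^ n) q, mul_assoc]
      exact mul_le_mul_of_nonneg_left ih hq0.le
  have h4 : Filter.Tendsto (fun n : ℕ => ((n : ℝ)) ^ d / q ^ n) Filter.atTop (nhds 0) :=
    tendsto_pow_const_div_const_pow_of_one_lt d hq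
  set δ := a n₀ / q ^ n₀ with hδ
  have hδ0 : 0 < δ := div_pos h0 (pow_pos hq0 _)
  have h5 : Filter.Tendsto (fun n : ℕ => C * q * (((n + 1 : ℕ) : ℝ) ^ d / q ^ (n + 1)))
      Filter.atTop (nhds (C * q * 0)) :=
    ((Filter.tendsto_add_atTop_iff_nat 1).2 h4).const_mul _
  rw [mul_zero] at h5
  have h6 := (h5.eventually_lt_const hδ0).and (Filter.eventually_ge_atTop n₀)
  obtain ⟨n, h7, h8⟩ := h6.exists
  have h9 := (h3 n h8).trans (h2 n)
  have hqn : 0 < q ^ n := pow_pos hq0 n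
  have h10 : C * q * (((n + 1 : ℕ) : ℝ) ^ d / q ^ (n + 1)) = C * ((n : ℝ) + 1) ^ d / q ^ n := by
    rw [pow_succ]
    push_cast
    field_simp
  rw [h10, div_lt_iff₀ hqn] at h7
  linarith

lemma tot_le_poly (T : Sys W) (Y X : 𝒱.Obj) (n : ℕ) :
    (tot T Y X n : ℝ) ≤ (((Y.dim : ℝ) + X.dim + 1) * finrank W.K (W.H Y)) *
      ((n : ℝ) + 1) ^ (finrank W.K (W.H X) + 1) := by
  have h1 : tot T Y X n ≤ (Y.dim + n * X.dim + 1) *
      (finrank W.K (W.H Y) * (n + 1) ^ finrank W.K (W.H X)) := by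
    rw [tot, dim_yp]
    refine (Finset.sum_le_sum fun j _ => finrank_inv_le n (Cs T Y X n j) fun c hc => hc.2.2).trans ?_
    rw [Finset.sum_const, Finset.card_range, smul_eq_mul]
  have h2 : Y.dim + n * X.dim + 1 ≤ (Y.dim + X.dim + 1) * (n + 1) := by
    nlinarith [Nat.zero_le (Y.dim * n), Nat.zero_le X.dim, Nat.zero_le n]
  have h3 := h1.trans (Nat.mul_le_mul_right _ h2)
  have h4 : (tot T Y X n : ℝ) ≤ (((Y.dim + X.dim + 1) * (n + 1) *
    (finrank W.K (W.H Y) * (n + 1) ^ finrank W.K (W.H X)) : ℕ) : ℝ) := by exact_mod_cast h3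
  refine h4.trans (le_of_eq ?_)
  push_cast
  ring

lemma one_Cs (T : Sys W) (n : ℕ) : (1 : W.H (yp Y X n)) ∈ Cs T Y X n 0 :=
  ⟨T.one _, W.one_mem _, fun _ => map_one _⟩

lemma one_ne (hY : (1 : W.H Y) ≠ 0) (hX : (1 : W.H X) ≠ 0) (n : ℕ) :
    (1 : W.H (yp Y X n)) ≠ 0 := by
  obtain ⟨ωY, h1, h2⟩ := exists_point hY
  obtain ⟨ωX, h3, h4⟩ := exists_point hX
  obtain ⟨ω, h5, h6, h7⟩ := exists_pt h1 h2 h3 h4 n
  intro h
  rw [← mul_one ω, h, mul_zero, map_zero] at h6
  exact one_ne_zero h6.symm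

lemma tot_pos (T : Sys W) (hY : (1 : W.H Y) ≠ 0) (hX : (1 : W.H X) ≠ 0) (n : ℕ) :
    0 < tot T Y X n := by
  have h1 : finrank W.K (Cs T Y X n 0) ≤ tot T Y X n :=
    Finset.single_le_sum (f := fun j => finrank W.K (Cs T Y X n j)) (fun j _ => Nat.zero_le _)
      (Finset.mem_range.2 (Nat.succ_pos _))
  have h2 : Nontrivial (Cs T Y X n 0) :=
    ⟨⟨⟨1, one_Cs T n⟩, 0, fun h => one_ne hY hX n (congrArg Subtype.val h)⟩⟩
  exact lt_of_lt_of_le Module.finrank_pos h1

/-- **The fifty per cent law.** -/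
theorem fifty {S T : Sys W} (hST : ∀ Z, S.C Z ≤ T.C Z)
    {z : W.H X} (hz : z ∈ T.C X) (hz0 : z ≠ 0) (hzS : ∀ s ∈ S.C X, W.tr X (z * s) = 0) {c : ℕ}
    (hzc : z ∈ W.gr X (2 * c)) (hY : (1 : W.H Y) ≠ 0) {ε : ℝ} (hε : 0 < ε) {n₀ : ℕ}
    (h : ∀ n, n₀ ≤ n → (1 / 2 + ε) * (tot T Y X n : ℝ) ≤ totr S Y X n) : False := by
  have hX : (1 : W.H X) ≠ 0 := by
    intro h
    apply hz0
    rw [← mul_one z, h, mul_zero]
  have hpos : ∀ n, (0 : ℝ) < tot T Y X n := fun n => by exact_mod_cast tot_pos T hY hX n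
  have hle : ∀ n, (totr S Y X n : ℝ) ≤ tot S Y X n := fun n => by exact_mod_cast totr_le S Y X n
  have hlaw : ∀ n, (totr S Y X (n + 1) : ℝ) + tot S Y X n ≤ tot T Y X (n + 1) := fun n => by
    exact_mod_cast tot_law hST hz hz0 hzS hzc Y n
  have hr : ∀ n, n₀ ≤ n → 0 < (totr S Y X n : ℝ) := fun n hn =>
    lt_of_lt_of_le (mul_pos (by linarith) (hpos n)) (h n hn)
  have hε2 : ε < 1 / 2 := by
    by_contra h1
    push Not at h1
    have h2 := h (n₀ + 1) (by omega)
    have h3 := hlaw n₀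
    have h4 := hr n₀ le_rfl
    have h5 := hle n₀
    have h6 := hpos (n₀ + 1)
    nlinarith
  refine no_exp (a := fun n => (totr S Y X n : ℝ)) (q := (1 / 2 + ε) / (1 / 2 - ε)) ?_
    (finrank W.K (W.H X) + 1) (hr n₀ le_rfl) (fun n hn => ?_) (fun n => ?_)
    (C := (((Y.dim : ℝ) + X.dim + 1) * finrank W.K (W.H Y)))
  · rw [one_lt_div (by linarith)]
    linarith
  · have h1 := h (n + 1) (by omega)
    have h2 := hlaw n
    have h3 := hle n
    rw [div_mul_eq_mul_div, div_le_iff₀ (by linarith)]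
    nlinarith
  · refine le_trans ?_ (tot_le_poly T Y X n)
    exact_mod_cast (totr_le S Y X n).trans (tot_mono hST n)

/-- The classes of degree `2 c` of a system. -/
noncomputable def Cg (T : Sys W) (X : 𝒱.Obj) (c : ℕ) : Submodule W.K (W.H X) :=
  T.C X ⊓ W.gr X (2 * c)

lemma mem_of_Cg {S T : Sys W} (hT : Homog T) (h : ∀ c, Cg T X c ≤ Cg S X c) : T.C X ≤ S.C X := by
  intro x hx
  have h1 : ∑ i ∈ Finset.range (2 * X.dim + 1), H914.proj (W.isInternal X) i x = x := by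
    have h2 := sum_proj (W.isInternal X) (N := 2 * X.dim + 1) (fun i hi => W.gr_eq_bot X i (by omega))
    have h3 := congrArg (fun f => f x) h2
    simp only [LinearMap.sum_apply, Module.End.one_apply] at h3
    exact h3
  rw [← h1]
  refine Submodule.sum_mem _ fun i _ => ?_
  rcases Nat.even_or_odd' i with ⟨c, rfl | rfl⟩
  · exact (h c ⟨hT _ x hx c, proj_mem _ _ _⟩).1
  · have h2 : ∀ y ∈ PH W X 0, H914.proj (W.isInternal X) (2 * c + 1) y = 0 := by
      intro y hy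
      refine PH.ind (p := fun y => H914.proj (W.isInternal X) (2 * c + 1) y = 0) ?_ ?_ ?_ hy
      · intro i hi y hy
        exact proj_ne _ hy (by omega)
      · rw [map_zero]
      · intro a b ha hb
        rw [map_add, ha, hb, add_zero]
    rw [h2 x (T.even hx)]
    exact Submodule.zero_mem _

/-- The pairing of the homogeneous classes. -/
noncomputable def Bg (S T : Sys W) (X : 𝒱.Obj) (c c' : ℕ) :
    Cg T X c →ₗ[W.K] Module.Dual W.K (Cg S X c') where
  toFun t := W.tr X ∘ₗ LinearMap.mulLeft W.K (t : W.H X) ∘ₗ (Cg S X c').subtype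
  map_add' := by
    intro a b
    ext c
    simp [add_mul]
  map_smul' := by
    intro a b
    ext c
    simp

lemma Bg_apply (S T : Sys W) (X : 𝒱.Obj) (c c' : ℕ) (t : Cg T X c) (s : Cg S X c') :
    Bg S T X c c' t s = W.tr X ((t : W.H X) * (s : W.H X)) := rfl

/-- If the larger system contains no nonzero homogeneous class orthogonal to the smaller system then
the two systems are equal on `X` and the pairing is nondegenerate. -/
theorem eq_of_no_class {S T : Sys W} (hST : ∀ Z, S.C Z ≤ T.C Z) (hS : Homog S) (hT : Homog T)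
    (h : ∀ c, ∀ z ∈ T.C X, z ∈ W.gr X (2 * c) → (∀ s ∈ S.C X, W.tr X (z * s) = 0) → z = 0) :
    T.C X ≤ S.C X ∧ Nondeg S X := by
  have h1 : ∀ c, c ≤ X.dim → finrank W.K (Cg T X c) ≤ finrank W.K (Cg S X (X.dim - c)) := by
    intro c hc
    have hinj : Function.Injective (Bg S T X c (X.dim - c)) := by
      rw [injective_iff_map_eq_zero]
      intro t ht
      apply Subtype.ext
      refine h c t.1 t.2.1 t.2.2 fun s hs => ?_
      have h2 : H914.proj (W.isInternal X) (2 * (X.dim - c)) s ∈ Cg S X (X.dim - c) :=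
        ⟨hS _ s hs _, proj_mem _ _ _⟩
      have h3 := congrArg (fun f => f ⟨_, h2⟩) ht
      rw [LinearMap.zero_apply, Bg_apply] at h3
      have h4 := tr_proj (W := W) (Z := X) (j := X.dim - c) (j' := c) (by omega) t.2.2 s
      rw [W.even_comm t.2.2] at h3
      rw [W.even_comm t.2.2, ← h4]
      exact h3
    have h2 := LinearMap.finrank_le_finrank_of_injective hinj
    rwa [Subspace.dual_finrank_eq] at h2
  have h2 : ∀ c, Cg S X c ≤ Cg T X c := fun c x hx => ⟨hST _ hx.1, hx.2⟩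
  refine ⟨mem_of_Cg hT fun c => ?_, fun x hx hx0 => ?_⟩
  · by_cases hc : c ≤ X.dim
    · have h3 := h1 c hc
      have h4 := h1 (X.dim - c) (by omega)
      rw [show X.dim - (X.dim - c) = c by omega] at h4
      have h5 := Submodule.finrank_mono (h2 (X.dim - c))
      have h6 := Submodule.finrank_mono (h2 c)
      exact (Submodule.eq_of_le_of_finrank_le (h2 c) (by omega)).ge
    · rintro x ⟨_, hx⟩
      rw [W.gr_eq_bot X (2 * c) (by omega)] at hx
      rw [(Submodule.mem_bot _).1 hx]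
      exact Submodule.zero_mem _
  · have h3 : ∑ i ∈ Finset.range (2 * X.dim + 1), H914.proj (W.isInternal X) i x = x := by
      have h2 := sum_proj (W.isInternal X) (N := 2 * X.dim + 1)
        (fun i hi => W.gr_eq_bot X i (by omega))
      have h3 := congrArg (fun f => f x) h2
      simp only [LinearMap.sum_apply, Module.End.one_apply] at h3
      exact h3
    rw [← h3]
    refine Finset.sum_eq_zero fun i _ => ?_
    rcases Nat.even_or_odd' i with ⟨c, rfl | rfl⟩
    · by_cases hc : c ≤ X.dim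
      · refine h c _ (hST _ (hS _ x hx c)) (proj_mem _ _ _) fun s hs => ?_
        have h4 : H914.proj (W.isInternal X) (2 * (X.dim - c)) s ∈ S.C X := hS _ s hs _
        have h5 := tr_proj (W := W) (Z := X) (j := X.dim - c) (j' := c) (by omega)
          (proj_mem (W.isInternal X) (2 * c) x) s
        have h6 := tr_proj (W := W) (Z := X) (j := c) (j' := X.dim - c) (by omega)
          (proj_mem (W.isInternal X) (2 * (X.dim - c)) s) x
        rw [W.even_comm (proj_mem _ _ _), ← h5, ← W.even_comm (proj_mem _ _ _), h6]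
        exact hx0 _ h4
      · have h4 : H914.proj (W.isInternal X) (2 * c) x ∈ W.gr X (2 * c) := proj_mem _ _ _
        rw [W.gr_eq_bot X (2 * c) (by omega)] at h4
        exact (Submodule.mem_bot _).1 h4
    · have h2 : ∀ y ∈ PH W X 0, H914.proj (W.isInternal X) (2 * c + 1) y = 0 := by
        intro y hy
        refine PH.ind (p := fun y => H914.proj (W.isInternal X) (2 * c + 1) y = 0) ?_ ?_ ?_ hy
        · intro i hi y hy
          exact proj_ne _ hy (by omega)
        · rw [map_zero]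
        · intro a b ha hb
          rw [map_add, ha, hb, add_zero]
      exact h2 x (S.even hx)

/-- **The fifty per cent law**, second form. -/
theorem fifty' {S T : Sys W} (hST : ∀ Z, S.C Z ≤ T.C Z) (hS : Homog S) (hT : Homog T)
    (hY : (1 : W.H Y) ≠ 0) {ε : ℝ} (hε : 0 < ε) {n₀ : ℕ}
    (h : ∀ n, n₀ ≤ n → (1 / 2 + ε) * (tot T Y X n : ℝ) ≤ totr S Y X n) :
    T.C X ≤ S.C X ∧ Nondeg S X := by
  apply eq_of_no_class hST hS hT
  intro c z hz hzc hzS
  by_contra hz0
  exact fifty hST hz hz0 hzS hzc hY hε h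

end Pool.Agent.X208.SP
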