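import Pool.Agent.X208.SP.Defs
import Pool.Agent.X208.SP.Comb
import Pool.Agent.X208.SQ.Main

/-!
# The insertion of a class in the cohomology of `Y × X ^ n`
-/

open CategoryTheory AlgebraicGeometry

universe u v

namespace Pool.Agent.X208.SP

open Module
open Pool.Agent.H914 Pool.Agent.H914.VarClass Pool.Agent.H914.VarClass.Obj
  Pool.Agent.H914.WeilCohomology Pool.Agent.Y133.Half Pool.Agent.Y133.Half.Sys
  Pool.Agent.X208.SQ

variable {k : Type u} [Field k] {𝒱 : VarClass k} {ops : CycleOps 𝒱}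
  {W : WeilCohomology.{u, v} ops} {X Y Z : 𝒱.Obj}

lemma ylift_pY : ∀ (n : ℕ) (f : Z ⟶ Y) (g : Fin n → (Z ⟶ X)),
    ylift Y X n f g ≫ pY Y X n = f
  | 0, f, _ => Category.comp_id f
  | _ + 1, _, _ => Obj.lift_fst _ _

lemma ylift_pX : ∀ (n : ℕ) (f : Z ⟶ Y) (g : Fin n → (Z ⟶ X)) (i : Fin n),
    ylift Y X n f g ≫ pX Y X n i = g i
  | 0, _, _, i => i.elim0
  | n + 1, f, g, i =>
    (Category.assoc (Obj.lift f (liftN X n g)) (snd Y (pw X n)) (prj X n i)).symm.trans
      ((congrArg (· ≫ prj X n i) (Obj.lift_snd f (liftN X n g))).trans (liftN_prj n g i))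

lemma yext : ∀ (n : ℕ) {f g : Z ⟶ yp Y X n}, f ≫ pY Y X n = g ≫ pY Y X n →
    (∀ i, f ≫ pX Y X n i = g ≫ pX Y X n i) → f = g
  | 0, f, g, h, _ => (Category.comp_id f).symm.trans (h.trans (Category.comp_id g))
  | n + 1, f, g, h, h' => by
    apply prod_hom_ext h
    apply hom_ext_prj
    intro i
    exact (Category.assoc _ _ _).trans ((h' i).trans (Category.assoc _ _ _).symm)

/-- The morphism given by a map of the indices. -/
noncomputable def D (Y X : 𝒱.Obj) {a b : ℕ} (g : Fin a → Fin b) : yp Y X b ⟶ yp Y X a :=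
  ylift Y X a (pY Y X b) (fun i => pX Y X b (g i))

lemma D_pY {a b : ℕ} (g : Fin a → Fin b) : D Y X g ≫ pY Y X a = pY Y X b := ylift_pY _ _ _

lemma D_pX {a b : ℕ} (g : Fin a → Fin b) (i : Fin a) :
    D Y X g ≫ pX Y X a i = pX Y X b (g i) := ylift_pX _ _ _ i

lemma D_comp {a b c : ℕ} (f : Fin a → Fin b) (g : Fin b → Fin c) :
    D Y X g ≫ D Y X f = D Y X (g ∘ f) := by
  apply yext
  · rw [Category.assoc, D_pY, D_pY, D_pY]
  · intro i
    rw [Category.assoc, D_pX, D_pX, D_pX]
    rfl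

lemma D_id (n : ℕ) : D Y X (id : Fin n → Fin n) = 𝟙 _ := by
  apply yext
  · rw [D_pY, Category.id_comp]
  · intro i
    rw [D_pX, Category.id_comp]
    rfl

lemma perm_eq (n : ℕ) (σ : Equiv.Perm (Fin n)) : perm Y X n σ = D Y X σ := rfl

lemma perm_mul (n : ℕ) (σ ρ : Equiv.Perm (Fin n)) :
    perm Y X n (σ * ρ) = perm Y X n σ ≫ perm Y X n ρ := by
  rw [perm_eq, perm_eq, perm_eq, D_comp]
  rfl

section Basis

variable {κ ι : Type} [Fintype κ] [Fintype ι] [LinearOrder κ] [LinearOrder ι]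

/-- The basis of the cohomology of `Y × X ^ n`. -/
noncomputable def bs (f : Basis κ W.K (W.H Y)) (e : Basis ι W.K (W.H X)) :
    ∀ n, Basis (κ × (Fin n → ι)) W.K (W.H (yp Y X n))
  | 0 => (f.reindex (Equiv.prodUnique κ (Fin 0 → ι)).symm :
      Basis (κ × (Fin 0 → ι)) W.K (W.H Y))
  | n + 1 => yb f e n

omit [Fintype κ] [LinearOrder κ] in
lemma bs_apply (f : Basis κ W.K (W.H Y)) (e : Basis ι W.K (W.H X)) : ∀ (n : ℕ)
    (x : κ × (Fin n → ι)), bs f e n x = W.map (pY Y X n) (f x.1) *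
      (List.ofFn fun i => W.map (pX Y X n i) (e (x.2 i))).prod
  | 0, x => by
    rw [List.ofFn_zero, List.prod_nil, mul_one]
    change f.reindex (Equiv.prodUnique κ (Fin 0 → ι)).symm x = W.map (𝟙 Y) (f x.1)
    rw [W.map_id, Basis.reindex_apply]
    rfl
  | n + 1, x => by
    change yb f e n x = _
    rw [yb_apply, wb_eq, map_list_prod, List.map_ofFn]
    congr 3
    funext i
    rw [Function.comp_apply, ← W.map_comp]
    rfl

/-- The insertion of `z` at the place `i`. -/
noncomputable def insA (W : WeilCohomology.{u, v} ops) (Y : 𝒱.Obj) {X : 𝒱.Obj} (z : W.H X) (n : ℕ)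
    (i : Fin (n + 1)) : W.H (yp Y X n) →ₗ[W.K] W.H (yp Y X (n + 1)) :=
  (LinearMap.mulRight W.K (W.map (pX Y X (n + 1) i) z)) ∘ₗ
    (W.map (D Y X i.succAbove)).toLinearMap

lemma insA_apply (z : W.H X) (n : ℕ) (i : Fin (n + 1)) (c : W.H (yp Y X n)) :
    insA W Y z n i c = W.map (D Y X i.succAbove) c * W.map (pX Y X (n + 1) i) z := rfl

/-- The sum of the insertions of `z` at all places. -/
noncomputable def TZ (W : WeilCohomology.{u, v} ops) (Y : 𝒱.Obj) {X : 𝒱.Obj} (z : W.H X) (n : ℕ) :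
    W.H (yp Y X n) →ₗ[W.K] W.H (yp Y X (n + 1)) := ∑ i, insA W Y z n i

lemma TZ_apply (z : W.H X) (n : ℕ) (c : W.H (yp Y X n)) :
    TZ W Y z n c = ∑ i, W.map (D Y X i.succAbove) c * W.map (pX Y X (n + 1) i) z := by
  rw [TZ, LinearMap.sum_apply]
  rfl

omit [Fintype κ] [LinearOrder κ] in
lemma insA_bs (f : Basis κ W.K (W.H Y)) (e : Basis ι W.K (W.H X)) {o : ι}
    (ho : e o ∈ PH W X 0) (n : ℕ) (i : Fin (n + 1)) (x : κ × (Fin n → ι)) :
    insA W Y (e o) n i (bs f e n x) = bs f e (n + 1) (ins o i x) := by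
  rw [insA_apply, bs_apply, bs_apply, map_mul, ← W.map_comp, D_pY, map_list_prod, List.map_ofFn]
  have key := prod_ofFn_insert
    (fun l => W.map (pX Y X (n + 1) l) (e ((ins o i x).2 l))) i
    (fun y => by
      have h1 : (ins o i x).2 i = o := Fin.insertNth_apply_same (α := fun _ => ι) _ _ _
      rw [h1]
      exact PH.even_comm (PH.map _ ho) y)
  have h1 : (ins o i x).2 i = o := Fin.insertNth_apply_same (α := fun _ => ι) _ _ _
  rw [key, h1, ← mul_assoc]
  congr 3
  apply congrArg List.ofFn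
  funext j
  have h2 : (ins o i x).2 (i.succAbove j) = x.2 j :=
    Fin.insertNth_apply_succAbove (α := fun _ => ι) _ _ _ _
  rw [Function.comp_apply, ← W.map_comp, D_pX, h2]

omit [LinearOrder κ] in
lemma repr_insA (f : Basis κ W.K (W.H Y)) (e : Basis ι W.K (W.H X)) {o : ι}
    (ho : e o ∈ PH W X 0) (n : ℕ) (i : Fin (n + 1)) (c : W.H (yp Y X n))
    (y : κ × (Fin (n + 1) → ι)) :
    (bs f e (n + 1)).repr (insA W Y (e o) n i c) y =
      if y.2 i = o then (bs f e n).repr c (y.1, fun j => y.2 (i.succAbove j)) else 0 := by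
  classical
  conv_lhs => rw [← (bs f e n).sum_repr c]
  rw [map_sum, map_sum, Finsupp.finsetSum_apply]
  split_ifs with h
  · have hy : ins o i (y.1, fun j => y.2 (i.succAbove j)) = y := by
      refine Prod.ext rfl ?_
      funext l
      rcases Fin.eq_self_or_eq_succAbove i l with rfl | ⟨l', rfl⟩
      · exact (Fin.insertNth_apply_same (α := fun _ => ι) _ _ _).trans h.symm
      · exact Fin.insertNth_apply_succAbove (α := fun _ => ι) _ _ _ _
    rw [Finset.sum_eq_single (y.1, fun j => y.2 (i.succAbove j))]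
    · rw [map_smul, map_smul, Finsupp.smul_apply, insA_bs f e ho, Basis.repr_self, hy,
        Finsupp.single_eq_same, smul_eq_mul, mul_one]
    · intro x _ hx
      rw [map_smul, map_smul, Finsupp.smul_apply, insA_bs f e ho, Basis.repr_self,
        Finsupp.single_eq_of_ne, smul_zero]
      intro h'
      rw [← hy] at h'
      exact hx (ins_injective o i h').symm
    · intro h; exact absurd (Finset.mem_univ _) h
  · apply Finset.sum_eq_zero
    intro x _
    rw [map_smul, map_smul, Finsupp.smul_apply, insA_bs f e ho, Basis.repr_self,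
      Finsupp.single_eq_of_ne, smul_zero]
    intro h'
    apply h
    rw [h']
    exact Fin.insertNth_apply_same (α := fun _ => ι) _ _ _

end Basis

/-- The sum of the insertions of a nonzero class of even degrees is injective. -/
theorem TZ_injective {z : W.H X} (hz : z ∈ PH W X 0) (hz0 : z ≠ 0) (n : ℕ) :
    Function.Injective (TZ W Y z n) := by
  rw [injective_iff_map_eq_zero]
  intro c hc
  obtain ⟨e, o, rfl⟩ := exists_basis (K := W.K) hz0
  let f := Module.finBasis W.K (W.H Y)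
  have h1 : ∀ x : Fin (finrank W.K (W.H Y)),
      (fun w : Fin n → _ => (bs f e n).repr c (x, w)) = 0 := by
    intro x
    apply T_injective o
    funext y
    have h2 : (bs f e (n + 1)).repr (TZ W Y (e o) n c) (x, y) = 0 := by
      rw [hc, map_zero, Finsupp.zero_apply]
    rw [TZ, LinearMap.sum_apply, map_sum, Finsupp.finsetSum_apply] at h2
    rw [Pi.zero_apply, ← h2, T]
    refine Finset.sum_congr rfl fun i _ => ?_
    rw [repr_insA f e hz]
  have h2 : (bs f e n).repr c = 0 := by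
    ext ⟨x, w⟩
    exact congrFun (h1 x) w
  exact (LinearEquiv.map_eq_zero_iff _).1 h2

end Pool.Agent.X208.SP
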