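import Pool.Agent.X208.SP.MTLaw

/-!
# The Mumford-Tate conjecture for all powers
-/

open CategoryTheory AlgebraicGeometry

set_option linter.unusedSectionVars false

universe u v

namespace Pool.Agent.X208.SP

open Module
open Pool.Agent.H914 Pool.Agent.H914.VarClass Pool.Agent.H914.VarClass.Obj
  Pool.Agent.H914.WeilCohomology Pool.Agent.Y133.Half Pool.Agent.Y133.Half.Sys
  Pool.Agent.X208.SQ Pool.Agent.Y132.AF Pool.Agent.Y132.AH

variable {k : Type u} [Field k] {𝒱 : VarClass k} {ops : CycleOps 𝒱}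
  {W : WeilCohomology.{u, 0} ops} {X Y Z : 𝒱.Obj} {Γ : Type} [Group Γ] (G : GaloisData W Γ)
  (Ψ : HodgeData W)

lemma powN_prod (X : 𝒱.Obj) (b : ℕ) : ∀ a, ∃ N, Nonempty ((powN X a).prod (powN X b) ≅ powN X N)
  | 0 => ⟨b + 1, ⟨Iso.refl _⟩⟩
  | a + 1 => by
    obtain ⟨N, ⟨e⟩⟩ := powN_prod X b a
    exact ⟨N + 1, ⟨(assocIso X (powN X a) (powN X b)).trans (prodIso (Iso.refl X) e)⟩⟩

lemma pw_powN (X : 𝒱.Obj) (m : ℕ) : ∀ n, ∃ N, Nonempty (pw (powN X m) n ≅ powN X N)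
  | 0 => ⟨m, ⟨Iso.refl _⟩⟩
  | n + 1 => by
    obtain ⟨N, ⟨e⟩⟩ := pw_powN X m n
    obtain ⟨N', ⟨e'⟩⟩ := powN_prod X m N
    exact ⟨N', ⟨(prodIso e (Iso.refl (powN X m))).trans e'⟩⟩

lemma yp_powN (X : 𝒱.Obj) (m : ℕ) : ∀ n, ∃ N, Nonempty (yp X (powN X m) n ≅ powN X N)
  | 0 => ⟨0, ⟨Iso.refl _⟩⟩
  | n + 1 => by
    obtain ⟨N, ⟨e⟩⟩ := pw_powN X m n
    exact ⟨N + 1, ⟨prodIso (Iso.refl X) e⟩⟩

lemma one_powN (hX : (1 : W.H X) = 0) : ∀ m, (1 : W.H (powN X m)) = 0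
  | 0 => hX
  | m + 1 => by
    have h1 : W.map (Obj.fst X (powN X m)) 1 = 1 := map_one _
    rw [hX, map_zero] at h1
    exact h1.symm

lemma mt_of_zero (h : (1 : W.H X) = 0) : MumfordTate Ψ G X := by
  intro j c
  have h1 : c = 0 := by rw [← mul_one c, h, mul_zero]
  rw [h1]
  exact ⟨fun _ => Submodule.zero_mem _, fun _ => isTate_zero G X j⟩

/-- **The laws and the Mumford-Tate conjecture for all powers.** -/
theorem mt_main [IsAlgClosed W.K] (X : 𝒱.Obj) :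
    (¬ TateInHodge Ψ G X → ∃ c ≤ X.dim, ∀ (Y : 𝒱.Obj) (n j : ℕ),
      stairSum c n j (commonNum Ψ G Y X) ≤ tateNum G Y X n j) ∧
    (¬ HodgeInTate Ψ G X → ∃ c ≤ X.dim, ∀ (Y : 𝒱.Obj) (n j : ℕ),
      stairSum c n j (commonNum Ψ G Y X) ≤ hodgeNum Ψ Y X n j) ∧
    (∀ Y : 𝒱.Obj, (1 : W.H Y) ≠ 0 →
      (PosPart Y X (commonNum Ψ G Y X) (tateNum G Y X) → TateInHodge Ψ G X) ∧
      (PosPart Y X (commonNum Ψ G Y X) (hodgeNum Ψ Y X) → HodgeInTate Ψ G X)) ∧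
    (MumfordTateAll Ψ G X ↔ ∀ m,
      PosPart X (powN X m) (commonNum Ψ G X (powN X m)) (tateNum G X (powN X m)) ∧
      PosPart X (powN X m) (commonNum Ψ G X (powN X m)) (hodgeNum Ψ X (powN X m))) := by
  have key : ∀ X Y : 𝒱.Obj, (1 : W.H Y) ≠ 0 →
      (PosPart Y X (commonNum Ψ G Y X) (tateNum G Y X) → TateInHodge Ψ G X) ∧
      (PosPart Y X (commonNum Ψ G Y X) (hodgeNum Ψ Y X) → HodgeInTate Ψ G X) := by
    intro X Y hY
    constructor
    · rintro ⟨ε, hε, n₀, h⟩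
      exact ((mt_law G Ψ X).2.2 Y hY ε hε n₀).1 h
    · rintro ⟨ε, hε, n₀, h⟩
      exact ((mt_law G Ψ X).2.2 Y hY ε hε n₀).2.1 h
  refine ⟨(mt_law G Ψ X).1, (mt_law G Ψ X).2.1, fun Y hY => key X Y hY, ?_⟩
  constructor
  · intro h m
    have h0 : ∀ n, (∀ j, tateNum G X (powN X m) n j = commonNum Ψ G X (powN X m) n j) ∧
        ∀ j, hodgeNum Ψ X (powN X m) n j = commonNum Ψ G X (powN X m) n j := by
      intro n
      obtain ⟨N, ⟨e⟩⟩ := yp_powN X m n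
      have h1 : MumfordTate Ψ G (yp X (powN X m) n) := mumfordTate_iso G Ψ e.symm (h N)
      obtain ⟨h2, h3⟩ := (mumfordTate_iff G Ψ _).1 h1
      constructor
      · intro j
        rw [tateNum, commonNum]
        congr 1
        ext c
        exact ⟨fun hc => ⟨hc, h2 j c hc⟩, fun hc => hc.1⟩
      · intro j
        rw [hodgeNum_eq, commonNum_eq]
        have h6 : Ns G (hSys Ψ) X (powN X m) n j = Cs (hSys Ψ) X (powN X m) n j := by
          refine le_antisymm inf_le_left fun c hc => ⟨hc, ?_, hc.2⟩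
          have h7 : (hSys Ψ).C (yp X (powN X m) n) ≤ (tSys G).C (yp X (powN X m) n) :=
            (hodge_mem_iff Ψ _).2 fun i c hc => Submodule.subset_span ⟨i, h3 i c hc⟩
          exact h7 hc.1
        rw [h6]
    refine ⟨⟨1, one_pos, 0, fun n _ => ?_⟩, ⟨1, one_pos, 0, fun n _ => ?_⟩⟩
    · rw [one_mul, Nat.cast_le, sumDeg, sumDeg]
      exact Finset.sum_le_sum fun j _ => ((h0 n).1 j).le
    · rw [one_mul, Nat.cast_le, sumDeg, sumDeg]
      exact Finset.sum_le_sum fun j _ => ((h0 n).2 j).le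
  · intro h m
    by_cases hX : (1 : W.H X) = 0
    · exact mt_of_zero G Ψ (one_powN hX m)
    · rw [mumfordTate_iff]
      exact ⟨(key (powN X m) X hX).1 (h m).1, (key (powN X m) X hX).2 (h m).2⟩

end Pool.Agent.X208.SP
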