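import Pool.Agent.X208.SP.MotDefs

/-!
# The classes on `Y × Sym ^ n X` which are Tate classes and combinations of Hodge classes
-/

open CategoryTheory AlgebraicGeometry

universe u

namespace Pool.Agent.X208.SP

open Pool.Agent.H914 Pool.Agent.H914.VarClass Pool.Agent.H914.VarClass.Obj
  Pool.Agent.H914.WeilCohomology Pool.Agent.Y132.AH

variable {k : Type u} [Field k] {𝒱 : VarClass k} {ops : CycleOps 𝒱}

/-- The dimension of the space of the classes of degree `2 j` on `Y × Sym ^ n X` which are Tate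
classes and linear combinations of Hodge classes. -/
noncomputable def commonNum {W : WeilCohomology.{u, 0} ops} (Ψ : HodgeData W) {Γ : Type} [Group Γ]
    (G : GaloisData W Γ) (Y X : 𝒱.Obj) (n j : ℕ) : ℕ :=
  symNum W Y X n {c | IsTate G (yp Y X n) j c ∧
    c ∈ Submodule.span W.K {c | IsHodge Ψ (yp Y X n) j c}}

/-- The sum of the numbers `f (n - i) (j - i c)` over the `i ≤ n` with `i c ≤ j`. -/
def stairSum (c n j : ℕ) (f : ℕ → ℕ → ℕ) : ℕ :=
  ∑ i ∈ (Finset.range (n + 1)).filter (fun i => i * c ≤ j), f (n - i) (j - i * c)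

/-- The numbers `f n j` are a positive part of the numbers `g n j`: for some `ε > 0` and all large
`n` the sum of the `f n j` over `j` is at least `ε` times the sum of the `g n j`. -/
def PosPart (Y X : 𝒱.Obj) (f g : ℕ → ℕ → ℕ) : Prop :=
  ∃ ε : ℝ, 0 < ε ∧ ∃ n₀ : ℕ, ∀ n, n₀ ≤ n →
    ε * (sumDeg Y X n (g n) : ℝ) ≤ sumDeg Y X n (f n)

end Pool.Agent.X208.SP
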