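import Pool.Agent.X208.SP.Gal
import Pool.Agent.X208.SP.MTDefs

/-!
# The law for the Mumford-Tate conjecture
-/

open CategoryTheory AlgebraicGeometry

set_option linter.unusedSectionVars false

universe u v

namespace Pool.Agent.X208.SP

open Module
open Pool.Agent.H914 Pool.Agent.H914.VarClass Pool.Agent.H914.VarClass.Obj
  Pool.Agent.H914.WeilCohomology Pool.Agent.Y133.Half Pool.Agent.Y133.Half.Sys
  Pool.Agent.X208.SQ Pool.Agent.Y132.AF Pool.Agent.Y132.AH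

variable {k : Type u} [Field k] {𝒱 : VarClass k} {ops : CycleOps 𝒱}
  {W : WeilCohomology.{u, 0} ops} {X Y Z : 𝒱.Obj} {Γ : Type} [Group Γ] (G : GaloisData W Γ)
  (Ψ : HodgeData W)

theorem commonNum_eq (Y X : 𝒱.Obj) (n j : ℕ) : commonNum Ψ G Y X n j =
    finrank W.K (Ns G (hSys Ψ) Y X n j) := by
  rw [commonNum, symNum, Set.finrank, Ns]
  have h1 : {c | c ∈ {c | IsTate G (yp Y X n) j c ∧
      c ∈ Submodule.span W.K {c | IsHodge Ψ (yp Y X n) j c}} ∧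
      ∀ σ, W.map (perm Y X n σ) c = c} =
      (Cs (hSys Ψ) Y X n j ⊓ Cs (tSys G) Y X n j : Submodule W.K (W.H (yp Y X n))) := by
    ext c
    constructor
    · rintro ⟨⟨h1, h2⟩, h3⟩
      have h4 : {c | IsHodge Ψ (yp Y X n) j c} ⊆ {c | ∃ j, IsHodge Ψ (yp Y X n) j c} :=
        fun c hc => ⟨j, hc⟩
      exact ⟨⟨Submodule.span_mono h4 h2, h1.1, h3⟩, Submodule.subset_span ⟨j, h1⟩, h1.1, h3⟩
    · rintro ⟨⟨h1, h2, h3⟩, h4, _, _⟩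
      exact ⟨⟨tate_of_mem G h2 h4, span_graded (P := IsHodge Ψ (yp Y X n))
        (fun j c hc => hodge_gr Ψ hc) h2 h1⟩, h3⟩
  rw [h1, Submodule.span_eq]

theorem Ns_swap [IsAlgClosed W.K] (Y X : 𝒱.Obj) (n j : ℕ) :
    Ns (hGal Ψ) (tSys G) Y X n j = Ns G (hSys Ψ) Y X n j := by
  rw [Ns, Ns, inf_comm]
  congr 1
  ext c
  rw [mem_Cs, mem_Cs, tSys_hGal]

theorem finrank_Ns_swap [IsAlgClosed W.K] (Y X : 𝒱.Obj) (n j : ℕ) :
    finrank W.K (Ns (hGal Ψ) (tSys G) Y X n j) = finrank W.K (Ns G (hSys Ψ) Y X n j) := by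
  rw [Ns_swap]

/-- **The law for Tate classes and Hodge classes.** -/
theorem mt_law [IsAlgClosed W.K] (X : 𝒱.Obj) :
    (¬ TateInHodge Ψ G X → ∃ c ≤ X.dim, ∀ (Y : 𝒱.Obj) (n j : ℕ),
      stairSum c n j (commonNum Ψ G Y X) ≤ tateNum G Y X n j) ∧
    (¬ HodgeInTate Ψ G X → ∃ c ≤ X.dim, ∀ (Y : 𝒱.Obj) (n j : ℕ),
      stairSum c n j (commonNum Ψ G Y X) ≤ hodgeNum Ψ Y X n j) ∧
    ∀ Y : 𝒱.Obj, (1 : W.H Y) ≠ 0 → ∀ ε : ℝ, 0 < ε → ∀ n₀ : ℕ,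
      ((∀ n, n₀ ≤ n → ε * (sumDeg Y X n (tateNum G Y X n) : ℝ) ≤
        sumDeg Y X n (commonNum Ψ G Y X n)) → TateInHodge Ψ G X) ∧
      ((∀ n, n₀ ≤ n → ε * (sumDeg Y X n (hodgeNum Ψ Y X n) : ℝ) ≤
        sumDeg Y X n (commonNum Ψ G Y X n)) → HodgeInTate Ψ G X) ∧
      ((∀ n, n₀ ≤ n → ε * (sumDeg Y X n (tateNum G Y X n) : ℝ) ≤
          sumDeg Y X n (commonNum Ψ G Y X n) ∧
        ε * (sumDeg Y X n (hodgeNum Ψ Y X n) : ℝ) ≤
          sumDeg Y X n (commonNum Ψ G Y X n)) → MumfordTate Ψ G X) := by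
  have hc : ∀ Y n j, commonNum Ψ G Y X n j = finrank W.K (Ns G (hSys Ψ) Y X n j) :=
    fun Y n j => commonNum_eq G Ψ Y X n j
  have hin : (tSys G).C X ≤ (tSys (hGal Ψ)).C X → TateInHodge Ψ G X := by
    intro h i c hc
    exact (isTate_hGal Ψ).1 (tate_of_mem _ hc.1 (h (Submodule.subset_span ⟨i, hc⟩)))
  have hin' : (hSys Ψ).C X ≤ (tSys G).C X → HodgeInTate Ψ G X := by
    intro h i c hc
    exact tate_of_mem _ (hodge_gr Ψ hc) (h (Submodule.subset_span ⟨i, hc⟩))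
  have h3 : ∀ Y : 𝒱.Obj, (1 : W.H Y) ≠ 0 → ∀ ε : ℝ, 0 < ε → ∀ n₀ : ℕ,
      (∀ n, n₀ ≤ n → ε * (sumDeg Y X n (tateNum G Y X n) : ℝ) ≤
        sumDeg Y X n (commonNum Ψ G Y X n)) → TateInHodge Ψ G X := by
    intro Y hY ε hε n₀ h
    refine hin (gal_pos (hGal Ψ) (tSys_homog G) hY hε (n₀ := n₀) fun n hn => ?_)
    have h4 := h n hn
    rw [sumDeg, sumDeg] at h4
    simp only [hc, tateNum_eq, Nat.cast_sum] at h4
    rw [tot, Nat.cast_sum]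
    simp only [finrank_Ns_swap]
    exact h4
  have h4 : ∀ Y : 𝒱.Obj, (1 : W.H Y) ≠ 0 → ∀ ε : ℝ, 0 < ε → ∀ n₀ : ℕ,
      (∀ n, n₀ ≤ n → ε * (sumDeg Y X n (hodgeNum Ψ Y X n) : ℝ) ≤
        sumDeg Y X n (commonNum Ψ G Y X n)) → HodgeInTate Ψ G X := by
    intro Y hY ε hε n₀ h
    refine hin' (gal_pos G (hSys_homog Ψ) hY hε (n₀ := n₀) fun n hn => ?_)
    have h4 := h n hn
    rw [sumDeg, sumDeg] at h4
    simp only [hc, hodgeNum_eq, Nat.cast_sum] at h4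
    rw [tot, Nat.cast_sum]
    exact h4
  refine ⟨fun h => ?_, fun h => ?_, fun Y hY ε hε n₀ => ⟨h3 Y hY ε hε n₀, h4 Y hY ε hε n₀,
    fun h => ?_⟩⟩
  · obtain ⟨c, hcX, h1⟩ := gal_exists (hGal Ψ) (tSys_homog G) (fun h' => h (hin h'))
    refine ⟨c, hcX, fun Y n j => ?_⟩
    rw [stairSum, tateNum_eq]
    simp only [hc]
    have h2 := h1 Y n j
    simp only [finrank_Ns_swap] at h2
    exact h2
  · obtain ⟨c, hcX, h1⟩ := gal_exists G (hSys_homog Ψ) (fun h' => h (hin' h'))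
    refine ⟨c, hcX, fun Y n j => ?_⟩
    rw [stairSum, hodgeNum_eq]
    simp only [hc]
    exact h1 Y n j
  · rw [mumfordTate_iff]
    exact ⟨h3 Y hY ε hε n₀ fun n hn => (h n hn).1, h4 Y hY ε hε n₀ fun n hn => (h n hn).2⟩

end Pool.Agent.X208.SP
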