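import Pool.Agent.X208.SP.Geo
import Pool.Agent.Y133.Half.DLaw

/-!
# Symmetric classes
-/

open CategoryTheory AlgebraicGeometry

universe u v

namespace Pool.Agent.X208.SP

open Module
open Pool.Agent.H914 Pool.Agent.H914.VarClass Pool.Agent.H914.VarClass.Obj
  Pool.Agent.H914.WeilCohomology Pool.Agent.Y133.Half Pool.Agent.Y133.Half.Sys
  Pool.Agent.X208.SQ Pool.Agent.H281R3.HT

variable {k : Type u} [Field k] {𝒱 : VarClass k} {ops : CycleOps 𝒱}
  {W : WeilCohomology.{u, v} ops} {X Y Z : 𝒱.Obj}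

/-- The permutation induced on the complement of one index. -/
lemma exists_perm {n : ℕ} (σ : Equiv.Perm (Fin (n + 1))) (i : Fin (n + 1)) :
    ∃ τ : Equiv.Perm (Fin n), ∀ j, σ (i.succAbove j) = (σ i).succAbove (τ j) := by
  have h1 : ∀ j : Fin n, ∃ l : Fin n, (σ i).succAbove l = σ (i.succAbove j) := by
    intro j
    apply Fin.exists_succAbove_eq
    intro h
    exact Fin.succAbove_ne i j (σ.injective h)
  choose τ hτ using h1
  have hinj : Function.Injective τ := by
    intro a b hab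
    have h2 : σ (i.succAbove a) = σ (i.succAbove b) := by rw [← hτ a, ← hτ b, hab]
    exact Fin.succAbove_right_injective (σ.injective h2)
  exact ⟨Equiv.ofBijective τ ((Fintype.bijective_iff_injective_and_card τ).2 ⟨hinj, rfl⟩),
    fun j => (hτ j).symm⟩

/-- The classes of degree `2 j` of the system on `Y × X ^ n` invariant under the permutations. -/
noncomputable def Cs (S : Sys W) (Y X : 𝒱.Obj) (n j : ℕ) : Submodule W.K (W.H (yp Y X n)) where
  carrier := {c | c ∈ S.C (yp Y X n) ∧ c ∈ W.gr (yp Y X n) (2 * j) ∧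
    ∀ σ, W.map (perm Y X n σ) c = c}
  zero_mem' := ⟨Submodule.zero_mem _, Submodule.zero_mem _, fun σ => map_zero _⟩
  add_mem' := by
    rintro a b ⟨h1, h2, h3⟩ ⟨h1', h2', h3'⟩
    exact ⟨Submodule.add_mem _ h1 h1', Submodule.add_mem _ h2 h2', fun σ => by
      rw [map_add, h3, h3']⟩
  smul_mem' := by
    rintro t a ⟨h1, h2, h3⟩
    exact ⟨Submodule.smul_mem _ _ h1, Submodule.smul_mem _ _ h2, fun σ => by
      rw [map_smul, h3]⟩

lemma mem_Cs {S : Sys W} {n j : ℕ} {c : W.H (yp Y X n)} : c ∈ Cs S Y X n j ↔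
    c ∈ S.C (yp Y X n) ∧ c ∈ W.gr (yp Y X n) (2 * j) ∧ ∀ σ, W.map (perm Y X n σ) c = c := Iff.rfl

/-- The sum of the insertions preserves the invariance. -/
lemma TZ_inv (z : W.H X) (n : ℕ) {c : W.H (yp Y X n)} (hc : ∀ σ, W.map (perm Y X n σ) c = c)
    (σ : Equiv.Perm (Fin (n + 1))) :
    W.map (perm Y X (n + 1) σ) (TZ W Y z n c) = TZ W Y z n c := by
  rw [TZ_apply, map_sum, ← Equiv.sum_comp σ
    (fun i => W.map (D Y X i.succAbove) c * W.map (pX Y X (n + 1) i) z)]
  refine Finset.sum_congr rfl fun i _ => ?_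
  obtain ⟨τ, hτ⟩ := exists_perm σ i
  rw [map_mul, ← W.map_comp, ← W.map_comp, perm_eq, D_pX, D_comp]
  have h1 : σ ∘ i.succAbove = (σ i).succAbove ∘ τ := funext hτ
  rw [h1, ← D_comp, W.map_comp]
  have h2 := hc τ
  rw [perm_eq] at h2
  rw [h2]

/-- The sum of the insertions of a numerically trivial class. -/
lemma TZ_mem {S : Sys W} {z : W.H X} (hz : z ∈ S.Num X) {c : ℕ} (hzc : z ∈ W.gr X (2 * c))
    {n j : ℕ} {a : W.H (yp Y X n)} (ha : a ∈ Cs S Y X n j) :
    TZ W Y z n a ∈ Cs S Y X (n + 1) (j + c) ⊓ S.Num (yp Y X (n + 1)) := by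
  have h1 : TZ W Y z n a ∈ S.Num (yp Y X (n + 1)) := by
    rw [TZ_apply]
    exact Submodule.sum_mem _ fun i _ => Num.mul' (S.map _ ha.1) (Num.map _ hz)
  refine ⟨⟨h1.1, ?_, fun σ => TZ_inv z n ha.2.2 σ⟩, h1⟩
  rw [TZ_apply, mul_add]
  exact Submodule.sum_mem _ fun i _ => W.mul_mem (W.map_mem _ ha.2.1) (W.map_mem _ hzc)

lemma finrank_Cs_le {S : Sys W} {z : W.H X} (hz : z ∈ S.Num X) (hz0 : z ≠ 0) {c : ℕ}
    (hzc : z ∈ W.gr X (2 * c)) (Y : 𝒱.Obj) (n j : ℕ) :
    finrank W.K (Cs S Y X n j) ≤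
      finrank W.K (Cs S Y X (n + 1) (j + c) ⊓ S.Num (yp Y X (n + 1)) :
        Submodule W.K (W.H (yp Y X (n + 1)))) := by
  have h1 : (Cs S Y X n j).map (TZ W Y z n) ≤
      Cs S Y X (n + 1) (j + c) ⊓ S.Num (yp Y X (n + 1)) := by
    rintro _ ⟨a, ha, rfl⟩
    exact TZ_mem hz hzc ha
  have h2 := Submodule.finrank_mono h1
  rwa [← (Submodule.equivMapOfInjective _ (TZ_injective (S.even hz.1) hz0 n)
    (Cs S Y X n j)).finrank_eq] at h2

/-- The dimension of the space of the invariant classes modulo the numerically trivial ones. -/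
noncomputable def rs (S : Sys W) (Y X : 𝒱.Obj) (n j : ℕ) : ℕ :=
  finrank W.K (Cs S Y X n j) - finrank W.K (Cs S Y X n j ⊓ S.Num (yp Y X n) :
    Submodule W.K (W.H (yp Y X n)))

/-- **The law for symmetric classes.** -/
theorem sum_rs_le {S : Sys W} {z : W.H X} (hz : z ∈ S.Num X) (hz0 : z ≠ 0) {c : ℕ}
    (hzc : z ∈ W.gr X (2 * c)) (Y : 𝒱.Obj) : ∀ n j : ℕ,
    ∑ i ∈ (Finset.range (n + 1)).filter (fun i => i * c ≤ j), rs S Y X (n - i) (j - i * c) ≤
      finrank W.K (Cs S Y X n j) := by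
  intro n
  induction n with
  | zero =>
    intro j
    have h : (Finset.range (0 + 1)).filter (fun i => i * c ≤ j) = {0} := by
      ext i
      simp only [Finset.mem_filter, Finset.mem_range, Finset.mem_singleton]
      constructor
      · rintro ⟨h, _⟩; omega
      · rintro rfl; simp
    rw [h, Finset.sum_singleton]
    simp only [zero_mul, Nat.sub_zero]
    exact Nat.sub_le _ _
  | succ n ih =>
    intro j
    rw [Finset.sum_filter, Finset.sum_range_succ']
    simp only [zero_mul, Nat.sub_zero, Nat.zero_le, if_true]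
    have hle : finrank W.K (Cs S Y X (n + 1) j ⊓ S.Num (yp Y X (n + 1)) :
        Submodule W.K (W.H (yp Y X (n + 1)))) ≤ finrank W.K (Cs S Y X (n + 1) j) :=
      Submodule.finrank_mono inf_le_left
    by_cases hj : c ≤ j
    · have h1 := ih (j - c)
      have h2 := finrank_Cs_le hz hz0 hzc Y n (j - c)
      rw [Nat.sub_add_cancel hj] at h2
      rw [Finset.sum_filter] at h1
      have h3 : ∑ i ∈ Finset.range (n + 1), (if (i + 1) * c ≤ j then
          rs S Y X (n + 1 - (i + 1)) (j - (i + 1) * c) else 0) =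
          ∑ i ∈ Finset.range (n + 1), (if i * c ≤ j - c then
            rs S Y X (n - i) (j - c - i * c) else 0) := by
        refine Finset.sum_congr rfl fun i _ => ?_
        have e1 : (i + 1) * c ≤ j ↔ i * c ≤ j - c := by
          rw [add_mul, one_mul]
          omega
        have e2 : n + 1 - (i + 1) = n - i := by omega
        have e3 : j - (i + 1) * c = j - c - i * c := by
          rw [add_mul, one_mul]
          omega
        simp only [e1, e2, e3]
      rw [h3]
      have h4 : rs S Y X (n + 1) j = finrank W.K (Cs S Y X (n + 1) j) -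
        finrank W.K (Cs S Y X (n + 1) j ⊓ S.Num (yp Y X (n + 1)) :
          Submodule W.K (W.H (yp Y X (n + 1)))) := rfl
      omega
    · have h3 : ∑ i ∈ Finset.range (n + 1), (if (i + 1) * c ≤ j then
          rs S Y X (n + 1 - (i + 1)) (j - (i + 1) * c) else 0) = 0 := by
        apply Finset.sum_eq_zero
        intro i _
        rw [if_neg]
        rw [add_mul, one_mul]
        omega
      rw [h3, zero_add]
      exact Nat.sub_le _ _

end Pool.Agent.X208.SP
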