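import Pool.Agent.X208.SP.Tr

/-!
# The law for two systems of classes
-/

open CategoryTheory AlgebraicGeometry

universe u v

namespace Pool.Agent.X208.SP

open Module
open Pool.Agent.H914 Pool.Agent.H914.VarClass Pool.Agent.H914.VarClass.Obj
  Pool.Agent.H914.WeilCohomology Pool.Agent.Y133.Half Pool.Agent.Y133.Half.Sys
  Pool.Agent.X208.SQ

variable {k : Type u} [Field k] {𝒱 : VarClass k} {ops : CycleOps 𝒱}
  {W : WeilCohomology.{u, v} ops} {X Y Z : 𝒱.Obj}

/-- The system is stable under the homogeneous components. -/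
def Homog (T : Sys W) : Prop :=
  ∀ (Z : 𝒱.Obj), ∀ c ∈ T.C Z, ∀ j : ℕ, H914.proj (W.isInternal Z) (2 * j) c ∈ T.C Z

lemma tr_proj {Z : 𝒱.Obj} {j j' : ℕ} (hj : j + j' = Z.dim) {s : W.H Z} (hs : s ∈ W.gr Z (2 * j'))
    (y : W.H Z) : W.tr Z (H914.proj (W.isInternal Z) (2 * j) y * s) = W.tr Z (y * s) := by
  refine gr_induction (W.isInternal Z) (p := fun y =>
    W.tr Z (H914.proj (W.isInternal Z) (2 * j) y * s) = W.tr Z (y * s)) ?_ ?_ y
  · intro i a ha
    by_cases hi : i = 2 * j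
    · subst hi
      rw [proj_same _ ha]
    · rw [proj_ne _ ha hi, zero_mul, map_zero, W.tr_eq_zero (W.mul_mem ha hs) (by omega)]
  · intro a b ha hb
    rw [map_add, add_mul, map_add, ha, hb, add_mul, map_add]

lemma one_yp (hY : (1 : W.H Y) = 0) (n : ℕ) : (1 : W.H (yp Y X n)) = 0 := by
  rw [← map_one (W.map (pY Y X n)), hY, map_zero]

/-- The symmetric classes of the smaller system are detected by the ones of the larger system. -/
lemma Cs_nondeg {S T : Sys W} (hST : ∀ Z, S.C Z ≤ T.C Z) (hT : Homog T)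
    (hY : (1 : W.H Y) ≠ 0) (hX : (1 : W.H X) ≠ 0) {n : ℕ} (hnd : Nondeg T (yp Y X n)) {j j' : ℕ}
    (hj : j + j' = (yp Y X n).dim) {s : W.H (yp Y X n)} (hs : s ∈ Cs S Y X n j')
    (h0 : ∀ t ∈ Cs T Y X n j, W.tr (yp Y X n) (t * s) = 0) : s = 0 := by
  apply hnd s (hST _ hs.1)
  intro y hy
  rw [W.even_comm hs.2.1, ← tr_proj hj hs.2.1]
  set y' := H914.proj (W.isInternal (yp Y X n)) (2 * j) y with hy'
  have h1 : y' ∈ T.C (yp Y X n) := hT _ _ hy j
  have h2 : y' ∈ W.gr (yp Y X n) (2 * j) := proj_mem _ _ _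
  have h3 : sy W Y X n y' ∈ Cs T Y X n j := by
    refine ⟨?_, ?_, sy_inv n _⟩
    · rw [sy_apply]
      exact Submodule.sum_mem _ fun σ _ => T.map _ h1
    · rw [sy_apply]
      exact Submodule.sum_mem _ fun σ _ => W.map_mem _ h2
  have h4 := h0 _ h3
  rw [sy_apply, Finset.sum_mul, map_sum] at h4
  have h5 : ∀ σ : Equiv.Perm (Fin n), W.tr (yp Y X n) (W.map (perm Y X n σ) y' * s) =
      W.tr (yp Y X n) (y' * s) := by
    intro σ
    have h6 : W.map (perm Y X n σ) y' * s = W.map (perm Y X n σ) (y' * s) := by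
      rw [map_mul, hs.2.2]
    rw [h6, tr_perm hY hX]
  rw [Finset.sum_congr rfl (fun σ _ => h5 σ), Finset.sum_const, Finset.card_univ,
    Fintype.card_perm, Fintype.card_fin, nsmul_eq_mul] at h4
  exact (mul_eq_zero.1 h4).resolve_left (Nat.cast_ne_zero.2 (Nat.factorial_ne_zero n))

/-- The classes of the larger system orthogonal to the smaller system. -/
noncomputable def Os (S T : Sys W) (Y X : 𝒱.Obj) (n j : ℕ) : Submodule W.K (W.H (yp Y X n)) where
  carrier := {t | t ∈ Cs T Y X n j ∧ ∀ s ∈ S.C (yp Y X n), W.tr (yp Y X n) (t * s) = 0}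
  zero_mem' := ⟨Submodule.zero_mem _, fun s _ => by rw [zero_mul, map_zero]⟩
  add_mem' := by
    rintro a b ⟨h1, h2⟩ ⟨h1', h2'⟩
    exact ⟨Submodule.add_mem _ h1 h1', fun s hs => by rw [add_mul, map_add, h2 s hs, h2' s hs,
      add_zero]⟩
  smul_mem' := by
    rintro r a ⟨h1, h2⟩
    exact ⟨Submodule.smul_mem _ _ h1, fun s hs => by
      rw [smul_mul_assoc, map_smul, h2 s hs, smul_zero]⟩

/-- The pairing of the symmetric classes of the two systems. -/
noncomputable def BS (S T : Sys W) (Y X : 𝒱.Obj) (n j j' : ℕ) :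
    Cs S Y X n j' →ₗ[W.K] Module.Dual W.K (Cs T Y X n j) where
  toFun s := W.tr (yp Y X n) ∘ₗ LinearMap.mulRight W.K (s : W.H (yp Y X n)) ∘ₗ
    (Cs T Y X n j).subtype
  map_add' := by
    intro a b
    ext c
    simp [mul_add]
  map_smul' := by
    intro a b
    ext c
    simp

lemma BS_apply (S T : Sys W) (Y X : 𝒱.Obj) (n j j' : ℕ) (s : Cs S Y X n j') (t : Cs T Y X n j) :
    BS S T Y X n j j' s t = W.tr (yp Y X n) ((t : W.H (yp Y X n)) * (s : W.H (yp Y X n))) := rfl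

/-- The number of the symmetric classes of the larger system. -/
lemma finrank_split {S T : Sys W} (hST : ∀ Z, S.C Z ≤ T.C Z) (hT : Homog T)
    (hY : (1 : W.H Y) ≠ 0) (hX : (1 : W.H X) ≠ 0) {n : ℕ} (hnd : Nondeg T (yp Y X n)) {j j' : ℕ}
    (hj : j + j' = (yp Y X n).dim) :
    finrank W.K (Cs S Y X n j') + finrank W.K (Os S T Y X n j) ≤ finrank W.K (Cs T Y X n j) := by
  have hinj : Function.Injective (BS S T Y X n j j') := by
    rw [injective_iff_map_eq_zero]
    intro s hs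
    apply Subtype.ext
    refine Cs_nondeg hST hT hY hX hnd hj s.2 fun t ht => ?_
    exact congrArg (fun f => f ⟨t, ht⟩) hs
  have h1 : finrank W.K (LinearMap.range (BS S T Y X n j j')) = finrank W.K (Cs S Y X n j') :=
    LinearMap.finrank_range_of_inj hinj
  have h2 := Subspace.finrank_add_finrank_dualCoannihilator_eq
    (LinearMap.range (BS S T Y X n j j'))
  rw [h1] at h2
  have h3 : Os S T Y X n j ≤ (LinearMap.range (BS S T Y X n j j')).dualCoannihilator.map
      (Cs T Y X n j).subtype := by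
    rintro t ⟨ht, ht'⟩
    refine ⟨⟨t, ht⟩, ?_, rfl⟩
    rw [SetLike.mem_coe, Submodule.mem_dualCoannihilator]
    rintro _ ⟨s, rfl⟩
    rw [BS_apply]
    exact ht' _ s.2.1
  have h4 := (Submodule.finrank_mono h3).trans (Submodule.finrank_map_le _ _)
  omega

/-- The insertion of a class orthogonal to the smaller system. -/
lemma TZ_orth {S T : Sys W} (hST : ∀ Z, S.C Z ≤ T.C Z) {z : W.H X} (hz : z ∈ T.C X)
    (hzS : ∀ s ∈ S.C X, W.tr X (z * s) = 0) {c : ℕ} (hzc : z ∈ W.gr X (2 * c)) {n j : ℕ}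
    {a : W.H (yp Y X n)} (ha : a ∈ Cs S Y X n j) :
    TZ W Y z n a ∈ Os S T Y X (n + 1) (j + c) := by
  refine ⟨⟨?_, ?_, fun σ => TZ_inv z n ha.2.2 σ⟩, ?_⟩
  · rw [TZ_apply]
    exact Submodule.sum_mem _ fun i _ => T.mul (T.map _ (hST _ ha.1)) (T.map _ hz)
  · rw [TZ_apply, mul_add]
    exact Submodule.sum_mem _ fun i _ => W.mul_mem (W.map_mem _ ha.2.1) (W.map_mem _ hzc)
  · intro s hs
    rw [TZ_apply, Finset.sum_mul, map_sum]
    apply Finset.sum_eq_zero
    intro i _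
    have h1 : W.map (D Y X i.succAbove) a * s ∈ S.C (yp Y X (n + 1)) :=
      S.mul (S.map _ ha.1) hs
    have h2 := W.tr_push (pX Y X (n + 1) i) (W.map (D Y X i.succAbove) a * s) z
    have h3 : W.map (D Y X i.succAbove) a * W.map (pX Y X (n + 1) i) z * s =
        W.map (D Y X i.succAbove) a * s * W.map (pX Y X (n + 1) i) z := by
      rw [mul_assoc, mul_assoc, PH.even_comm (S.even hs)]
    rw [h3, ← h2, PH.even_comm (S.even (S.push (pX Y X (n + 1) i) h1))]
    exact hzS _ (S.push (pX Y X (n + 1) i) h1)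

/-- **The law for two systems of classes.** -/
theorem pair_law {S T : Sys W} (hST : ∀ Z, S.C Z ≤ T.C Z) (hT : Homog T)
    {z : W.H X} (hz : z ∈ T.C X) (hz0 : z ≠ 0) (hzS : ∀ s ∈ S.C X, W.tr X (z * s) = 0) {c : ℕ}
    (hzc : z ∈ W.gr X (2 * c)) (Y : 𝒱.Obj) {n : ℕ} (hnd : Nondeg T (yp Y X (n + 1))) {j j' : ℕ}
    (hj : j + c + j' = (yp Y X (n + 1)).dim) :
    finrank W.K (Cs S Y X (n + 1) j') + finrank W.K (Cs S Y X n j) ≤
      finrank W.K (Cs T Y X (n + 1) (j + c)) := by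
  by_cases hY : (1 : W.H Y) = 0
  · have h1 : ∀ (m l : ℕ) (R : Sys W), finrank W.K (Cs R Y X m l) = 0 := by
      intro m l R
      have h2 : Cs R Y X m l = ⊥ := by
        rw [eq_bot_iff]
        intro x _
        rw [Submodule.mem_bot, ← mul_one x, one_yp hY m, mul_zero]
      rw [h2, finrank_bot]
    rw [h1, h1, h1]
  have hX : (1 : W.H X) ≠ 0 := by
    intro h
    apply hz0
    rw [← mul_one z, h, mul_zero]
  have h1 := finrank_split hST hT hY hX hnd hj
  have h2 : (Cs S Y X n j).map (TZ W Y z n) ≤ Os S T Y X (n + 1) (j + c) := by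
    rintro _ ⟨a, ha, rfl⟩
    exact TZ_orth hST hz hzS hzc ha
  have h3 := Submodule.finrank_mono h2
  rw [← (Submodule.equivMapOfInjective _ (TZ_injective (T.even hz) hz0 n)
    (Cs S Y X n j)).finrank_eq] at h3
  omega

end Pool.Agent.X208.SP
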