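import Pool.Agent.X208.SP.Pair

/-!
# The number of symmetric classes grows polynomially
-/

open CategoryTheory AlgebraicGeometry

universe u v

namespace Pool.Agent.X208.SP

open Module
open Pool.Agent.H914 Pool.Agent.H914.VarClass Pool.Agent.H914.VarClass.Obj
  Pool.Agent.H914.WeilCohomology Pool.Agent.Y133.Half Pool.Agent.Y133.Half.Sys
  Pool.Agent.X208.SQ

variable {k : Type u} [Field k] {𝒱 : VarClass k} {ops : CycleOps 𝒱}
  {W : WeilCohomology.{u, v} ops} {X Y Z : 𝒱.Obj}

/-- The number of the occurrences of the letters. -/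
def mult {ι : Type} [DecidableEq ι] {n : ℕ} (t : Fin n → ι) (i : ι) : Fin (n + 1) :=
  ⟨(Finset.univ.filter fun l => t l = i).card, by
    have h1 := Finset.card_filter_le (Finset.univ : Finset (Fin n)) (fun l => t l = i)
    rw [Finset.card_univ, Fintype.card_fin] at h1
    omega⟩

lemma exists_perm_of_mult {ι : Type} [DecidableEq ι] {n : ℕ} {t t' : Fin n → ι}
    (h : mult t = mult t') : ∃ σ : Equiv.Perm (Fin n), ∀ l, t (σ l) = t' l := by
  have h1 : ∀ i : ι, Nonempty ({l // t' l = i} ≃ {l // t l = i}) := by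
    intro i
    rw [← Fintype.card_eq, Fintype.card_subtype, Fintype.card_subtype]
    exact (congrArg Fin.val (congrFun h i)).symm
  have e : ∀ i : ι, {l // t' l = i} ≃ {l // t l = i} := fun i => (h1 i).some
  refine ⟨(Equiv.sigmaFiberEquiv t').symm.trans
    ((Equiv.sigmaCongrRight e).trans (Equiv.sigmaFiberEquiv t)), fun l => ?_⟩
  exact (e (t' l) ⟨l, rfl⟩).2

lemma sy_perm (n : ℕ) (c : W.H (yp Y X n)) (σ : Equiv.Perm (Fin n)) :
    sy W Y X n (W.map (perm Y X n σ) c) = sy W Y X n c := by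
  rw [sy_apply, sy_apply, ← Equiv.sum_comp (Equiv.mulRight σ) (fun τ => W.map (perm Y X n τ) c)]
  refine Finset.sum_congr rfl fun τ _ => ?_
  rw [← W.map_comp, ← perm_mul]
  rfl

section Basis

variable {κ ι : Type} [Fintype κ] [Fintype ι] [LinearOrder ι]

omit [Fintype κ] in
lemma sy_bs (f : Basis κ W.K (W.H Y)) (e : Basis ι W.K (W.H X))
    (he : ∀ j, ∃ a, e j ∈ PH W X a) (n : ℕ) (x : κ) {t t' : Fin n → ι}
    (σ : Equiv.Perm (Fin n)) (h : ∀ l, t (σ l) = t' l) :
    ∃ s : W.K, sy W Y X n (bs f e n (x, t')) = s • sy W Y X n (bs f e n (x, t)) := by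
  have h1 : ∃ s : W.K, s ≠ 0 ∧
      (List.ofFn ((fun l => W.map (pX Y X n l) (e (t l))) ∘ σ)).prod =
        s • (List.ofFn fun l => W.map (pX Y X n l) (e (t l))).prod := by
    apply prod_perm (σ.ofFn_comp_perm _)
    intro y hy
    rw [List.mem_ofFn] at hy
    obtain ⟨l, rfl⟩ := hy
    obtain ⟨a, ha⟩ := he (t (σ l))
    exact ⟨a, PH.map _ ha⟩
  obtain ⟨s, _, hs⟩ := h1
  refine ⟨s, ?_⟩
  rw [← sy_perm n (bs f e n (x, t')) σ, bs_apply, map_mul, ← W.map_comp, perm_eq, D_pY,
    map_list_prod, List.map_ofFn]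
  have h2 : (W.map (D Y X σ)) ∘ (fun i => W.map (pX Y X n i) (e ((x, t').2 i))) =
      (fun l => W.map (pX Y X n l) (e (t l))) ∘ σ := by
    funext l
    rw [Function.comp_apply, Function.comp_apply, ← W.map_comp, D_pX]
    rw [h l]
  rw [h2, hs, mul_smul_comm, map_smul, bs_apply]

end Basis

/-- The dimension of a space of invariant classes. -/
theorem finrank_inv_le (n : ℕ) (V : Submodule W.K (W.H (yp Y X n)))
    (hV : ∀ c ∈ V, ∀ σ, W.map (perm Y X n σ) c = c) :
    finrank W.K V ≤ finrank W.K (W.H Y) * (n + 1) ^ finrank W.K (W.H X) := by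
  classical
  obtain ⟨e, he⟩ := exists_hbasis W X
  let f := Module.finBasis W.K (W.H Y)
  let ι := Fin (finrank W.K (W.H X))
  let κ := Fin (finrank W.K (W.H Y))
  let R := Set.range (fun t : Fin n → ι => mult t)
  let g : κ × R → W.H (yp Y X n) := fun x => sy W Y X n (bs f e n (x.1, x.2.2.choose))
  have h1 : V ≤ Submodule.span W.K (Set.range g) := by
    intro c hc
    have h2 : (n.factorial : W.K) ≠ 0 := Nat.cast_ne_zero.2 (Nat.factorial_ne_zero n)
    have h3 : c = (n.factorial : W.K)⁻¹ • sy W Y X n c := by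
      rw [sy_of_inv n (hV c hc), smul_smul, inv_mul_cancel₀ h2, one_smul]
    rw [h3]
    apply Submodule.smul_mem
    have h5 : sy W Y X n c = sy W Y X n (∑ x, (bs f e n).repr c x • bs f e n x) := by
      rw [(bs f e n).sum_repr c]
    rw [h5, map_sum]
    apply Submodule.sum_mem
    rintro ⟨x, t⟩ _
    rw [map_smul]
    apply Submodule.smul_mem
    let r : R := ⟨mult t, t, rfl⟩
    have h4 : mult r.2.choose = mult t := r.2.choose_spec
    obtain ⟨σ, hσ⟩ := exists_perm_of_mult h4
    obtain ⟨s, hs⟩ := sy_bs f e he n x σ hσ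
    rw [hs]
    apply Submodule.smul_mem
    exact Submodule.subset_span ⟨(x, r), rfl⟩
  have h2 := (Submodule.finrank_mono h1).trans (finrank_range_le_card g)
  refine h2.trans ?_
  rw [Fintype.card_prod, Fintype.card_fin]
  apply Nat.mul_le_mul_left
  have h3 : Fintype.card R ≤ Fintype.card (ι → Fin (n + 1)) :=
    Fintype.card_le_of_injective Subtype.val Subtype.val_injective
  rw [Fintype.card_fun, Fintype.card_fin, Fintype.card_fin] at h3
  exact h3

end Pool.Agent.X208.SP
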