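import Pool.Agent.X208.SP.SDefs

/-!
# Symmetric classes with a property: definitions
-/

open CategoryTheory AlgebraicGeometry

universe u v

namespace Pool.Agent.X208.SP

open Pool.Agent.H914 Pool.Agent.H914.VarClass Pool.Agent.H914.VarClass.Obj
  Pool.Agent.H914.WeilCohomology Pool.Agent.Y133.Half

variable {k : Type u} [Field k] {𝒱 : VarClass k} {ops : CycleOps 𝒱}

/-- The dimension of the space spanned by the classes in `P` on `Y × X ^ n` which are invariant under
the permutations of the factors `X`. -/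
noncomputable def invDim (W : WeilCohomology.{u, v} ops) (Y X : 𝒱.Obj) (n : ℕ)
    (P : Set (W.H (yp Y X n))) : ℕ :=
  dimOf W {c | c ∈ P ∧ ∀ σ, W.map (perm Y X n σ) c = c}

/-- For some `ε > 0` and all large `n` the sum of the `f n j` over the codimensions `j` on `Y × X ^ n`
is at least `1 / 2 + ε` times the sum of the `g n j`. -/
def MoreThanHalf (Y X : 𝒱.Obj) (f g : ℕ → ℕ → ℕ) : Prop :=
  ∃ ε : ℝ, 0 < ε ∧ ∃ n₀ : ℕ, ∀ n, n₀ ≤ n →
    (1 / 2 + ε) * ∑ j ∈ Finset.range ((yp Y X n).dim + 1), (g n j : ℝ) ≤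
      ∑ j ∈ Finset.range ((yp Y X n).dim + 1), (f n j : ℝ)

end Pool.Agent.X208.SP
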