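import Pool.Agent.X208.SP.AMain
import Pool.Agent.X208.SP.PredDefs
import Pool.Agent.X312.RL.Pred
import Pool.Agent.Y132.AH.Iso

/-!
# The fifty per cent law for classes with a property
-/

open CategoryTheory AlgebraicGeometry

universe u v

namespace Pool.Agent.X208.SP

open Module
open Pool.Agent.H914 Pool.Agent.H914.VarClass Pool.Agent.H914.VarClass.Obj
  Pool.Agent.H914.WeilCohomology Pool.Agent.Y133.Half Pool.Agent.Y133.Half.Sys
  Pool.Agent.X208.SQ Pool.Agent.H447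

variable {k : Type u} [Field k] {𝒱 : VarClass k} {ops : CycleOps 𝒱}
  {W : WeilCohomology.{u, v} ops} {X Y Z : 𝒱.Obj}

/-- The law of the two numbers, for an arbitrary larger system. -/
theorem law_of_sys {S T : Sys W} (hST : ∀ Z, S.C Z ≤ T.C Z) (hS : Homog S) (hT : Homog T)
    (h : ¬ (T.C X ≤ S.C X ∧ Nondeg S X)) : ∃ c ≤ X.dim, ∀ (Y : 𝒱.Obj) (n j : ℕ),
      rs S Y X (n + 1) (j + c) + finrank W.K (Cs S Y X n j) ≤
        finrank W.K (Cs T Y X (n + 1) (j + c)) := by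
  by_contra hcon
  apply h
  refine eq_of_no_class hST hS hT fun c z hz hzc hzS => ?_
  by_contra hz0
  apply hcon
  refine ⟨c, ?_, fun Y n j => gap_law hST hz hz0 hzS hzc Y n j⟩
  by_contra hc
  rw [W.gr_eq_bot X (2 * c) (by omega)] at hzc
  exact hz0 hzc

variable (Q : ClassPred W)

lemma homog_pred : Homog Q.sys := fun _ _ hc j => ClassPred.sp_of (ClassPred.sp_proj hc j)

lemma pred_of_mem {j : ℕ} {c : W.H X} (hc : c ∈ Q.sys.C X) (hj : c ∈ W.gr X (2 * j)) :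
    Q.P X j c := by
  have h1 := ClassPred.sp_proj hc j
  rwa [proj_same _ hj] at h1

lemma nondeg_alg_iff (X : 𝒱.Obj) : Nondeg (algSys W) X ↔ HomEqNum W X := by
  rw [homEqNum_iff, eq_bot_iff]
  constructor
  · intro h x hx
    exact (Submodule.mem_bot _).2 (h x hx.1 hx.2)
  · intro h x hx hx'
    exact (Submodule.mem_bot _).1 (h ⟨hx, hx'⟩)

lemma pred_le_iff (X : 𝒱.Obj) : Q.sys.C X ≤ (algSys W).C X ↔
    ∀ j c, Q.P X j c → c ∈ spanCycles W X j := by
  constructor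
  · intro h j c hc
    exact spanCycles_of_algSpan (h (ClassPred.sp_of hc)) (Q.gr hc)
  · intro h c hc
    refine ClassPred.sp_ind (q := fun c => c ∈ (algSys W).C X) ?_ ?_ ?_ hc
    · intro j x hx
      exact Pool.Agent.Y129.span_le_algSpan j (h j x hx)
    · exact Submodule.zero_mem _
    · intro a b ha hb; exact Submodule.add_mem _ ha hb

theorem invDim_eq (Y X : 𝒱.Obj) (n j : ℕ) :
    invDim W Y X n {c | Q.P (yp Y X n) j c} = finrank W.K (Cs Q.sys Y X n j) := by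
  have h1 : {c | c ∈ {c | Q.P (yp Y X n) j c} ∧ ∀ σ, W.map (perm Y X n σ) c = c} =
      (Cs Q.sys Y X n j : Set (W.H (yp Y X n))) := by
    ext c
    constructor
    · rintro ⟨h1, h2⟩
      exact ⟨ClassPred.sp_of h1, Q.gr h1, h2⟩
    · rintro ⟨h1, h2, h3⟩
      exact ⟨pred_of_mem Q h1 h2, h3⟩
  rw [invDim, h1]
  change finrank W.K (Submodule.span W.K (Cs Q.sys Y X n j : Set (W.H (yp Y X n)))) = _
  rw [Submodule.span_eq]

/-- **The law for classes with a property.** -/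
theorem pred_law (X : 𝒱.Obj) :
    (¬ ((∀ j c, Q.P X j c → c ∈ spanCycles W X j) ∧ HomEqNum W X) →
      ∃ c ≤ X.dim, ∀ (Y : 𝒱.Obj) (n j : ℕ),
        symRank ops Y X (n + 1) (j + c) + symDim W Y X n j ≤
          invDim W Y X (n + 1) {x | Q.P (yp Y X (n + 1)) (j + c) x}) ∧
    ∀ Y : 𝒱.Obj, (1 : W.H Y) ≠ 0 →
      MoreThanHalf Y X (symRank ops Y X) (fun n j => invDim W Y X n {x | Q.P (yp Y X n) j x}) →
      (∀ j c, Q.P X j c → c ∈ spanCycles W X j) ∧ HomEqNum W X := by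
  constructor
  · intro h
    obtain ⟨c, hc, h1⟩ := law_of_sys (S := algSys W) (T := Q.sys) (X := X)
      (fun _ => ClassPred.alg_le) homog_alg (homog_pred Q) (fun h' => h
        ⟨(pred_le_iff Q X).1 h'.1, (nondeg_alg_iff X).1 h'.2⟩)
    refine ⟨c, hc, fun Y n j => ?_⟩
    rw [invDim_eq, symDim_eq, symRank_eq W]
    exact h1 Y n j
  · rintro Y hY ⟨ε, hε, n₀, h⟩
    have h2 := fifty' (S := algSys W) (T := Q.sys) (X := X) (Y := Y) (fun _ => ClassPred.alg_le)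
      homog_alg (homog_pred Q) hY hε (n₀ := n₀) fun n hn => by
        have h1 := h n hn
        rw [cast_totr] at h1
        rw [tot]
        push_cast
        simp only [invDim_eq] at h1
        exact h1
    exact ⟨(pred_le_iff Q X).1 h2.1, (nondeg_alg_iff X).1 h2.2⟩

section Pow

lemma one_pw (hX : (1 : W.H X) = 0) : ∀ m, (1 : W.H (Pool.Agent.Y133.Half.pw X m)) = 0
  | 0 => hX
  | m + 1 => by
    have h1 : W.map (Obj.snd (Pool.Agent.Y133.Half.pw X m) X) 1 = 1 := map_one _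
    rw [hX, map_zero] at h1
    exact h1.symm

lemma pw_prod (X : 𝒱.Obj) (a : ℕ) : ∀ b, ∃ N, Nonempty
    ((Pool.Agent.Y133.Half.pw X a).prod (Pool.Agent.Y133.Half.pw X b) ≅
      Pool.Agent.Y133.Half.pw X N)
  | 0 => ⟨a + 1, ⟨Iso.refl _⟩⟩
  | b + 1 => by
    obtain ⟨N, ⟨e⟩⟩ := pw_prod X a b
    exact ⟨N + 1, ⟨(Pool.Agent.Y132.AH.assocIso _ _ _).symm.trans
      (Pool.Agent.Y132.AH.prodIso e (Iso.refl X))⟩⟩

lemma pw_pw (X : 𝒱.Obj) (m : ℕ) : ∀ n, ∃ N, Nonempty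
    (Pool.Agent.Y133.Half.pw (Pool.Agent.Y133.Half.pw X m) n ≅ Pool.Agent.Y133.Half.pw X N)
  | 0 => ⟨m, ⟨Iso.refl _⟩⟩
  | n + 1 => by
    obtain ⟨N, ⟨e⟩⟩ := pw_pw X m n
    obtain ⟨N', ⟨e'⟩⟩ := pw_prod X N m
    exact ⟨N', ⟨(Pool.Agent.Y132.AH.prodIso e (Iso.refl _)).trans e'⟩⟩

lemma yp_pw (X : 𝒱.Obj) (m : ℕ) : ∀ n, ∃ N, Nonempty
    (yp X (Pool.Agent.Y133.Half.pw X m) n ≅ Pool.Agent.Y133.Half.pw X N)
  | 0 => ⟨0, ⟨Iso.refl _⟩⟩
  | n + 1 => by
    obtain ⟨N, ⟨e⟩⟩ := pw_pw X m n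
    obtain ⟨N', ⟨e'⟩⟩ := pw_prod X 0 N
    exact ⟨N', ⟨(Pool.Agent.Y132.AH.prodIso (Iso.refl X) e).trans e'⟩⟩

lemma alg_of_iso {A B : 𝒱.Obj} (e : A ≅ B) (h : Q.sys.C B ≤ (algSys W).C B) :
    Q.sys.C A ≤ (algSys W).C A := by
  intro c hc
  have h1 : W.map e.hom (W.map e.inv c) = c := by
    rw [← W.map_comp, e.hom_inv_id, W.map_id]
  rw [← h1]
  exact (algSys W).map e.hom (h (Q.sys.map e.inv hc))

/-- **The law for all powers.** -/
theorem pred_all (X : 𝒱.Obj) :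
    (∀ n, (∀ j c, Q.P (Pool.Agent.Y133.Half.pw X n) j c →
        c ∈ spanCycles W (Pool.Agent.Y133.Half.pw X n) j) ∧
      HomEqNum W (Pool.Agent.Y133.Half.pw X n)) ↔
    ∀ m, MoreThanHalf X (Pool.Agent.Y133.Half.pw X m)
      (symRank ops X (Pool.Agent.Y133.Half.pw X m))
      (fun n j => invDim W X (Pool.Agent.Y133.Half.pw X m) n
        {x | Q.P (yp X (Pool.Agent.Y133.Half.pw X m) n) j x}) := by
  constructor
  · intro h m
    refine ⟨1 / 2, by norm_num, 0, fun n _ => ?_⟩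
    obtain ⟨N, ⟨e⟩⟩ := yp_pw X m n
    have h1 := alg_of_iso Q e ((pred_le_iff Q _).2 (h N).1)
    have h2 : Nondeg (algSys W) (yp X (Pool.Agent.Y133.Half.pw X m) n) :=
      (nondeg_alg_iff _).2 ((homEqNum_iso e).2 (h N).2)
    have h3 : ∀ j, (invDim W X (Pool.Agent.Y133.Half.pw X m) n
        {x | Q.P (yp X (Pool.Agent.Y133.Half.pw X m) n) j x}) =
        symRank ops X (Pool.Agent.Y133.Half.pw X m) n j := by
      intro j
      rw [invDim_eq, symRank_eq W, rs]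
      have h4 : Cs (algSys W) X (Pool.Agent.Y133.Half.pw X m) n j ⊓
          (algSys W).Num (yp X (Pool.Agent.Y133.Half.pw X m) n) = ⊥ := by
        rw [eq_bot_iff]
        rintro c ⟨_, hc⟩
        exact h2 c hc.1 hc.2
      have h5 : Cs Q.sys X (Pool.Agent.Y133.Half.pw X m) n j =
          Cs (algSys W) X (Pool.Agent.Y133.Half.pw X m) n j := by
        apply le_antisymm
        · exact fun c hc => ⟨h1 hc.1, hc.2⟩
        · exact Cs_mono (fun _ => ClassPred.alg_le) n j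
      rw [h4, finrank_bot, Nat.sub_zero, h5]
    rw [show (1 / 2 + 1 / 2 : ℝ) = 1 by norm_num, one_mul]
    exact le_of_eq (Finset.sum_congr rfl fun j _ => congrArg (Nat.cast (R := ℝ)) (h3 j))
  · intro h m
    by_cases hX : (1 : W.H X) = 0
    · have h1 : ∀ c : W.H (Pool.Agent.Y133.Half.pw X m), c = 0 := fun c => by
        rw [← mul_one c, one_pw hX m, mul_zero]
      refine ⟨fun j c _ => ?_, (nondeg_alg_iff _).1 fun c _ _ => h1 c⟩
      rw [h1 c]
      exact Submodule.zero_mem _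
    · exact (pred_law Q _).2 X hX (h m)

end Pow

end Pool.Agent.X208.SP
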