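import Pool.Agent.X208.SP.Gal
import Pool.Agent.X208.SP.Deg

/-!
# Semisimplicity and the pairing on the Tate classes
-/

open CategoryTheory AlgebraicGeometry

set_option linter.unusedSectionVars false

universe u v

namespace Pool.Agent.X208.SP

section Lin

open Polynomial Module.End

variable {K V : Type*} [Field K] [CharZero K] [AddCommGroup V] [Module K V] [FiniteDimensional K V]

/-- An invertible operator is semisimple if a power is. -/
theorem semisimple_of_pow {F : Module.End K V} (hF : Function.Injective F) {m : ℕ} (hm : 0 < m)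
    (h : (F ^ m).IsSemisimple) : F.IsSemisimple := by
  set p := minpoly K (F ^ m) with hp
  have hsep : p.Separable := PerfectField.separable_iff_squarefree.2 h.minpoly_squarefree
  have hinj : Function.Injective (F ^ m) := by
    rw [Module.End.coe_pow]
    exact hF.iterate m
  have hroot : ¬ p.IsRoot 0 := by
    intro h0
    have h1 := hasEigenvalue_of_isRoot h0
    obtain ⟨x, hx⟩ := h1.exists_hasEigenvector
    apply hx.2
    apply hinj
    rw [map_zero, hx.apply_eq_smul, zero_smul]
  have hXp : IsCoprime (X : K[X]) p := by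
    have h1 : Irreducible (X : K[X]) := irreducible_X
    refine (Irreducible.coprime_iff_not_dvd h1).2 ?_
    intro h2
    apply hroot
    rw [X_dvd_iff, coeff_zero_eq_eval_zero] at h2
    exact h2
  have h1 : IsCoprime (expand K m p) (expand K m (derivative p)) :=
    IsCoprime.map hsep (expand K m).toRingHom
  have h2 : IsCoprime (X ^ m : K[X]) (expand K m p) := by
    have h3 := IsCoprime.map hXp (expand K m).toRingHom
    have h4 : (expand K m).toRingHom (X : K[X]) = X ^ m := expand_X m
    rw [h4] at h3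
    exact h3
  have h3 : IsCoprime (X : K[X]) (expand K m p) := by
    have h4 : (X : K[X]) ∣ X ^ m := dvd_pow_self _ hm.ne'
    exact h2.of_isCoprime_of_dvd_left h4
  have h4 : (expand K m p).Separable := by
    rw [Polynomial.Separable, derivative_expand]
    refine IsCoprime.mul_right h1 ?_
    refine IsCoprime.mul_right ?_ (h3.symm.pow_right)
    have h5 : IsUnit ((m : K[X])) := by
      have h6 : ((m : ℕ) : K[X]) = C (m : K) := (C_eq_natCast m).symm
      rw [h6]
      exact isUnit_C.2 (isUnit_iff_ne_zero.2 (Nat.cast_ne_zero.2 hm.ne'))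
    obtain ⟨u, hu⟩ := h5
    refine ⟨0, (u⁻¹ : (K[X])ˣ), ?_⟩
    rw [zero_mul, zero_add, ← hu, Units.inv_mul]
  refine isSemisimple_of_squarefree_aeval_eq_zero h4.squarefree ?_
  rw [expand_aeval]
  exact minpoly.aeval _ _

end Lin

open Module
open Pool.Agent.H914 Pool.Agent.H914.VarClass Pool.Agent.H914.VarClass.Obj
  Pool.Agent.H914.WeilCohomology Pool.Agent.Y133.Half Pool.Agent.Y133.Half.Sys
  Pool.Agent.X208.SQ Pool.Agent.Y132.AF Pool.Agent.Y132.AH

variable {k : Type u} [Field k] {𝒱 : VarClass k} {ops : CycleOps 𝒱}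

section Corr

variable {W : WeilCohomology.{u, v} ops} {X Y Z : 𝒱.Obj}

/-- Every operator is given by a class. -/
lemma corr_surj (f : W.H X →ₗ[W.K] W.H Y) : ∃ c, W.corr c = f := by
  have h1 : finrank W.K (W.H (X.prod Y)) = finrank W.K (W.H X →ₗ[W.K] W.H Y) := by
    rw [Pool.Agent.Y129.finrank_prod, Module.finrank_linearMap]
  have h2 := (LinearMap.injective_iff_surjective_of_finrank_eq_finrank h1
    (f := Pool.Agent.W534.corrL W X Y)).1 Pool.Agent.W534.corrL_injective f
  obtain ⟨c, hc⟩ := h2
  exact ⟨c, hc⟩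

lemma corr_injective {c d : W.H (X.prod Y)} (h : W.corr c = W.corr d) : c = d :=
  Pool.Agent.W534.corrL_injective h

/-- The class of an operator of degree zero. -/
lemma gr_of_corr {c : W.H (X.prod X)} (h : ∀ i, ∀ a ∈ W.gr X i, W.corr c a ∈ W.gr X i) :
    c ∈ W.gr (X.prod X) (2 * X.dim) := by
  set c' := H914.proj (W.isInternal (X.prod X)) (2 * X.dim) c with hc'
  have hmem : c' ∈ W.gr (X.prod X) (2 * X.dim) := proj_mem _ _ _
  have h1 : c - c' = 0 := by
    apply W.nondeg
    refine W.kunneth_induction (p := fun x => W.tr (X.prod X) ((c - c') * x) = 0) ?_ ?_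
    · intro a b ha hb
      rw [mul_add, map_add, ha, hb, add_zero]
    · intro i j a ha b hb
      have hab : W.map (fst X X) a * W.map (snd X X) b ∈ W.gr (X.prod X) (i + j) :=
        W.mul_mem (W.map_mem _ ha) (W.map_mem _ hb)
      rw [sub_mul, map_sub, sub_eq_zero]
      by_cases hij : i + j = 2 * X.dim
      · have h2 := tr_proj (W := W) (Z := X.prod X) (j := X.dim) (j' := X.dim)
          (by rw [dim_prod]) (s := W.map (fst X X) a * W.map (snd X X) b)
          (by rw [← hij]; exact hab) c
        exact h2.symm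
      · have h2 : W.tr (X.prod X) (c' * (W.map (fst X X) a * W.map (snd X X) b)) = 0 :=
          W.tr_eq_zero (W.mul_mem hmem hab) (by rw [dim_prod]; omega)
        rw [h2, ← mul_assoc, ← W.tr_push, ← corr_apply]
        exact W.tr_eq_zero (W.mul_mem (h i a ha) hb) (by omega)
  rw [← sub_eq_zero.1 h1] at hmem
  exact hmem

end Corr

variable {W : WeilCohomology.{u, 0} ops} {X Y Z : 𝒱.Obj} {Γ : Type} [Group Γ] (G : GaloisData W Γ)

/-- The push-forward of a conjugate. -/
lemma act_push (h : Γ) {X Y : 𝒱.Obj} (f : X ⟶ Y) (a : W.H X) :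
    (G.χ h : W.K) ^ X.dim • G.act Y h (W.push f a) =
      (G.χ h : W.K) ^ Y.dim • W.push f (G.act X h a) := by
  rw [← sub_eq_zero]
  apply W.nondeg
  intro b
  have hinv : ∀ (V : 𝒱.Obj) (b : W.H V), G.act V h (G.act V h⁻¹ b) = b := fun V b => by
    rw [← AlgEquiv.mul_apply, ← map_mul, mul_inv_cancel, map_one, AlgEquiv.one_apply]
  have e1 : W.tr Y (G.act Y h (W.push f a) * b) =
      (G.χ h : W.K) ^ Y.dim * W.tr X (a * W.map f (G.act Y h⁻¹ b)) := by
    conv_lhs => rw [← hinv Y b]
    rw [← map_mul, (G.galois Y).tr_act, W.tr_push]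
  have e2 : (G.χ h : W.K) ^ X.dim * W.tr X (a * W.map f (G.act Y h⁻¹ b)) =
      W.tr X (G.act X h a * W.map f b) := by
    rw [← (G.galois X).tr_act h, map_mul, ← G.map f h⁻¹ b, hinv]
  rw [sub_mul, map_sub, smul_mul_assoc, smul_mul_assoc, map_smul, map_smul, smul_eq_mul,
    smul_eq_mul, e1, W.tr_push, ← e2]
  ring

/-- The operator of a conjugate. -/
lemma corr_act (h : Γ) (c : W.H (X.prod X)) (x : W.H X) :
    W.corr (G.act _ h c) (G.act X h x) = (G.χ h : W.K) ^ X.dim • G.act X h (W.corr c x) := by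
  rw [corr_apply, corr_apply]
  have h1 := act_push G h (snd X X) (c * W.map (fst X X) x)
  rw [dim_prod, pow_add, mul_smul, map_mul (G.act (X.prod X) h)] at h1
  have h2 : (G.χ h : W.K) ^ X.dim ≠ 0 := pow_ne_zero _ (Units.ne_zero _)
  have h3 := smul_right_injective (W.H X) h2 h1
  rw [← G.map (fst X X) h x]
  exact h3.symm

/-- A level for the Tate classes of degree `2 j`. -/
lemma exists_level (Z : 𝒱.Obj) (j : ℕ) : ∃ Δ : Subgroup Γ, Δ.FiniteIndex ∧
    ∀ h ∈ Δ, ∀ c ∈ Cg (tSys G) Z j, G.act Z h c = (G.χ h : W.K) ^ j • c := by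
  obtain ⟨s, hs⟩ : (Cg (tSys G) Z j).FG := IsNoetherian.noetherian _
  have h1 : ∀ c ∈ s, IsTate G Z j c := by
    intro c hc
    have h2 : c ∈ Cg (tSys G) Z j := by
      rw [← hs]
      exact Submodule.subset_span hc
    exact tate_of_mem G h2.2 h2.1
  have h2 : ∀ t : Finset (W.H Z), (∀ c ∈ t, IsTate G Z j c) → ∃ Δ : Subgroup Γ, Δ.FiniteIndex ∧
      ∀ h ∈ Δ, ∀ c ∈ t, G.act Z h c = (G.χ h : W.K) ^ j • c := by
    classical
    intro t
    induction t using Finset.induction_on with
    | empty => exact fun _ => ⟨⊤, inferInstance, fun _ _ c hc => absurd hc (Finset.notMem_empty c)⟩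
    | insert a t ha ih =>
      intro ht
      obtain ⟨Δ, hΔ, h3⟩ := ih fun c hc => ht c (Finset.mem_insert_of_mem hc)
      obtain ⟨_, Δ', hΔ', h4⟩ := ht a (Finset.mem_insert_self a t)
      refine ⟨Δ ⊓ Δ', inferInstance, fun h hh c hc => ?_⟩
      rcases Finset.mem_insert.1 hc with rfl | hc
      · exact h4 h hh.2
      · exact h3 h hh.1 c hc
  obtain ⟨Δ, hΔ, h3⟩ := h2 s h1
  refine ⟨Δ, hΔ, fun h hh c hc => ?_⟩
  rw [← hs] at hc
  induction hc using Submodule.span_induction with
  | mem x hx => exact h3 h hh x hx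
  | zero => rw [map_zero, smul_zero]
  | add x y _ _ hx hy => rw [map_add, hx, hy, smul_add]
  | smul r x _ hx => rw [map_smul, hx, smul_comm]

/-- The operator given by the element `h` on the cohomology of `X`. -/
noncomputable def opF (X : 𝒱.Obj) (h : Γ) : Module.End W.K (W.H X) :=
  (G.act X h).toLinearMap

lemma opF_apply (h : Γ) (x : W.H X) : opF G X h x = G.act X h x := rfl

lemma opF_mul (g h : Γ) : opF G X (g * h) = opF G X g * opF G X h := by
  apply LinearMap.ext
  intro x
  rw [Module.End.mul_apply, opF_apply, opF_apply, opF_apply, map_mul, AlgEquiv.mul_apply]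

lemma opF_pow (g : Γ) (m : ℕ) : opF G X (g ^ m) = opF G X g ^ m := by
  induction m with
  | zero =>
    apply LinearMap.ext
    intro x
    rw [pow_zero, pow_zero, opF_apply, map_one]
    rfl
  | succ m ih => rw [pow_succ, pow_succ, opF_mul, ih]

/-- The class of an operator which commutes with `h`. -/
lemma act_of_commute (h : Γ) {c : W.H (X.prod X)} (hc : Commute (opF G X h) (W.corr c)) :
    G.act _ h c = (G.χ h : W.K) ^ X.dim • c := by
  apply corr_injective
  apply LinearMap.ext
  intro x
  obtain ⟨y, rfl⟩ := (G.act X h).surjective x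
  rw [corr_act, corr_smul, LinearMap.smul_apply]
  congr 1
  exact congrArg (fun f : Module.End W.K (W.H X) => f y) hc.eq

lemma commute_of_act (h : Γ) {c : W.H (X.prod X)}
    (hc : G.act _ h c = (G.χ h : W.K) ^ X.dim • c) : Commute (opF G X h) (W.corr c) := by
  apply LinearMap.ext
  intro x
  have h1 := corr_act G h c x
  rw [hc, corr_smul, LinearMap.smul_apply] at h1
  have h2 : (G.χ h : W.K) ^ X.dim ≠ 0 := pow_ne_zero _ (Units.ne_zero _)
  exact (smul_right_injective (W.H X) h2 h1).symm

/-- **A Tate class orthogonal to all Tate classes.** -/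
theorem exists_tate_num {g : Γ} (hg : ∀ h : Γ, h ∈ Subgroup.zpowers g)
    (hss : ¬ (opF G X g).IsSemisimple) :
    ∃ z ∈ (tSys G).Num (X.prod X), z ≠ 0 ∧ z ∈ W.gr (X.prod X) (2 * X.dim) := by
  obtain ⟨Δ, hΔ, hlev⟩ := exists_level G (X.prod X) X.dim
  set m := Δ.index.factorial with hm
  have hm0 : 0 < m := Nat.factorial_pos _
  have hgm : g ^ m ∈ Δ := Subgroup.pow_mem_of_index_ne_zero_of_dvd hΔ.index_ne_zero _
    fun a ha ha' => Nat.dvd_factorial ha ha'
  set F := opF G X (g ^ m) with hF
  have hFss : ¬ F.IsSemisimple := by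
    intro h
    apply hss
    rw [hF, opF_pow] at h
    exact semisimple_of_pow (G.act X g).injective hm0 h
  obtain ⟨n, hn, s, hs, hnil, hsem, hns⟩ := F.exists_isNilpotent_isSemisimple
  have hn0 : n ≠ 0 := by
    rintro rfl
    rw [zero_add] at hns
    rw [hns] at hFss
    exact hFss hsem
  obtain ⟨z, hz⟩ := corr_surj (W := W) (X := X) (Y := X) n
  have hadj : ∀ A : Module.End W.K (W.H X), Commute F A → Commute n A := by
    intro A hA
    have h1 : ∀ x ∈ Algebra.adjoin W.K {F}, Commute x A := by
      intro x hx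
      induction hx using Algebra.adjoin_induction with
      | mem x hx => rw [Set.mem_singleton_iff.1 hx]; exact hA
      | algebraMap r => exact Algebra.commutes r A
      | add x y _ _ hx hy => exact hx.add_left hy
      | mul x y _ _ hx hy => exact hx.mul_left hy
    exact h1 n hn
  have hz0 : z ≠ 0 := by
    rintro rfl
    rw [corr_zero] at hz
    exact hn0 hz.symm
  have hgr : z ∈ W.gr (X.prod X) (2 * X.dim) := by
    apply gr_of_corr
    rw [hz]
    have h1 : ∀ x ∈ Algebra.adjoin W.K {F}, ∀ i, ∀ a ∈ W.gr X i, x a ∈ W.gr X i := by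
      intro x hx
      induction hx using Algebra.adjoin_induction with
      | mem x hx =>
        rw [Set.mem_singleton_iff.1 hx]
        exact fun i a ha => (G.galois X).gr_mem _ i a ha
      | algebraMap r => exact fun i a ha => Submodule.smul_mem _ r ha
      | add x y _ _ hx hy => exact fun i a ha => Submodule.add_mem _ (hx i a ha) (hy i a ha)
      | mul x y _ _ hx hy => exact fun i a ha => hx i _ (hy i a ha)
    exact h1 n hn
  have htate : IsTate G (X.prod X) X.dim z := by
    refine ⟨hgr, ⊤, inferInstance, fun h _ => ?_⟩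
    apply act_of_commute
    rw [hz]
    refine (hadj _ ?_).symm
    obtain ⟨a, rfl⟩ := hg h
    rw [hF]
    have h1 : g ^ m * g ^ a = g ^ a * g ^ m := by
      rw [← zpow_natCast, ← zpow_add, ← zpow_add, add_comm]
    change opF G X (g ^ m) * opF G X (g ^ a) = opF G X (g ^ a) * opF G X (g ^ m)
    rw [← opF_mul, ← opF_mul, h1]
  have hzC : z ∈ (tSys G).C (X.prod X) := Submodule.subset_span ⟨X.dim, htate⟩
  refine ⟨z, mem_Num_of_compl (tSys_homog G) (c := X.dim) (c' := X.dim) (by rw [dim_prod]) hzC hgr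
    fun t ht => ?_, hz0, hgr⟩
  have hsw : W.map (swap X X) t ∈ Cg (tSys G) (X.prod X) X.dim :=
    ⟨(tSys G).map _ ht.1, W.map_mem _ ht.2⟩
  have h1 := st_corr (W := W) (X := X) z (W.map (swap X X) t)
  rw [swap_swap] at h1
  rw [← h1]
  have h2 : Commute F (W.corr (W.map (swap X X) t)) :=
    commute_of_act G (g ^ m) (hlev _ hgm _ hsw)
  have h3 : Commute (W.corr z) (W.corr (W.map (swap X X) t)) := by
    rw [hz]
    exact hadj _ h2
  refine st_nil ?_ (h3.isNilpotent_mul_right ?_)
  · exact Pool.Agent.Y133.Half.Ev.comp (Pool.Agent.Y133.Half.Ev.corr ((tSys G).even hzC))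
      (Pool.Agent.Y133.Half.Ev.corr ((tSys G).even hsw.1))
  · rw [hz]
    exact hnil

end Pool.Agent.X208.SP
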