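import Pool.Agent.X208.SP.MTDefs

/-!
# The pairing on the Tate classes on `Y × Sym ^ n X`
-/

open CategoryTheory AlgebraicGeometry

universe u

namespace Pool.Agent.X208.SP

open Pool.Agent.H914 Pool.Agent.H914.VarClass Pool.Agent.H914.VarClass.Obj
  Pool.Agent.H914.WeilCohomology Pool.Agent.Y132.AH

variable {k : Type u} [Field k] {𝒱 : VarClass k} {ops : CycleOps 𝒱}

/-- The rank of the intersection pairing between the Tate classes of degree `2 j` on `Y × Sym ^ n X`
and all Tate classes: the dimension of the space of the Tate classes of degree `2 j` modulo the ones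
whose products with all Tate classes have degree zero. -/
noncomputable def tateRank {W : WeilCohomology.{u, 0} ops} {Γ : Type} [Group Γ]
    (G : GaloisData W Γ) (Y X : 𝒱.Obj) (n j : ℕ) : ℕ :=
  tateNum G Y X n j - symNum W Y X n {c | IsTate G (yp Y X n) j c ∧
    ∀ i d, IsTate G (yp Y X n) i d → W.tr (yp Y X n) (c * d) = 0}

/-- The element `g` acts semisimply on the cohomology of `X`. -/
def ActsSemisimply {W : WeilCohomology.{u, 0} ops} {Γ : Type} [Group Γ]
    (G : GaloisData W Γ) (g : Γ) (X : 𝒱.Obj) : Prop :=
  Module.End.IsSemisimple (M := W.H X) (G.act X g).toLinearMap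

end Pool.Agent.X208.SP
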