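import Pool.Agent.X208.SP.Semi
import Pool.Agent.X208.SP.SemiDefs
import Pool.Agent.Y133.Half.TateSS

/-!
# Semisimplicity: the law
-/

open CategoryTheory AlgebraicGeometry

set_option linter.unusedSectionVars false

universe u v

namespace Pool.Agent.X208.SP

open Module
open Pool.Agent.H914 Pool.Agent.H914.VarClass Pool.Agent.H914.VarClass.Obj
  Pool.Agent.H914.WeilCohomology Pool.Agent.Y133.Half Pool.Agent.Y133.Half.Sys
  Pool.Agent.X208.SQ Pool.Agent.Y132.AF Pool.Agent.Y132.AH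

variable {k : Type u} [Field k] {𝒱 : VarClass k} {ops : CycleOps 𝒱}
  {W : WeilCohomology.{u, 0} ops} {X Y Z : 𝒱.Obj} {Γ : Type} [Group Γ] (G : GaloisData W Γ)

/-- A class fixed by the twisted action of a power of the generator is a Tate class. -/
lemma tate_of_pow {g : Γ} (hg : ∀ h : Γ, h ∈ Subgroup.zpowers g) {m : ℕ} (hm : 0 < m) {c : ℕ}
    {a : W.H Z} (ha : a ∈ W.gr Z (2 * c)) (h : twist G c (g ^ m) a = a) : IsTate G Z c a := by
  by_contra hcon
  have h1 := infinite_twist G ha hcon ⊤ inferInstance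
  apply h1
  have h2 : ∀ q : ℤ, twist G c ((g ^ m) ^ q) a = a := by
    let _ : MulAction Γ (W.H Z) := twMul G Z c
    intro q
    have h3 : g ^ m ∈ MulAction.stabilizer Γ a := h
    exact (MulAction.stabilizer Γ a).zpow_mem h3 q
  refine Set.Finite.subset (Set.finite_range fun r : Fin m => twist G c (g ^ (r : ℕ)) a) ?_
  rintro _ ⟨x, _, rfl⟩
  obtain ⟨b, rfl⟩ := hg x
  have hm' : (0 : ℤ) < m := by exact_mod_cast hm
  have h4 : 0 ≤ b % (m : ℤ) := Int.emod_nonneg b hm'.ne'
  have h5 : b % (m : ℤ) < m := Int.emod_lt_of_pos b hm'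
  refine ⟨⟨(b % (m : ℤ)).toNat, by omega⟩, ?_⟩
  change twist G c (g ^ (b % (m : ℤ)).toNat) a = twist G c (g ^ b) a
  have h6 : g ^ b = g ^ (b % (m : ℤ)).toNat * (g ^ m) ^ (b / (m : ℤ)) := by
    rw [← zpow_natCast, ← zpow_natCast, Int.toNat_of_nonneg h4, ← zpow_mul, ← zpow_add]
    congr 1
    exact (Int.emod_add_mul_ediv b m).symm
  rw [h6, twist_mul, h2]

lemma proj_act (h : Γ) (Z : 𝒱.Obj) (i : ℕ) (x : W.H Z) :
    H914.proj (W.isInternal Z) i (G.act Z h x) = G.act Z h (H914.proj (W.isInternal Z) i x) := by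
  refine gr_induction (W.isInternal Z) (p := fun x =>
    H914.proj (W.isInternal Z) i (G.act Z h x) = G.act Z h (H914.proj (W.isInternal Z) i x))
    ?_ ?_ x
  · intro j a ha
    have h1 := (G.galois Z).gr_mem h j a ha
    by_cases hij : j = i
    · subst hij
      rw [proj_same _ ha, proj_same _ h1]
    · rw [proj_ne _ ha hij, proj_ne _ h1 hij, map_zero]
  · intro a b ha hb
    rw [map_add, map_add, map_add, map_add, ha, hb]

lemma ker_sup_range {V : Type*} [AddCommGroup V] [Module W.K V] {f : Module.End W.K V}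
    (hf : f.IsSemisimple) (w : V) : ∃ a b, f a = 0 ∧ w = f b + a := by
  obtain ⟨q, hq, hc⟩ := Module.End.isSemisimple_iff.1 hf (LinearMap.range f) (by
    rintro _ ⟨x, rfl⟩
    exact ⟨f x, rfl⟩)
  have h1 : w ∈ LinearMap.range f ⊔ q := by
    rw [hc.sup_eq_top]
    exact Submodule.mem_top
  obtain ⟨_, ⟨b, rfl⟩, a, ha, h2⟩ := Submodule.mem_sup.1 h1
  refine ⟨a, b, ?_, h2.symm⟩
  have h3 : f a ∈ LinearMap.range f ⊓ q := ⟨⟨a, rfl⟩, hq ha⟩
  rw [hc.inf_eq_bot] at h3
  exact (Submodule.mem_bot W.K).1 h3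

/-- If the generator acts semisimply then the pairing on the Tate classes is nondegenerate. -/
theorem nondeg_of_semisimple {g : Γ} (hg : ∀ h : Γ, h ∈ Subgroup.zpowers g)
    (hss : (opF G Z g).IsSemisimple) : Nondeg (tSys G) Z := by
  by_contra hnd
  obtain ⟨c, hc, z, hz, hz0, hzc⟩ := exists_hom_num (tSys_homog G) hnd
  apply hz0
  obtain ⟨_, Δ, hΔ, hfix⟩ := tate_of_mem G hzc hz.1
  set m := Δ.index.factorial with hm
  have hm0 : 0 < m := Nat.factorial_pos _
  have hgm : g ^ m ∈ Δ := Subgroup.pow_mem_of_index_ne_zero_of_dvd hΔ.index_ne_zero _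
    fun a ha ha' => Nat.dvd_factorial ha ha'
  have hz1 := hfix _ hgm
  set μ : W.K := (G.χ (g ^ m) : W.K) ^ (Z.dim - c) with hμ
  set f : Module.End W.K (W.H Z) := opF G Z (g ^ m) - algebraMap W.K _ μ with hf
  have hfs : f.IsSemisimple := by
    rw [hf, Module.End.isSemisimple_sub_algebraMap_iff, opF_pow]
    exact hss.pow m
  have hfa : ∀ x, f x = G.act Z (g ^ m) x - μ • x := fun x => rfl
  have key : ∀ w ∈ W.gr Z (2 * (Z.dim - c)), W.tr Z (z * w) = 0 := by
    intro w hw
    obtain ⟨a, b, ha, hab⟩ := ker_sup_range hfs w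
    set a' := H914.proj (W.isInternal Z) (2 * (Z.dim - c)) a with ha'
    set b' := H914.proj (W.isInternal Z) (2 * (Z.dim - c)) b with hb'
    have h1 : w = f b' + a' := by
      have h2 := congrArg (H914.proj (W.isInternal Z) (2 * (Z.dim - c))) hab
      rw [proj_same _ hw, map_add, hfa, map_sub, map_smul, proj_act] at h2
      rw [hfa]
      exact h2
    have h2 : G.act Z (g ^ m) a' = μ • a' := by
      have h3 := congrArg (H914.proj (W.isInternal Z) (2 * (Z.dim - c))) ha
      rw [hfa, map_sub, map_smul, proj_act, map_zero, sub_eq_zero] at h3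
      exact h3
    have ha'm : a' ∈ W.gr Z (2 * (Z.dim - c)) := proj_mem _ _ _
    have h3 : IsTate G Z (Z.dim - c) a' := by
      refine tate_of_pow G hg hm0 ha'm ?_
      rw [twist, h2, smul_smul, mul_comm, hμ, chi_inv, one_smul]
    have h4 : W.tr Z (z * a') = 0 := hz.2 a' (Submodule.subset_span ⟨_, h3⟩)
    have h5 : W.tr Z (z * f b') = 0 := by
      rw [hfa, mul_sub, map_sub, mul_smul_comm, map_smul, smul_eq_mul, sub_eq_zero]
      have h6 := (G.galois Z).tr_act (g ^ m) (z * b')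
      rw [map_mul, hz1, smul_mul_assoc, map_smul, smul_eq_mul] at h6
      have h7 : (G.χ (g ^ m) : W.K) ^ Z.dim = (G.χ (g ^ m) : W.K) ^ c * μ := by
        rw [hμ, ← pow_add]
        congr 1
        omega
      rw [h7, mul_assoc] at h6
      exact mul_left_cancel₀ (pow_ne_zero _ (Units.ne_zero _)) h6
    rw [h1, mul_add, map_add, h5, h4, add_zero]
  apply W.nondeg
  intro x
  refine gr_induction (W.isInternal Z) (p := fun x => W.tr Z (z * x) = 0) ?_ ?_ x
  · intro i a ha
    by_cases hi : i = 2 * (Z.dim - c)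
    · subst hi
      exact key a ha
    · exact W.tr_eq_zero (W.mul_mem hzc ha) (by omega)
  · intro a b ha hb
    rw [mul_add, map_add, ha, hb, add_zero]

lemma opF_prod (g : Γ) (X Y : 𝒱.Obj) :
    opF G (X.prod Y) g = extOp W (opF G X g) (opF G Y g) := by
  apply LinearMap.ext
  intro x
  refine W.kunneth_induction (p := fun x => opF G (X.prod Y) g x =
    extOp W (opF G X g) (opF G Y g) x) ?_ ?_ x
  · intro a b ha hb
    rw [map_add, map_add, ha, hb]
  · intro i j a _ b _
    rw [extOp_tmul, opF_apply, map_mul, G.map, G.map]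
    rfl

lemma semi_prod {g : Γ} (hX : (opF G X g).IsSemisimple) (hY : (opF G Y g).IsSemisimple) :
    (opF G (X.prod Y) g).IsSemisimple := by
  rw [opF_prod]
  exact semisimple_ext hX hY

lemma semi_pw {g : Γ} (hX : (opF G X g).IsSemisimple) : ∀ n, (opF G (pw X n) g).IsSemisimple
  | 0 => hX
  | n + 1 => semi_prod G (semi_pw hX n) hX

lemma semi_yp {g : Γ} (hX : (opF G X g).IsSemisimple) (hY : (opF G Y g).IsSemisimple) :
    ∀ n, (opF G (yp Y X n) g).IsSemisimple
  | 0 => hY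
  | n + 1 => semi_prod G hY (semi_pw G hX n)

theorem tateRank_eq (Y X : 𝒱.Obj) (n j : ℕ) : tateRank G Y X n j = rs (tSys G) Y X n j := by
  rw [tateRank, tateNum_eq, rs]
  congr 1
  rw [symNum, Set.finrank]
  have h1 : {c | c ∈ {c | IsTate G (yp Y X n) j c ∧
      ∀ i d, IsTate G (yp Y X n) i d → W.tr (yp Y X n) (c * d) = 0} ∧
      ∀ σ, W.map (perm Y X n σ) c = c} =
      (Cs (tSys G) Y X n j ⊓ (tSys G).Num (yp Y X n) : Submodule W.K (W.H (yp Y X n))) := by
    ext c
    constructor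
    · rintro ⟨⟨h1, h2⟩, h3⟩
      have h4 : c ∈ (tSys G).C (yp Y X n) := Submodule.subset_span ⟨j, h1⟩
      refine ⟨⟨h4, h1.1, h3⟩, h4, fun d hd => ?_⟩
      change d ∈ Submodule.span W.K {c | ∃ j, IsTate G (yp Y X n) j c} at hd
      induction hd using Submodule.span_induction with
      | mem x hx =>
        obtain ⟨i, hx⟩ := hx
        exact h2 i x hx
      | zero => rw [mul_zero, map_zero]
      | add x y _ _ hx hy => rw [mul_add, map_add, hx, hy, add_zero]
      | smul r x _ hx => rw [mul_smul_comm, map_smul, hx, smul_zero]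
    · rintro ⟨⟨h1, h2, h3⟩, _, h4⟩
      exact ⟨⟨tate_of_mem G h2 h1, fun i d hd => h4 d (Submodule.subset_span ⟨i, hd⟩)⟩, h3⟩
  rw [h1, Submodule.span_eq]

/-- **The law for semisimplicity.** -/
theorem semi_main {g : Γ} (hg : ∀ h : Γ, h ∈ Subgroup.zpowers g) (X : 𝒱.Obj) :
    (¬ ActsSemisimply G g X → ∀ (Y : 𝒱.Obj) (n j : ℕ),
      stairSum X.dim n j (tateRank G Y (X.prod X)) ≤ tateNum G Y (X.prod X) n j) ∧
    (∀ Y : 𝒱.Obj, (1 : W.H Y) ≠ 0 →
      PosPart Y (X.prod X) (tateRank G Y (X.prod X)) (tateNum G Y (X.prod X)) →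
        ActsSemisimply G g X) ∧
    (ActsSemisimply G g X → ∀ Y : 𝒱.Obj, ActsSemisimply G g Y → ∀ n j : ℕ,
      tateRank G Y (X.prod X) n j = tateNum G Y (X.prod X) n j) := by
  refine ⟨?_, ?_, ?_⟩
  · intro h Y n j
    obtain ⟨z, hz, hz0, hzc⟩ := exists_tate_num G hg h
    have h1 := sum_rs_le hz hz0 hzc Y n j
    rw [stairSum, tateNum_eq]
    simp only [tateRank_eq]
    exact h1
  · rintro Y hY ⟨ε, hε, n₀, h⟩
    by_contra hcon
    obtain ⟨z, hz, hz0, hzc⟩ := exists_tate_num G hg hcon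
    refine zero_law hz hz0 hzc hY hε (n₀ := n₀) fun n hn => ?_
    have h1 := h n hn
    rw [sumDeg, sumDeg] at h1
    simp only [tateRank_eq, tateNum_eq] at h1
    exact h1
  · intro hX Y hYs n j
    rw [tateRank_eq, tateNum_eq, rs]
    have h1 : Nondeg (tSys G) (yp Y (X.prod X) n) :=
      nondeg_of_semisimple G hg (semi_yp G (semi_prod G hX hX) hYs n)
    have h2 : Cs (tSys G) Y (X.prod X) n j ⊓ (tSys G).Num (yp Y (X.prod X) n) = ⊥ := by
      rw [eq_bot_iff]
      rintro c ⟨_, hc⟩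
      exact h1 c hc.1 hc.2
    rw [h2, finrank_bot, Nat.sub_zero]

end Pool.Agent.X208.SP
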