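import Pool.Agent.X208.SP.Alg

/-!
# The orientation and the permutations
-/

open CategoryTheory AlgebraicGeometry

universe u v

namespace Pool.Agent.X208.SP

open Module
open Pool.Agent.H914 Pool.Agent.H914.VarClass Pool.Agent.H914.VarClass.Obj
  Pool.Agent.H914.WeilCohomology Pool.Agent.Y133.Half Pool.Agent.Y133.Half.Sys
  Pool.Agent.X208.SQ

variable {k : Type u} [Field k] {𝒱 : VarClass k} {ops : CycleOps 𝒱}
  {W : WeilCohomology.{u, v} ops} {X Y Z : 𝒱.Obj}

/-- The top degree has dimension at most one. -/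
lemma top_eq_zero {a : W.H Z} (ha : a ∈ W.gr Z (2 * Z.dim)) (h0 : W.tr Z a = 0) : a = 0 := by
  apply W.nondeg
  intro b
  refine gr_induction (W.isInternal Z) (p := fun b => W.tr Z (a * b) = 0) ?_ ?_ b
  · intro i b hb
    rcases Nat.eq_zero_or_pos i with rfl | hi
    · rw [W.gr_zero, Submodule.mem_span_singleton] at hb
      obtain ⟨r, rfl⟩ := hb
      rw [mul_smul_comm, mul_one, map_smul, h0, smul_zero]
    · exact W.tr_eq_zero (W.mul_mem ha hb) (by omega)
  · intro x y hx hy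
    rw [mul_add, map_add, hx, hy, add_zero]

/-- An endomorphism fixing a class of degree one preserves the orientation. -/
lemma tr_of_fix {φ : Z ⟶ Z} {ω : W.H Z} (hω : ω ∈ W.gr Z (2 * Z.dim)) (h1 : W.tr Z ω = 1)
    (hφ : W.map φ ω = ω) (x : W.H Z) : W.tr Z (W.map φ x) = W.tr Z x := by
  refine gr_induction (W.isInternal Z) (p := fun x => W.tr Z (W.map φ x) = W.tr Z x) ?_ ?_ x
  · intro i a ha
    by_cases hi : i = 2 * Z.dim
    · subst hi
      have h2 : a - W.tr Z a • ω = 0 := by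
        apply top_eq_zero (Submodule.sub_mem _ ha (Submodule.smul_mem _ _ hω))
        rw [map_sub, map_smul, h1, smul_eq_mul, mul_one, sub_self]
      have h3 : a = W.tr Z a • ω := sub_eq_zero.1 h2
      have h4 : W.map φ a = a := by
        conv_lhs => rw [h3]
        rw [map_smul, hφ, ← h3]
      rw [h4]
    · rw [W.tr_eq_zero ha hi, W.tr_eq_zero (W.map_mem φ ha) hi]
  · intro a b ha hb
    rw [map_add, map_add, map_add, ha, hb]

/-- A class of degree one exists if the cohomology is not zero. -/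
lemma exists_point (h : (1 : W.H Z) ≠ 0) : ∃ ω ∈ W.gr Z (2 * Z.dim), W.tr Z ω = 1 := by
  by_contra hcon
  push Not at hcon
  apply h
  apply W.nondeg
  intro b
  rw [one_mul]
  refine gr_induction (W.isInternal Z) (p := fun b => W.tr Z b = 0) ?_ ?_ b
  · intro i b hb
    by_cases hi : i = 2 * Z.dim
    · subst hi
      by_contra h0
      exact hcon _ (Submodule.smul_mem _ (W.tr Z b)⁻¹ hb) (by
        rw [map_smul, smul_eq_mul, inv_mul_cancel₀ h0])
    · exact W.tr_eq_zero hb hi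
  · intro x y hx hy
    rw [map_add, hx, hy, add_zero]

/-- The product of the classes of degree one of the factors of a power. -/
noncomputable def pt (ω : W.H X) : ∀ n, W.H (pw X n)
  | 0 => ω
  | n + 1 => W.map (pfst X n) (pt ω n) * W.map (psnd X n) ω

lemma pt_gr {ω : W.H X} (hω : ω ∈ W.gr X (2 * X.dim)) : ∀ n, pt ω n ∈ W.gr (pw X n) (2 * (pw X n).dim)
  | 0 => hω
  | n + 1 => by
    have h1 : (pw X (n + 1)).dim = (pw X n).dim + X.dim := rfl
    rw [h1, mul_add]
    exact W.mul_mem (W.map_mem _ (pt_gr hω n)) (W.map_mem _ hω)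

lemma pt_tr {ω : W.H X} (h1 : W.tr X ω = 1) : ∀ n, W.tr (pw X n) (pt ω n) = 1
  | 0 => h1
  | n + 1 => by
    have h2 := W.tr_prod (X := pw X n) (Y := X) (pt ω n) ω
    rw [pt_tr h1 n, h1, mul_one] at h2
    exact h2

lemma pt_eq (ω : W.H X) (n : ℕ) :
    pt ω n = (List.ofFn fun i => W.map (prj X n i) ω).prod := by
  induction n with
  | zero =>
    rw [List.ofFn_succ, List.ofFn_zero, List.prod_singleton]
    exact (W.map_id _ _).symm
  | succ n ih =>
    conv_rhs => rw [List.ofFn_succ', List.prod_concat, prj_last]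
    rw [pt, ih, map_list_prod, List.map_ofFn]
    congr 3
    funext i
    rw [Function.comp_apply, prj_castSucc, W.map_comp]

lemma pt_tau {ω : W.H X} (hω : ω ∈ W.gr X (2 * X.dim)) (n : ℕ) (σ : Equiv.Perm (Fin (n + 1))) :
    W.map (tau X n σ) (pt ω n) = pt ω n := by
  rw [pt_eq, map_list_prod, List.map_ofFn]
  have h1 : (W.map (tau X n σ)) ∘ (fun i => W.map (prj X n i) ω) =
      (fun i => W.map (prj X n i) ω) ∘ σ := by
    funext i
    rw [Function.comp_apply, Function.comp_apply, ← W.map_comp, tau_prj]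
  rw [h1]
  refine List.Perm.prod_eq' (σ.ofFn_comp_perm _) ?_
  rw [List.pairwise_ofFn]
  intro i j _
  exact W.even_comm (W.map_mem _ hω) _

/-- The invariance of the product class. -/
lemma pt_prod {ωY : W.H Y} {ωX : W.H X} (hX : ωX ∈ W.gr X (2 * X.dim)) (n : ℕ)
    (σ : Equiv.Perm (Fin (n + 1))) (P : Y.prod (pw X n) ⟶ Y.prod (pw X n))
    (e1 : P ≫ fst Y (pw X n) = fst Y (pw X n))
    (e2 : P ≫ snd Y (pw X n) = snd Y (pw X n) ≫ tau X n σ) :
    W.map P (W.map (fst Y (pw X n)) ωY * W.map (snd Y (pw X n)) (pt ωX n)) =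
      W.map (fst Y (pw X n)) ωY * W.map (snd Y (pw X n)) (pt ωX n) := by
  rw [map_mul, ← W.map_comp, ← W.map_comp, e1, e2, W.map_comp (snd Y (pw X n)), pt_tau hX]

/-- A class of degree one on `Y × X ^ n` which is invariant under the permutations. -/
lemma exists_pt {ωY : W.H Y} (hY : ωY ∈ W.gr Y (2 * Y.dim)) (hY1 : W.tr Y ωY = 1) {ωX : W.H X}
    (hX : ωX ∈ W.gr X (2 * X.dim)) (hX1 : W.tr X ωX = 1) : ∀ n,
    ∃ ω ∈ W.gr (yp Y X n) (2 * (yp Y X n).dim), W.tr (yp Y X n) ω = 1 ∧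
      ∀ σ, W.map (perm Y X n σ) ω = ω
  | 0 => by
    refine ⟨ωY, hY, hY1, fun σ => ?_⟩
    have h1 : perm Y X 0 σ = 𝟙 _ := by
      rw [perm_eq, ← D_id]
      congr 1
      funext i
      exact i.elim0
    rw [h1]
    exact W.map_id _ _
  | n + 1 => by
    refine ⟨W.map (fst Y (pw X n)) ωY * W.map (snd Y (pw X n)) (pt ωX n), ?_, ?_, fun σ => ?_⟩
    · have h1 : (yp Y X (n + 1)).dim = Y.dim + (pw X n).dim := rfl
      rw [h1, mul_add]
      exact W.mul_mem (W.map_mem _ hY) (W.map_mem _ (pt_gr hX n))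
    · have h2 := W.tr_prod (X := Y) (Y := pw X n) ωY (pt ωX n)
      rw [hY1, pt_tr hX1 n, mul_one] at h2
      exact h2
    · refine pt_prod hX n σ (perm Y X (n + 1) σ) (Obj.lift_fst _ _) ?_
      refine (Obj.lift_snd _ _).trans ?_
      apply hom_ext_prj
      intro i
      refine (liftN_prj n _ i).trans ?_
      exact ((Category.assoc (snd Y (pw X n)) (tau X n σ) (prj X n i)).trans
        (congrArg (snd Y (pw X n) ≫ ·) (tau_prj n σ i))).symm

/-- The permutations preserve the orientation of `Y × X ^ n`. -/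
theorem tr_perm (hY : (1 : W.H Y) ≠ 0) (hX : (1 : W.H X) ≠ 0) (n : ℕ)
    (σ : Equiv.Perm (Fin n)) (x : W.H (yp Y X n)) :
    W.tr (yp Y X n) (W.map (perm Y X n σ) x) = W.tr (yp Y X n) x := by
  obtain ⟨ωY, h1, h2⟩ := exists_point hY
  obtain ⟨ωX, h3, h4⟩ := exists_point hX
  obtain ⟨ω, h5, h6, h7⟩ := exists_pt h1 h2 h3 h4 n
  exact tr_of_fix h5 h6 (h7 σ) x

end Pool.Agent.X208.SP
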