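import Pool.Agent.X208.SP.Gap

/-!
# The zero per cent law
-/

open CategoryTheory AlgebraicGeometry

universe u v

namespace Pool.Agent.X208.SP

open Module
open Pool.Agent.H914 Pool.Agent.H914.VarClass Pool.Agent.H914.VarClass.Obj
  Pool.Agent.H914.WeilCohomology Pool.Agent.Y133.Half Pool.Agent.Y133.Half.Sys
  Pool.Agent.X208.SQ

variable {k : Type u} [Field k] {𝒱 : VarClass k} {ops : CycleOps 𝒱}
  {W : WeilCohomology.{u, v} ops} {X Y Z : 𝒱.Obj}

/-- **The zero per cent law.** -/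
theorem zero_law {S : Sys W} {z : W.H X} (hz : z ∈ S.Num X) (hz0 : z ≠ 0) {c : ℕ}
    (hzc : z ∈ W.gr X (2 * c)) (hY : (1 : W.H Y) ≠ 0) {ε : ℝ} (hε : 0 < ε) {n₀ : ℕ}
    (h : ∀ n, n₀ ≤ n → ε * (tot S Y X n : ℝ) ≤ totr S Y X n) : False := by
  have hX : (1 : W.H X) ≠ 0 := by
    intro h
    apply hz0
    rw [← mul_one z, h, mul_zero]
  have hpos : ∀ n, (0 : ℝ) < tot S Y X n := fun n => by exact_mod_cast tot_pos S hY hX n
  have hlaw : ∀ n, (totr S Y X (n + 1) : ℝ) + tot S Y X n ≤ tot S Y X (n + 1) := fun n => by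
    exact_mod_cast tot_law (fun _ => le_rfl) hz.1 hz0 hz.2 hzc Y n
  have hε2 : ε < 1 := by
    by_contra h1
    push Not at h1
    have h2 := h (n₀ + 1) (by omega)
    have h3 := hlaw n₀
    have h4 := hpos n₀
    have h6 := hpos (n₀ + 1)
    nlinarith
  refine no_exp (a := fun n => (tot S Y X n : ℝ)) (q := 1 / (1 - ε)) ?_
    (finrank W.K (W.H X) + 1) (hpos n₀) (fun n hn => ?_) (fun n => tot_le_poly S Y X n)
  · rw [one_lt_div (by linarith)]
    linarith
  · have h1 := h (n + 1) (by omega)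
    have h2 := hlaw n
    rw [div_mul_eq_mul_div, div_le_iff₀ (by linarith)]
    linarith

/-- A homogeneous numerically trivial class. -/
lemma exists_hom_num {S : Sys W} (hS : Homog S) (h : ¬ Nondeg S X) :
    ∃ c ≤ X.dim, ∃ z ∈ S.Num X, z ≠ 0 ∧ z ∈ W.gr X (2 * c) := by
  by_contra hcon
  apply h
  refine (eq_of_no_class (S := S) (T := S) (fun _ => le_rfl) hS hS fun c z hz hzc hzS => ?_).2
  by_contra hz0
  apply hcon
  refine ⟨c, ?_, z, ⟨hz, hzS⟩, hz0, hzc⟩
  by_contra hc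
  rw [W.gr_eq_bot X (2 * c) (by omega)] at hzc
  exact hz0 hzc

end Pool.Agent.X208.SP
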