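import Pool.Agent.X208.SP.PredDefs
import Pool.Agent.Y132.AH.GDefs

/-!
# The eigenvalues of the Frobenius on `Y × Sym ^ n X`: definitions
-/

open CategoryTheory AlgebraicGeometry

universe u

namespace Pool.Agent.X208.SP

open Pool.Agent.H914 Pool.Agent.H914.VarClass Pool.Agent.H914.VarClass.Obj
  Pool.Agent.H914.WeilCohomology Pool.Agent.Y132.AH Pool.Agent.Y133.Half

section Alg

variable {K A Γ : Type} [Field K] [Ring A] [Algebra K A] [Group Γ]

/-- The operator `h - a`. -/
def actSub (ρ : Γ →* (A ≃ₐ[K] A)) (h : Γ) (a : K) : Module.End K A := (ρ h).toLinearMap - a • 1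

/-- For some `m > 0` the element `c` is killed by a power of `g ^ m - χ(g ^ m) ^ j`. -/
def GenTateCls (χ : Γ →* Kˣ) (ρ : Γ →* (A ≃ₐ[K] A)) (g : Γ) (j : ℕ) (c : A) : Prop :=
  ∃ m N : ℕ, 0 < m ∧ (actSub ρ (g ^ m) ((χ (g ^ m) : K) ^ j) ^ N) c = 0

end Alg

variable {k : Type u} [Field k] {𝒱 : VarClass k} {ops : CycleOps 𝒱}

/-- The class `c` of degree `2 j` is, for some `m > 0`, a generalized eigenvector of `g ^ m` for the
eigenvalue `χ(g) ^ (m j)`: it is a sum of generalized eigenvectors of `g` for eigenvalues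
`ζ χ(g) ^ j`, `ζ ^ m = 1`. -/
def IsGenTate {W : WeilCohomology.{u, 0} ops} {Γ : Type} [Group Γ] (G : GaloisData W Γ) (g : Γ)
    (Z : 𝒱.Obj) (j : ℕ) (c : W.H Z) : Prop :=
  c ∈ W.gr Z (2 * j) ∧ GenTateCls G.χ (G.on Z).act g j c

/-- The number of the eigenvalues `ζ χ(g) ^ j` of `g`, `ζ` a root of unity, with multiplicities, on
the symmetric classes of degree `2 j` on `Y × X ^ n`. If `g` is the Frobenius over a finite field this
is the order of the pole at `s = j` of the zeta function of `Y × Sym ^ n X` over any sufficiently large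
finite extension of the base field. -/
noncomputable def poleOrder {W : WeilCohomology.{u, 0} ops} {Γ : Type} [Group Γ]
    (G : GaloisData W Γ) (g : Γ) (Y X : 𝒱.Obj) (n j : ℕ) : ℕ :=
  invDim W Y X n {c | IsGenTate G g (yp Y X n) j c}

/-- The number of the eigenvalues `ζ χ(g) ^ j` of `g`, `ζ` a root of unity, on `H ^ (2 j) (Z)`. -/
noncomputable def poleAt {W : WeilCohomology.{u, 0} ops} {Γ : Type} [Group Γ]
    (G : GaloisData W Γ) (g : Γ) (Z : 𝒱.Obj) (j : ℕ) : ℕ :=
  dimOf W {c | IsGenTate G g Z j c}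

/-- The rank of the group of the cycles of codimension `j` on `Z` modulo numerical equivalence. -/
noncomputable def numRank (ops : CycleOps 𝒱) (Z : 𝒱.Obj) (j : ℕ) : ℕ :=
  ratRank fun (z : {z : Z.Cycles // Z.IsCyc j z})
    (w : {w : Z.Cycles // ∃ l, j + l = Z.dim ∧ Z.IsCyc l w}) => Z.V.degCycle (ops.mul z.1 w.1)

/-- The strong Tate conjecture for `Z`: for all `j` the rank of the group of the cycles of codimension
`j` modulo numerical equivalence is the order of the pole. -/
def StrongTate {W : WeilCohomology.{u, 0} ops} {Γ : Type} [Group Γ] (G : GaloisData W Γ) (g : Γ)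
    (Z : 𝒱.Obj) : Prop :=
  ∀ j, numRank ops Z j = poleAt G g Z j

end Pool.Agent.X208.SP
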