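import Pool.Agent.X208.SP.Pred
import Pool.Agent.X208.SP.Semi
import Pool.Agent.X208.SP.ZetaDefs

/-!
# Generalized eigenvectors of the Frobenius
-/

open CategoryTheory AlgebraicGeometry

universe u

namespace Pool.Agent.X208.SP

open Module
open Pool.Agent.H914 Pool.Agent.H914.VarClass Pool.Agent.H914.VarClass.Obj
  Pool.Agent.H914.WeilCohomology Pool.Agent.Y132.AH Pool.Agent.Y133.Half
  Pool.Agent.Y133.Half.Sys Pool.Agent.X208.SQ Pool.Agent.H447

section Lin

variable {K V : Type*} [Field K] [AddCommGroup V] [Module K V]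

/-- The operator `T - a`. -/
def dif (T : Module.End K V) (a : K) : Module.End K V := T - a • 1

lemma dif_apply (T : Module.End K V) (a : K) (v : V) : dif T a v = T v - a • v := rfl

lemma dif_pow_mul {T : Module.End K V} {a : K} {m N : ℕ} {v : V} (h : (dif T a ^ N) v = 0) :
    (dif (T ^ m) (a ^ m) ^ N) v = 0 := by
  have hc : Commute T (a • (1 : Module.End K V)) := (Commute.one_right T).smul_right a
  obtain ⟨S, hS, hcS⟩ : ∃ S : Module.End K V, dif (T ^ m) (a ^ m) = S * dif T a ∧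
      Commute S (dif T a) := by
    refine ⟨∑ i ∈ Finset.range m, T ^ i * (a • (1 : Module.End K V)) ^ (m - 1 - i), ?_, ?_⟩
    · rw [dif, dif, hc.geom_sum₂_mul, smul_pow, one_pow]
    · refine Commute.sum_left _ _ _ fun i _ => ?_
      have h1 : Commute T (dif T a) := (Commute.refl T).sub_right hc
      have h2 : Commute (a • (1 : Module.End K V)) (dif T a) :=
        ((Commute.one_left _).smul_left a)
      exact (h1.pow_left i).mul_left (h2.pow_left _)
  rw [hS, hcS.mul_pow, Module.End.mul_apply, h, map_zero]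

end Lin

variable {k : Type u} [Field k] {𝒱 : VarClass k} {ops : CycleOps 𝒱}
  {W : WeilCohomology.{u, 0} ops} {X Y Z : 𝒱.Obj} {Γ : Type} [Group Γ] (G : GaloisData W Γ)

/-- The operator `h - χ(h) ^ j`. -/
noncomputable def dG (Z : 𝒱.Obj) (h : Γ) (j : ℕ) : Module.End W.K (W.H Z) :=
  dif (opF G Z h) ((G.χ h : W.K) ^ j)

lemma dG_apply (Z : 𝒱.Obj) (h : Γ) (j : ℕ) (c : W.H Z) :
    dG G Z h j c = G.act Z h c - (G.χ h : W.K) ^ j • c := rfl

lemma dG_more {h : Γ} {j N : ℕ} {c : W.H Z} (hc : (dG G Z h j ^ N) c = 0) (m : ℕ) :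
    (dG G Z (h ^ m) j ^ N) c = 0 := by
  have h1 := dif_pow_mul (m := m) hc
  rw [← opF_pow] at h1
  rw [dG, map_pow, Units.val_pow_eq_pow_val, ← pow_mul, mul_comm, pow_mul]
  exact h1

lemma pow_zero_of_le {E : Module.End W.K (W.H Z)} {N N' : ℕ} (hN : N ≤ N') {c : W.H Z}
    (h : (E ^ N) c = 0) : (E ^ N') c = 0 := by
  obtain ⟨i, rfl⟩ := Nat.exists_eq_add_of_le hN
  rw [add_comm, pow_add, Module.End.mul_apply, h, map_zero]

lemma dG_mul (h : Γ) (i j : ℕ) : ∀ (s N N' : ℕ), N + N' = s → ∀ (a b : W.H Z),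
    (dG G Z h i ^ N) a = 0 → (dG G Z h j ^ N') b = 0 →
      (dG G Z h (i + j) ^ s) (a * b) = 0 := by
  intro s
  induction s with
  | zero =>
    intro N N' hs a b ha _
    obtain rfl : N = 0 := by omega
    rw [pow_zero, Module.End.one_apply] at ha
    rw [ha, zero_mul, map_zero]
  | succ s ih =>
    intro N N' hs a b ha hb
    rcases Nat.eq_zero_or_pos N with rfl | hN
    · rw [pow_zero, Module.End.one_apply] at ha
      rw [ha, zero_mul, map_zero]
    rcases Nat.eq_zero_or_pos N' with rfl | hN'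
    · rw [pow_zero, Module.End.one_apply] at hb
      rw [hb, mul_zero, map_zero]
    obtain ⟨N, rfl⟩ : ∃ N₁, N = N₁ + 1 := ⟨N - 1, by omega⟩
    obtain ⟨N', rfl⟩ : ∃ N₁, N' = N₁ + 1 := ⟨N' - 1, by omega⟩
    have e : dG G Z h (i + j) (a * b) = dG G Z h i a * G.act Z h b +
        (G.χ h : W.K) ^ i • (a * dG G Z h j b) := by
      rw [dG_apply, dG_apply, dG_apply, map_mul, sub_mul, mul_sub, smul_sub, mul_smul_comm, smul_smul,
        smul_mul_assoc, ← pow_add]
      abel
    rw [pow_succ, Module.End.mul_apply, e, map_add, map_smul]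
    have hcomm : Commute (dG G Z h j) (opF G Z h) := by
      rw [dG, dif]
      exact (Commute.refl _).sub_left ((Commute.one_left _).smul_left _)
    have h1 : (dG G Z h (i + j) ^ s) (dG G Z h i a * G.act Z h b) = 0 := by
      refine ih N (N' + 1) (by omega) _ _ ?_ ?_
      · rw [← Module.End.mul_apply, ← pow_succ]; exact ha
      · have h2 := (hcomm.pow_left (N' + 1)).eq
        have h3 : (dG G Z h j ^ (N' + 1)) (opF G Z h b) = opF G Z h ((dG G Z h j ^ (N' + 1)) b) := by
          rw [← Module.End.mul_apply, ← Module.End.mul_apply, h2]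
        rw [opF_apply] at h3
        rw [h3, hb, map_zero]
    have h2 : (dG G Z h (i + j) ^ s) (a * dG G Z h j b) = 0 := by
      refine ih (N + 1) N' (by omega) _ _ ha ?_
      rw [← Module.End.mul_apply, ← pow_succ]; exact hb
    rw [h1, h2, smul_zero, add_zero]

lemma dG_map (h : Γ) (j : ℕ) (f : X ⟶ Y) (N : ℕ) (a : W.H Y) :
    (dG G X h j ^ N) (W.map f a) = W.map f ((dG G Y h j ^ N) a) := by
  induction N generalizing a with
  | zero => rfl
  | succ N ih =>
    rw [pow_succ, pow_succ, Module.End.mul_apply, Module.End.mul_apply, ← ih]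
    congr 1
    rw [dG_apply, dG_apply, map_sub, map_smul, G.map f h a]

lemma dG_push (h : Γ) {j l : ℕ} (f : X ⟶ Y) (hl : l + X.dim = j + Y.dim) (N : ℕ) (a : W.H X) :
    ((G.χ h : W.K) ^ X.dim) ^ N • (dG G Y h l ^ N) (W.push f a) =
      ((G.χ h : W.K) ^ Y.dim) ^ N • W.push f ((dG G X h j ^ N) a) := by
  induction N generalizing a with
  | zero => simp only [pow_zero, Module.End.one_apply]
  | succ N ih =>
    have h1 : (G.χ h : W.K) ^ X.dim • dG G Y h l (W.push f a) =
        (G.χ h : W.K) ^ Y.dim • W.push f (dG G X h j a) := by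
      rw [dG_apply, dG_apply, smul_sub, act_push, map_sub, smul_sub, map_smul, smul_smul, smul_smul,
        ← pow_add, ← pow_add, add_comm X.dim l, hl, add_comm j]
    rw [pow_succ (dG G Y h l), pow_succ (dG G X h j), Module.End.mul_apply, Module.End.mul_apply,
      pow_succ ((G.χ h : W.K) ^ X.dim), mul_smul, ← map_smul, h1, map_smul, smul_comm, ih,
      smul_smul, ← pow_succ']

lemma isGenTate_iff {g : Γ} {j : ℕ} {c : W.H Z} : IsGenTate G g Z j c ↔
    c ∈ W.gr Z (2 * j) ∧ ∃ m N : ℕ, 0 < m ∧ (dG G Z (g ^ m) j ^ N) c = 0 := Iff.rfl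

/-- The classes which are generalized eigenvectors for the eigenvalues `ζ χ(g) ^ j`. -/
noncomputable def zetaPred (g : Γ) : ClassPred W where
  P Z j c := IsGenTate G g Z j c
  gr h := h.1
  zero := ⟨Submodule.zero_mem _, 1, 0, one_pos, map_zero _⟩
  add := by
    rintro X j a b ⟨ha, m, N, hm, h⟩ ⟨hb, m', N', hm', h'⟩
    refine ⟨Submodule.add_mem _ ha hb, m * m', N + N', Nat.mul_pos hm hm', ?_⟩
    change (dG G X (g ^ (m * m')) j ^ (N + N')) (a + b) = 0
    rw [map_add]
    have h1 := dG_more G h m'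
    rw [← pow_mul] at h1
    have h2 := dG_more G h' m
    rw [← pow_mul, mul_comm] at h2
    rw [pow_zero_of_le (Nat.le_add_right N N') h1, pow_zero_of_le (Nat.le_add_left N' N) h2, add_zero]
  smul := by
    rintro X j r a ⟨ha, m, N, hm, h⟩
    exact ⟨Submodule.smul_mem _ _ ha, m, N, hm, by rw [map_smul, h, smul_zero]⟩
  cl := by
    intro X j z hz
    obtain ⟨Δ, hΔ, h⟩ := (G.galois X).cl_fix j (W.cl X z) ⟨z, hz, rfl⟩
    refine ⟨W.cl_mem hz, Δ.index.factorial, 1, Nat.factorial_pos _, ?_⟩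
    change (dG G X (g ^ Δ.index.factorial) j ^ 1) (W.cl X z) = 0
    have hgm : g ^ Δ.index.factorial ∈ Δ := Subgroup.pow_mem_of_index_ne_zero_of_dvd hΔ.index_ne_zero _
      (fun m hm hm' => Nat.dvd_factorial hm hm')
    rw [pow_one, dG_apply, sub_eq_zero]
    exact h _ hgm
  mul := by
    rintro X i j a b ⟨ha, m, N, hm, h⟩ ⟨hb, m', N', hm', h'⟩
    refine ⟨?_, m * m', N + N', Nat.mul_pos hm hm', ?_⟩
    · have h3 := W.mul_mem ha hb
      rwa [← mul_add] at h3
    · have h1 := dG_more G h m'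
      rw [← pow_mul] at h1
      have h2 := dG_more G h' m
      rw [← pow_mul, mul_comm] at h2
      exact dG_mul G _ i j _ N N' rfl a b h1 h2
  map := by
    rintro X Y f j a ⟨ha, m, N, hm, h⟩
    refine ⟨W.map_mem f ha, m, N, hm, ?_⟩
    change (dG G X (g ^ m) j ^ N) (W.map f a) = 0
    rw [dG_map]
    exact (congrArg (W.map f) h).trans (map_zero _)
  push := by
    rintro X Y f j l hl a ⟨ha, m, N, hm, h⟩
    refine ⟨?_, m, N, hm, ?_⟩
    · have h1 := W.push_mem f ha
      have h2 : ((2 * j : ℕ) : ℤ) + 2 * ((Y.dim : ℤ) - X.dim) = ((2 * l : ℕ) : ℤ) := by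
        have : (l : ℤ) + X.dim = j + Y.dim := by exact_mod_cast hl
        push_cast
        linarith
      rwa [h2, grZ_natCast] at h1
    · change (dG G Y (g ^ m) l ^ N) (W.push f a) = 0
      have h1 := dG_push G (g ^ m) f hl N a
      have h3 : (dG G X (g ^ m) j ^ N) a = 0 := h
      rw [h3, map_zero, smul_zero] at h1
      exact (smul_eq_zero.1 h1).resolve_left (pow_ne_zero _ (pow_ne_zero _ (Units.ne_zero _)))

end Pool.Agent.X208.SP
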