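import Pool.Agent.X208.SP.Zeta

/-!
# The order of the pole on `Y × Sym ^ n X`
-/

open CategoryTheory AlgebraicGeometry

universe u

namespace Pool.Agent.X208.SP

open Module
open Pool.Agent.H914 Pool.Agent.H914.VarClass Pool.Agent.H914.VarClass.Obj
  Pool.Agent.H914.WeilCohomology Pool.Agent.Y132.AH Pool.Agent.Y133.Half
  Pool.Agent.Y133.Half.Sys Pool.Agent.X208.SQ Pool.Agent.H447

variable {k : Type u} [Field k] {𝒱 : VarClass k} {ops : CycleOps 𝒱}
  {W : WeilCohomology.{u, 0} ops} {X Y Z : 𝒱.Obj} {Γ : Type} [Group Γ] (G : GaloisData W Γ)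

lemma perm_zero (Y X : 𝒱.Obj) (σ : Equiv.Perm (Fin 0)) : perm Y X 0 σ = 𝟙 Y := rfl

lemma numRank_eq (W : WeilCohomology.{u, 0} ops) (Z : 𝒱.Obj) (j : ℕ) :
    numRank ops Z j = symRank ops Z Z 0 j := by
  have h : (fun (z : {z : Z.Cycles // Z.IsCyc j z})
      (w : {w : Z.Cycles // ∃ l, j + l = Z.dim ∧ Z.IsCyc l w}) =>
        Z.V.degCycle (ops.mul z.1 w.1)) = symInter ops Z Z 0 j := by
    funext z w
    obtain ⟨l, hl, hw⟩ := w.2
    have h1 : symInter ops Z Z 0 j z w =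
        Z.V.degCycle (ops.mul (ops.pull (𝟙 Z) z.1) w.1) := by
      rw [symInter, Fintype.sum_unique]
      rfl
    rw [h1]
    have h2 : ((Z.V.degCycle (ops.mul z.1 w.1) : ℚ) : W.K) =
        ((Z.V.degCycle (ops.mul (ops.pull (𝟙 Z) z.1) w.1) : ℚ) : W.K) := by
      rw [← tr_mul_cl z.2 hw hl, ← tr_mul_cl (ops.pull_mem (𝟙 Z) z.2) hw hl, W.cl_pull, W.map_id]
    exact_mod_cast h2
  rw [numRank, h]
  rfl

lemma poleAt_eq (g : Γ) (Z : 𝒱.Obj) (j : ℕ) : poleAt G g Z j = poleOrder G g Z Z 0 j := by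
  have h1 : {c : W.H Z | IsGenTate G g Z j c} = {c | c ∈ {c | IsGenTate G g Z j c} ∧
      ∀ σ, W.map (perm Z Z 0 σ) c = c} := by
    ext c
    constructor
    · intro hc
      exact ⟨hc, fun σ => W.map_id Z c⟩
    · exact fun hc => hc.1
  exact congrArg (dimOf W) h1

lemma strong_of (g : Γ) (h : (∀ j c, IsGenTate G g X j c → c ∈ spanCycles W X j) ∧
    HomEqNum W X) : StrongTate G g X := by
  intro j
  have h2 : Nondeg (algSys W) X := (nondeg_alg_iff _).2 h.2
  have h1 := (pred_le_iff (zetaPred G g) X).2 h.1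
  rw [numRank_eq W, poleAt_eq, poleOrder]
  have e := invDim_eq (zetaPred G g) X X 0 j
  refine Eq.trans ?_ e.symm
  rw [symRank_eq W, rs]
  have h4 : Cs (algSys W) X X 0 j ⊓ (algSys W).Num (yp X X 0) = ⊥ := by
    rw [eq_bot_iff]
    rintro c ⟨_, hc⟩
    exact h2 c hc.1 hc.2
  have h5 : Cs (zetaPred G g).sys X X 0 j = Cs (algSys W) X X 0 j := by
    apply le_antisymm
    · exact fun c hc => ⟨h1 hc.1, hc.2⟩
    · exact Cs_mono (fun _ => ClassPred.alg_le) 0 j
  rw [h4, finrank_bot, Nat.sub_zero, h5]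

lemma strong_iff (g : Γ) : StrongTate G g X ↔
    (∀ j c, IsGenTate G g X j c → c ∈ spanCycles W X j) ∧ HomEqNum W X := by
  refine ⟨fun h => ?_, strong_of G g⟩
  have h0 : ∀ j, rs (algSys W) X X 0 j = finrank W.K (Cs (zetaPred G g).sys X X 0 j) := by
    intro j
    have h1 := h j
    rw [numRank_eq W, poleAt_eq, poleOrder, symRank_eq W] at h1
    exact h1.trans (invDim_eq (zetaPred G g) X X 0 j)
  have key : (zetaPred G g).sys.C X ≤ (algSys W).C X ∧ Nondeg (algSys W) X := by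
    refine eq_of_no_class (fun _ => ClassPred.alg_le) homog_alg (homog_pred _) ?_
    intro c z hz hzc hzS
    have hz1 : z ∈ Cs (zetaPred G g).sys X X 0 c := ⟨hz, hzc, fun σ => W.map_id X z⟩
    have hle : Cs (algSys W) X X 0 c ≤ Cs (zetaPred G g).sys X X 0 c :=
      Cs_mono (fun _ => ClassPred.alg_le) 0 c
    have h1 := h0 c
    rw [rs] at h1
    have h2 : finrank W.K (Cs (algSys W) X X 0 c) ≤ finrank W.K (Cs (zetaPred G g).sys X X 0 c) :=
      Submodule.finrank_mono hle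
    have h3 : Cs (algSys W) X X 0 c = Cs (zetaPred G g).sys X X 0 c :=
      Submodule.eq_of_le_of_finrank_le hle (by omega)
    have h4 : finrank W.K (Cs (algSys W) X X 0 c ⊓ (algSys W).Num (yp X X 0) :
        Submodule W.K (W.H (yp X X 0))) = 0 := by
      have h5 : finrank W.K (Cs (algSys W) X X 0 c ⊓ (algSys W).Num (yp X X 0) :
        Submodule W.K (W.H (yp X X 0))) ≤ finrank W.K (Cs (algSys W) X X 0 c) :=
        Submodule.finrank_mono inf_le_left
      omega
    have h6 : z ∈ (Cs (algSys W) X X 0 c ⊓ (algSys W).Num (yp X X 0) :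
        Submodule W.K (W.H (yp X X 0))) := by
      rw [← h3] at hz1
      exact ⟨hz1, hz1.1, hzS⟩
    rw [Submodule.finrank_eq_zero.1 h4] at h6
    exact (Submodule.mem_bot _).1 h6
  exact ⟨(pred_le_iff (zetaPred G g) X).1 key.1, (nondeg_alg_iff X).1 key.2⟩

/-- **The law for the orders of the poles.** -/
theorem zeta_law (g : Γ) (X : 𝒱.Obj) :
    (¬ StrongTate G g X → ∃ c ≤ X.dim, ∀ (Y : 𝒱.Obj) (n j : ℕ),
      symRank ops Y X (n + 1) (j + c) + symDim W Y X n j ≤ poleOrder G g Y X (n + 1) (j + c)) ∧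
    (∀ Y : 𝒱.Obj, (1 : W.H Y) ≠ 0 → MoreThanHalf Y X (symRank ops Y X) (poleOrder G g Y X) →
      StrongTate G g X) ∧
    ((∀ n, StrongTate G g (pw X n)) ↔
      ∀ m, MoreThanHalf X (pw X m) (symRank ops X (pw X m)) (poleOrder G g X (pw X m))) := by
  refine ⟨fun h => (pred_law (zetaPred G g) X).1 fun h' => h ((strong_iff G g).2 h'),
    fun Y hY h => (strong_iff G g).2 ((pred_law (zetaPred G g) X).2 Y hY h), ?_⟩
  have h := pred_all (zetaPred G g) X
  exact ⟨fun h' => h.1 fun n => (strong_iff G g).1 (h' n),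
    fun h' n => (strong_iff G g).2 (h.2 h' n)⟩

end Pool.Agent.X208.SP
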